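import Pool.Agent.Lib.MP_d11fee_pr.Defs

/-!
# One-variable calculus: the key inequality and the function `M`
-/

open Set Real

namespace Pool.Agent.Lib.MP_d11fee_pr

/-- `-log (1 - x)` -/
noncomputable def vv (x : ℝ) : ℝ := -Real.log (1 - x)

/-- `-log x` -/
noncomputable def ww (x : ℝ) : ℝ := -Real.log x

theorem vv_one_sub (x : ℝ) : vv (1 - x) = ww x := by
  unfold vv ww; congr 2; ring

theorem ww_one_sub (x : ℝ) : ww (1 - x) = vv x := rfl

theorem vv_pos {x : ℝ} (h0 : 0 < x) (h1 : x < 1) : 0 < vv x := by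
  unfold vv
  have := Real.log_neg (x := 1 - x) (by linarith) (by linarith)
  linarith

theorem ww_pos {x : ℝ} (h0 : 0 < x) (h1 : x < 1) : 0 < ww x := by
  unfold ww
  have := Real.log_neg h0 h1
  linarith

theorem ww_lt_vv {x : ℝ} (h0 : 1 / 2 < x) (h1 : x < 1) : ww x < vv x := by
  unfold vv ww
  have := Real.log_lt_log (x := 1 - x) (y := x) (by linarith) (by linarith)
  linarith

theorem exp_vv {x : ℝ} (h1 : x < 1) : exp (vv x) = 1 / (1 - x) := by
  unfold vv
  rw [exp_neg, exp_log (by linarith), one_div]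

theorem exp_ww {x : ℝ} (h0 : 0 < x) : exp (ww x) = 1 / x := by
  unfold ww
  rw [exp_neg, exp_log h0, one_div]

theorem hasDerivAt_vv {x : ℝ} (h1 : x < 1) : HasDerivAt vv (1 / (1 - x)) x := by
  have h0 : HasDerivAt (fun y : ℝ => 1 - y) (-1) x := (hasDerivAt_id x).const_sub 1
  have h : HasDerivAt (fun y : ℝ => Real.log (1 - y)) (-1 / (1 - x)) x := h0.log (by linarith)
  have h2 : HasDerivAt vv (-(-1 / (1 - x))) x := h.neg
  exact h2.congr_deriv (by ring)

theorem hasDerivAt_ww {x : ℝ} (h0 : 0 < x) : HasDerivAt ww (-(1 / x)) x := by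
  have h2 : HasDerivAt ww (-(x⁻¹)) x := (Real.hasDerivAt_log h0.ne').neg
  exact h2.congr_deriv (by ring)

theorem aux_pos {z : ℝ} (hz : 0 < z) : 0 < (z - 2) * exp z + z + 2 := by
  have hmono : StrictMonoOn (fun z : ℝ => (z - 2) * exp z + z + 2) (Ici 0) := by
    apply strictMonoOn_of_deriv_pos (convex_Ici 0)
    · fun_prop
    · intro y hy
      rw [interior_Ici] at hy
      have hy0 : (0:ℝ) < y := hy
      have hd : HasDerivAt (fun z : ℝ => (z - 2) * exp z + z + 2) (1 * exp y + (y - 2) * exp y + 1) y := by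
        have h0 : HasDerivAt (fun z : ℝ => z - 2) 1 y := (hasDerivAt_id y).sub_const 2
        have h1 : HasDerivAt (fun z : ℝ => (z - 2) * exp z) (1 * exp y + (y - 2) * exp y) y :=
          h0.mul (Real.hasDerivAt_exp y)
        exact (h1.add (hasDerivAt_id y)).add_const 2
      rw [hd.deriv]
      have h3 : -y + 1 < exp (-y) := Real.add_one_lt_exp (by linarith)
      have h4 : exp (-y) * exp y = 1 := by rw [← exp_add]; simp
      nlinarith [exp_pos y]
  have h := hmono (self_mem_Ici) (mem_Ici.2 hz.le) hz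
  simp at h
  linarith

theorem psi_strictMono : StrictMonoOn (fun z : ℝ => (exp z - 1 - z) / z ^ 2) (Ioi 0) := by
  apply strictMonoOn_of_deriv_pos (convex_Ioi 0)
  · intro y hy
    have hy0 : (0:ℝ) < y := hy
    apply ContinuousAt.continuousWithinAt
    apply ContinuousAt.div
    · fun_prop
    · fun_prop
    · positivity
  · intro y hy
    rw [interior_Ioi] at hy
    have hy0 : (0:ℝ) < y := hy
    have hd : HasDerivAt (fun z : ℝ => (exp z - 1 - z) / z ^ 2)
        (((exp y - 1) * y ^ 2 - (exp y - 1 - y) * (2 * y)) / (y ^ 2) ^ 2) y := by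
      have h1 : HasDerivAt (fun z : ℝ => exp z - 1 - z) (exp y - 1) y :=
        ((Real.hasDerivAt_exp y).sub_const 1).sub (hasDerivAt_id y)
      have h2 : HasDerivAt (fun z : ℝ => z ^ 2) (2 * y) y := by
        have := hasDerivAt_pow 2 y
        simpa using this
      exact h1.div h2 (by positivity)
    rw [hd.deriv]
    apply div_pos
    · have := aux_pos hy0
      nlinarith [mul_pos hy0 this]
    · positivity

/-- The key inequality (I1). -/
theorem key_ineq {x : ℝ} (h0 : 1 / 2 < x) (h1 : x < 1) :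
    (1 - x) / x * (vv x / ww x) - x / (1 - x) * (ww x / vv x) < vv x - ww x := by
  have hw : 0 < ww x := ww_pos (by linarith) h1
  have hv : 0 < vv x := vv_pos (by linarith) h1
  have hwv := ww_lt_vv h0 h1
  have h := psi_strictMono hw hv hwv
  simp only at h
  rw [exp_vv h1, exp_ww (by linarith)] at h
  have hx : 0 < x := by linarith
  have hx1 : 0 < 1 - x := by linarith
  have e1 : 1 / x - 1 = (1 - x) / x := by field_simp
  have e2 : 1 / (1 - x) - 1 = x / (1 - x) := by field_simp; ring
  rw [e1, e2, div_lt_div_iff₀ (by positivity) (by positivity)] at h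
  set v := vv x
  set w := ww x
  set α := (1 - x) / x
  set β := x / (1 - x)
  have hvw : 0 < v * w := mul_pos hv hw
  have h3 : α * (v / w) - β * (w / v) = (α * v ^ 2 - β * w ^ 2) / (v * w) := by
    field_simp
  rw [h3, div_lt_iff₀ hvw]
  nlinarith

/-- `κ = (e^v / v)/(e^w / w)` -/
noncomputable def kap (x : ℝ) : ℝ := x / (1 - x) * (ww x / vv x)

theorem kap_pos {x : ℝ} (h0 : 0 < x) (h1 : x < 1) : 0 < kap x := by
  have hw : 0 < ww x := ww_pos h0 h1
  have hv : 0 < vv x := vv_pos h0 h1
  have : 0 < 1 - x := by linarith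
  unfold kap; positivity

theorem key_ineq' {x : ℝ} (h0 : 1 / 2 < x) (h1 : x < 1) :
    1 - kap x ^ 2 < kap x * (vv x - ww x) := by
  have h := key_ineq h0 h1
  have hk := kap_pos (by linarith : (0:ℝ) < x) h1
  have hw : 0 < ww x := ww_pos (by linarith) h1
  have hv : 0 < vv x := vv_pos (by linarith) h1
  have hx : 0 < x := by linarith
  have hx1 : 0 < 1 - x := by linarith
  have e : (1 - x) / x * (vv x / ww x) = 1 / kap x := by
    unfold kap; field_simp
  have e2 : x / (1 - x) * (ww x / vv x) = kap x := rfl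
  rw [e, e2] at h
  have h2 := mul_lt_mul_of_pos_left h hk
  have h3 : kap x * (1 / kap x - kap x) = 1 - kap x ^ 2 := by
    field_simp
  linarith

/-- `M(x) = x/v + (1-x)/w` -/
noncomputable def MM (x : ℝ) : ℝ := x / vv x + (1 - x) / ww x

theorem hasDerivAt_MM {x : ℝ} (h0 : 0 < x) (h1 : x < 1) :
    HasDerivAt MM ((1 * vv x - x * (1 / (1 - x))) / vv x ^ 2 +
      ((-1) * ww x - (1 - x) * (-(1 / x))) / ww x ^ 2) x := by
  have hw : 0 < ww x := ww_pos h0 h1
  have hv : 0 < vv x := vv_pos h0 h1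
  have a := (hasDerivAt_id x).div (hasDerivAt_vv h1) hv.ne'
  have b := ((hasDerivAt_id x).const_sub 1).div (hasDerivAt_ww h0) hw.ne'
  exact a.add b

theorem MM_strictAnti : StrictAntiOn MM (Ioo (1 / 2) 1) := by
  apply strictAntiOn_of_deriv_neg (convex_Ioo _ _)
  · intro y hy
    exact (hasDerivAt_MM (by linarith [hy.1]) hy.2).continuousAt.continuousWithinAt
  · intro y hy
    rw [interior_Ioo] at hy
    rw [(hasDerivAt_MM (by linarith [hy.1]) hy.2).deriv]
    have h := key_ineq hy.1 hy.2
    have hy0 : 0 < y := by linarith [hy.1]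
    have hy1 : 0 < 1 - y := by linarith [hy.2]
    have hw : 0 < ww y := ww_pos hy0 hy.2
    have hv : 0 < vv y := vv_pos hy0 hy.2
    have e : (1 * vv y - y * (1 / (1 - y))) / vv y ^ 2 +
      ((-1) * ww y - (1 - y) * (-(1 / y))) / ww y ^ 2 =
      ((1 - y) / y * (vv y / ww y) - y / (1 - y) * (ww y / vv y) - (vv y - ww y)) / (vv y * ww y) := by
      field_simp
      ring
    rw [e]
    apply div_neg_of_neg_of_pos (by linarith) (by positivity)

end Pool.Agent.Lib.MP_d11fee_pr
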