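import Pool.Agent.Lib.MP_d11fee_pr.Defs

/-!
# Symmetric (unimodal) laws with a prescribed quantile function
-/

open MeasureTheory Set

namespace Pool.Agent.Lib.MP_d11fee_pr

namespace Construct

/-- Odd extension of `g` about the point `1/2`. -/
noncomputable def oddExt (g : ℝ → ℝ) (x : ℝ) : ℝ := if 1 / 2 ≤ x then g x else -g (1 - x)

/-- Image of the uniform law under the odd extension of `g`. -/
noncomputable def oddLaw (g : ℝ → ℝ) : Measure ℝ :=
  (volume.restrict (Ioo (0 : ℝ) 1)).map (oddExt g)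

section

variable {g : ℝ → ℝ}

theorem oddExt_reflect (h0 : g (1 / 2) = 0) (x : ℝ) : oddExt g (1 - x) = -oddExt g x := by
  unfold oddExt
  rcases lt_trichotomy x (1 / 2) with h | h | h
  · rw [if_pos (by linarith), if_neg (by linarith)]; ring
  · subst h
    rw [if_pos (by norm_num), if_pos (by norm_num)]
    norm_num at h0 ⊢
    rw [h0]; simp
  · rw [if_neg (by linarith), if_pos (by linarith)]; norm_num

theorem oddExt_of_ge {x : ℝ} (hx : 1 / 2 ≤ x) : oddExt g x = g x := if_pos hx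

theorem oddExt_of_lt {x : ℝ} (hx : x < 1 / 2) : oddExt g x = -g (1 - x) := if_neg (by linarith)

theorem oddExt_of_le (h0 : g (1 / 2) = 0) {x : ℝ} (hx : x ≤ 1 / 2) :
    oddExt g x = -g (1 - x) := by
  rcases hx.lt_or_eq with h | h
  · exact oddExt_of_lt h
  · subst h
    rw [oddExt_of_ge le_rfl]
    norm_num at h0 ⊢
    rw [h0]; simp

theorem oddExt_strictMonoOn (hm : StrictMonoOn g (Ico (1 / 2 : ℝ) 1)) (h0 : g (1 / 2) = 0) :
    StrictMonoOn (oddExt g) (Ioo 0 1) := by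
  have hpos : ∀ x ∈ Ioo (1 / 2 : ℝ) 1, 0 < g x := fun x hx => by
    rw [← h0]
    exact hm ⟨le_rfl, by norm_num⟩ ⟨hx.1.le, hx.2⟩ hx.1
  have hnn : ∀ x ∈ Ico (1 / 2 : ℝ) 1, 0 ≤ g x := fun x hx => by
    rcases hx.1.lt_or_eq with h | h
    · exact (hpos x ⟨h, hx.2⟩).le
    · rw [← h, h0]
  intro x hx y hy hxy
  rcases le_or_gt (1 / 2) x with h | h
  · rw [oddExt_of_ge h, oddExt_of_ge (h.trans hxy.le)]
    exact hm ⟨h, hx.2⟩ ⟨h.trans hxy.le, hy.2⟩ hxy
  · rw [oddExt_of_lt h]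
    rcases le_or_gt (1 / 2) y with h' | h'
    · rw [oddExt_of_ge h']
      have h1 := hpos (1 - x) ⟨by linarith, by linarith [hx.1]⟩
      have h2 := hnn y ⟨h', hy.2⟩
      linarith
    · rw [oddExt_of_lt h']
      have := hm (a := 1 - y) (b := 1 - x) ⟨by linarith, by linarith [hy.1]⟩
        ⟨by linarith, by linarith [hx.1]⟩ (by linarith)
      linarith

theorem oddExt_continuousOn (hc : ContinuousOn g (Ico (1 / 2 : ℝ) 1)) (h0 : g (1 / 2) = 0) :
    ContinuousOn (oddExt g) (Ioo 0 1) := by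
  have h1 : ContinuousOn (oddExt g) (Ico (1 / 2 : ℝ) 1) :=
    hc.congr fun x hx => oddExt_of_ge hx.1
  have h2 : ContinuousOn (oddExt g) (Ioc (0 : ℝ) (1 / 2)) := by
    have : ContinuousOn (fun x => -g (1 - x)) (Ioc (0 : ℝ) (1 / 2)) := by
      refine (hc.comp (by fun_prop : ContinuousOn (fun x : ℝ => 1 - x) (Ioc (0 : ℝ) (1 / 2)))
        ?_).neg
      intro x hx
      exact ⟨by linarith [hx.2], by linarith [hx.1]⟩
    exact this.congr fun x hx => oddExt_of_le h0 hx.2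
  intro x hx
  rcases lt_trichotomy x (1 / 2) with h | h | h
  · refine (h2.continuousAt ?_).continuousWithinAt
    exact Filter.mem_of_superset (Ioo_mem_nhds hx.1 h) Ioo_subset_Ioc_self
  · subst h
    have e : Ioo (0 : ℝ) 1 = Ioc 0 (1 / 2) ∪ Ico (1 / 2) 1 := by
      ext y
      simp only [mem_Ioo, mem_union, mem_Ioc, mem_Ico]
      constructor
      · rintro ⟨h1, h2⟩
        rcases le_total y (1 / 2) with h | h
        · exact Or.inl ⟨h1, h⟩
        · exact Or.inr ⟨h, h2⟩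
      · rintro (⟨h1, h2⟩ | ⟨h1, h2⟩)
        · exact ⟨h1, by linarith⟩
        · exact ⟨by linarith, h2⟩
    rw [e]
    exact (h2 _ ⟨hx.1, le_rfl⟩).union (h1 _ ⟨le_rfl, hx.2⟩)
  · refine (h1.continuousAt ?_).continuousWithinAt
    exact Filter.mem_of_superset (Ioo_mem_nhds h hx.2) Ioo_subset_Ico_self

theorem oddExt_aemeasurable (hc : ContinuousOn g (Ico (1 / 2 : ℝ) 1)) (h0 : g (1 / 2) = 0) :
    AEMeasurable (oddExt g) (volume.restrict (Ioo (0 : ℝ) 1)) :=
  (oddExt_continuousOn hc h0).aemeasurable measurableSet_Ioo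

theorem map_reflect : (volume.restrict (Ioo (0 : ℝ) 1)).map (fun x => 1 - x) =
    volume.restrict (Ioo (0 : ℝ) 1) := by
  have h := (Measure.measurePreserving_sub_left (volume : Measure ℝ) 1).restrict_preimage
    (s := Ioo (0 : ℝ) 1) measurableSet_Ioo
  have e : (fun x : ℝ => 1 - x) ⁻¹' Ioo (0 : ℝ) 1 = Ioo 0 1 := by
    ext x; simp only [mem_preimage, mem_Ioo]; constructor <;> rintro ⟨h1, h2⟩ <;>
      constructor <;> linarith
  rw [e] at h
  exact h.map_eq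

theorem measurePreserving_reflect : MeasurePreserving (fun x : ℝ => 1 - x)
    (volume.restrict (Ioo (0 : ℝ) 1)) (volume.restrict (Ioo (0 : ℝ) 1)) :=
  ⟨by fun_prop, map_reflect⟩

theorem measurePreserving_reflect_half : MeasurePreserving (fun x : ℝ => 1 - x)
    (volume.restrict (Ioo (0 : ℝ) (1 / 2))) (volume.restrict (Ioo (1 / 2 : ℝ) 1)) := by
  have h := (Measure.measurePreserving_sub_left (volume : Measure ℝ) 1).restrict_preimage
    (s := Ioo (1 / 2 : ℝ) 1) measurableSet_Ioo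
  have e : (fun x : ℝ => 1 - x) ⁻¹' Ioo (1 / 2 : ℝ) 1 = Ioo 0 (1 / 2) := by
    ext x; simp only [mem_preimage, mem_Ioo]; constructor <;> rintro ⟨h1, h2⟩ <;>
      constructor <;> linarith
  rw [e] at h
  exact h

instance instProbUnif : IsProbabilityMeasure (volume.restrict (Ioo (0 : ℝ) 1)) :=
  ⟨by simp⟩

theorem restrict_split : volume.restrict (Ioo (0 : ℝ) 1) =
    volume.restrict (Ioo (0 : ℝ) (1 / 2)) + volume.restrict (Ioo (1 / 2 : ℝ) 1) := by
  rw [← Measure.restrict_union (by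
    rw [Set.disjoint_left]; rintro x ⟨_, h1⟩ ⟨h2, _⟩; linarith) measurableSet_Ioo]
  refine Measure.restrict_congr_set ?_
  have : Ioo (0 : ℝ) 1 \ (Ioo 0 (1 / 2) ∪ Ioo (1 / 2) 1) ⊆ {1 / 2} := by
    rintro x ⟨⟨h1, h2⟩, h3⟩
    simp only [mem_union, mem_Ioo, not_or, not_and, not_lt] at h3
    have a := h3.1 h1
    rcases a.lt_or_eq with b | b
    · exact absurd (h3.2 b) (by linarith)
    · exact b.symm
  refine Filter.EventuallyLE.antisymm ?_ ?_
  · rw [ae_le_set]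
    exact measure_mono_null this (by simp)
  · refine Filter.Eventually.of_forall ?_
    rintro x (⟨h1, h2⟩ | ⟨h1, h2⟩)
    · exact ⟨h1, by linarith⟩
    · exact ⟨by linarith, h2⟩

/-- Distribution function of the law at a value of the odd extension. -/
theorem oddLaw_Iic (hc : ContinuousOn g (Ico (1 / 2 : ℝ) 1))
    (hm : StrictMonoOn g (Ico (1 / 2 : ℝ) 1)) (h0 : g (1 / 2) = 0) {x : ℝ}
    (hx : x ∈ Ioo (0 : ℝ) 1) : (oddLaw g).real (Iic (oddExt g x)) = x := by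
  have hM := oddExt_strictMonoOn hm h0
  rw [oddLaw, measureReal_def, Measure.map_apply_of_aemeasurable (oddExt_aemeasurable hc h0)
    measurableSet_Iic, Measure.restrict_apply' measurableSet_Ioo]
  have e : oddExt g ⁻¹' Iic (oddExt g x) ∩ Ioo 0 1 = Ioc 0 x := by
    ext y
    simp only [mem_inter_iff, mem_preimage, mem_Iic, mem_Ioo, mem_Ioc]
    constructor
    · rintro ⟨h1, h2, h3⟩
      exact ⟨h2, (hM.le_iff_le ⟨h2, h3⟩ hx).1 h1⟩
    · rintro ⟨h1, h2⟩
      have hy : y ∈ Ioo (0 : ℝ) 1 := ⟨h1, h2.trans_lt hx.2⟩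
      exact ⟨(hM.le_iff_le hy hx).2 h2, hy⟩
  rw [e, Real.volume_Ioc, sub_zero, ENNReal.toReal_ofReal hx.1.le]

theorem oddLaw_Iic_lt (hc : ContinuousOn g (Ico (1 / 2 : ℝ) 1))
    (hm : StrictMonoOn g (Ico (1 / 2 : ℝ) 1)) (h0 : g (1 / 2) = 0) {x t : ℝ}
    (hx : x ∈ Ioo (0 : ℝ) 1) (ht : t < oddExt g x) : (oddLaw g).real (Iic t) < x := by
  have hP : IsProbabilityMeasure (oddLaw g) :=
    Measure.isProbabilityMeasure_map (oddExt_aemeasurable hc h0)
  -- find `y < x` with `t < G y`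
  have hcx : ContinuousAt (oddExt g) x :=
    (oddExt_continuousOn hc h0).continuousAt (Ioo_mem_nhds hx.1 hx.2)
  have h1 : ∀ᶠ y in nhds x, t < oddExt g y := hcx.eventually (lt_mem_nhds ht)
  have h2 : ∀ᶠ y in nhds x, y ∈ Ioo (0 : ℝ) 1 := Ioo_mem_nhds hx.1 hx.2
  have h3 : ∀ᶠ y in nhdsWithin x (Iio x), t < oddExt g y ∧ y ∈ Ioo (0 : ℝ) 1 ∧ y < x :=
    ((h1.and h2).filter_mono nhdsWithin_le_nhds |>.and self_mem_nhdsWithin).mono
      fun y hy => ⟨hy.1.1, hy.1.2, hy.2⟩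
  obtain ⟨y, hy1, hy2, hy3⟩ := h3.exists
  calc (oddLaw g).real (Iic t) ≤ (oddLaw g).real (Iic (oddExt g y)) :=
        measureReal_mono (Iic_subset_Iic.2 hy1.le)
    _ = y := oddLaw_Iic hc hm h0 hy2
    _ < x := hy3

theorem quantile_oddLaw (hc : ContinuousOn g (Ico (1 / 2 : ℝ) 1))
    (hm : StrictMonoOn g (Ico (1 / 2 : ℝ) 1)) (h0 : g (1 / 2) = 0) {x : ℝ}
    (hx : x ∈ Ioo (0 : ℝ) 1) : quantile (oddLaw g) x = oddExt g x := by
  have hP : IsProbabilityMeasure (oddLaw g) :=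
    Measure.isProbabilityMeasure_map (oddExt_aemeasurable hc h0)
  have e : {t : ℝ | x ≤ (oddLaw g).real (Iic t)} = Ici (oddExt g x) := by
    ext t
    simp only [mem_ofPred_eq, mem_Ici]
    constructor
    · intro h
      by_contra hn
      exact absurd (oddLaw_Iic_lt hc hm h0 hx (not_le.1 hn)) (not_lt.2 h)
    · intro h
      calc x = (oddLaw g).real (Iic (oddExt g x)) := (oddLaw_Iic hc hm h0 hx).symm
        _ ≤ _ := measureReal_mono (Iic_subset_Iic.2 h)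
  rw [quantile, e, csInf_Ici]

theorem mean_oddLaw (hc : ContinuousOn g (Ico (1 / 2 : ℝ) 1)) (h0 : g (1 / 2) = 0) :
    mean (oddLaw g) = 0 := by
  have h1 : mean (oddLaw g) = ∫ x in Ioo (0 : ℝ) 1, oddExt g x := by
    rw [mean, oddLaw]
    exact integral_map (oddExt_aemeasurable hc h0) (by fun_prop)
  have h2 : ∫ x in Ioo (0 : ℝ) 1, oddExt g (1 - x) = ∫ x in Ioo (0 : ℝ) 1, oddExt g x :=
    measurePreserving_reflect.integral_comp
      (MeasurableEquiv.subLeft (1 : ℝ)).measurableEmbedding (oddExt g)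
  have h3 : ∫ x in Ioo (0 : ℝ) 1, oddExt g (1 - x) = -∫ x in Ioo (0 : ℝ) 1, oddExt g x := by
    rw [← integral_neg]
    exact integral_congr_ae (Filter.Eventually.of_forall fun x => oddExt_reflect h0 x)
  rw [h1]; linarith

theorem oddExt_sq_reflect_half (h0 : g (1 / 2) = 0) :
    ∀ᵐ x ∂(volume.restrict (Ioo (0 : ℝ) (1 / 2))), oddExt g x ^ 2 = g (1 - x) ^ 2 := by
  filter_upwards [ae_restrict_mem measurableSet_Ioo] with x hx
  rw [oddExt_of_lt hx.2]; ring

theorem oddExt_sq_half :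
    ∀ᵐ x ∂(volume.restrict (Ioo (1 / 2 : ℝ) 1)), oddExt g x ^ 2 = g x ^ 2 := by
  filter_upwards [ae_restrict_mem measurableSet_Ioo] with x hx
  rw [oddExt_of_ge hx.1.le]

theorem oddExt_sq_integrable_left (h0 : g (1 / 2) = 0)
    (hL : IntegrableOn (fun x => g x ^ 2) (Ioo (1 / 2 : ℝ) 1)) :
    Integrable (fun x => oddExt g x ^ 2) (volume.restrict (Ioo (0 : ℝ) (1 / 2))) := by
  refine Integrable.congr ?_ ((oddExt_sq_reflect_half h0).mono fun x hx => hx.symm)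
  exact (measurePreserving_reflect_half.integrable_comp_emb
    (MeasurableEquiv.subLeft (1 : ℝ)).measurableEmbedding).2 hL

theorem oddExt_sq_integrable_right
    (hL : IntegrableOn (fun x => g x ^ 2) (Ioo (1 / 2 : ℝ) 1)) :
    Integrable (fun x => oddExt g x ^ 2) (volume.restrict (Ioo (1 / 2 : ℝ) 1)) :=
  Integrable.congr hL (oddExt_sq_half.mono fun x hx => hx.symm)

theorem oddExt_sq_integrable (h0 : g (1 / 2) = 0)
    (hL : IntegrableOn (fun x => g x ^ 2) (Ioo (1 / 2 : ℝ) 1)) :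
    Integrable (fun x => oddExt g x ^ 2) (volume.restrict (Ioo (0 : ℝ) 1)) := by
  rw [restrict_split]
  exact (oddExt_sq_integrable_left h0 hL).add_measure (oddExt_sq_integrable_right hL)

theorem integral_oddExt_sq (h0 : g (1 / 2) = 0)
    (hL : IntegrableOn (fun x => g x ^ 2) (Ioo (1 / 2 : ℝ) 1)) :
    ∫ x in Ioo (0 : ℝ) 1, oddExt g x ^ 2 = 2 * ∫ x in Ioo (1 / 2 : ℝ) 1, g x ^ 2 := by
  rw [restrict_split, integral_add_measure (oddExt_sq_integrable_left h0 hL)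
    (oddExt_sq_integrable_right hL), integral_congr_ae (oddExt_sq_reflect_half h0),
    integral_congr_ae oddExt_sq_half]
  have h2 : ∫ x in Ioo (0 : ℝ) (1 / 2), g (1 - x) ^ 2 = ∫ x in Ioo (1 / 2 : ℝ) 1, g x ^ 2 :=
    measurePreserving_reflect_half.integral_comp
      (MeasurableEquiv.subLeft (1 : ℝ)).measurableEmbedding (fun x => g x ^ 2)
  rw [h2]; ring

theorem variance_oddLaw (hc : ContinuousOn g (Ico (1 / 2 : ℝ) 1)) (h0 : g (1 / 2) = 0)
    (hL : IntegrableOn (fun x => g x ^ 2) (Ioo (1 / 2 : ℝ) 1)) :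
    variance (oddLaw g) = 2 * ∫ x in Ioo (1 / 2 : ℝ) 1, g x ^ 2 := by
  rw [variance, mean_oddLaw hc h0, ← integral_oddExt_sq h0 hL, oddLaw,
    integral_map (oddExt_aemeasurable hc h0) (by fun_prop)]
  simp

theorem oddLaw_symParent (hc : ContinuousOn g (Ico (1 / 2 : ℝ) 1))
    (hm : StrictMonoOn g (Ico (1 / 2 : ℝ) 1)) (h0 : g (1 / 2) = 0)
    (hL : IntegrableOn (fun x => g x ^ 2) (Ioo (1 / 2 : ℝ) 1)) : SymParent (oddLaw g) where
  prob := Measure.isProbabilityMeasure_map (oddExt_aemeasurable hc h0)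
  noAtoms := by
    intro t
    rw [oddLaw, Measure.map_apply_of_aemeasurable (oddExt_aemeasurable hc h0)
      (measurableSet_singleton t), Measure.restrict_apply' measurableSet_Ioo]
    refine Set.Subsingleton.measure_zero ?_ _
    rintro x ⟨hx1, hx2⟩ y ⟨hy1, hy2⟩
    exact (oddExt_strictMonoOn hm h0).injOn hx2 hy2 ((mem_preimage.1 hx1).trans
      (mem_preimage.1 hy1).symm)
  sq_int := by
    rw [oddLaw, integrable_map_measure (by fun_prop) (oddExt_aemeasurable hc h0)]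
    exact oddExt_sq_integrable h0 hL
  var_pos := by
    rw [variance_oddLaw hc h0 hL]
    have hpos : ∀ x ∈ Ioo (1 / 2 : ℝ) 1, 0 < g x := fun x hx => by
      rw [← h0]
      exact hm ⟨le_rfl, by norm_num⟩ ⟨hx.1.le, hx.2⟩ hx.1
    have : 0 < ∫ x in Ioo (1 / 2 : ℝ) 1, g x ^ 2 := by
      rw [setIntegral_pos_iff_support_of_nonneg_ae
        (Filter.Eventually.of_forall fun x => sq_nonneg _) hL]
      refine lt_of_lt_of_le ?_ (measure_mono (s := Ioo (1 / 2 : ℝ) 1) ?_)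
      · rw [Real.volume_Ioo]; norm_num
      · intro x hx
        exact ⟨by simp only [Function.mem_support]; exact (pow_pos (hpos x hx) 2).ne', hx⟩
    linarith
  symm := by
    rw [mean_oddLaw hc h0]
    have hae := oddExt_aemeasurable hc h0
    have h1 : (oddLaw g).map (fun t => 2 * 0 - t) =
        (volume.restrict (Ioo (0 : ℝ) 1)).map (fun x => 2 * 0 - oddExt g x) := by
      rw [oddLaw, AEMeasurable.map_map_of_aemeasurable (by fun_prop) hae]
      rfl
    have h2 : (fun x => 2 * 0 - oddExt g x) = oddExt g ∘ fun x => 1 - x := by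
      funext x
      simp only [Function.comp, oddExt_reflect h0 x]
      ring
    rw [h1, h2, ← AEMeasurable.map_map_of_aemeasurable (by rw [map_reflect]; exact hae)
      (by fun_prop), map_reflect]
    rfl

end

end Construct

open Construct in
/-- A continuous strictly increasing square integrable function on `[1/2, 1)` vanishing at `1/2`
is the right half of the quantile function of a symmetric law. -/
theorem exists_symParent (g : ℝ → ℝ) (hc : ContinuousOn g (Ico (1/2:ℝ) 1))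
    (hm : StrictMonoOn g (Ico (1/2:ℝ) 1)) (h0 : g (1/2) = 0)
    (hL : IntegrableOn (fun x => g x ^ 2) (Ioo (1/2:ℝ) 1)) :
    ∃ ν : Measure ℝ, SymParent ν ∧ mean ν = 0 ∧
      variance ν = 2 * ∫ x in Ioo (1/2:ℝ) 1, g x ^ 2 ∧
      (∀ x ∈ Ioo (1/2:ℝ) 1, quantile ν x = g x) ∧
      (∀ x ∈ Ioo (0:ℝ) (1/2), quantile ν x = - g (1 - x)) := by
  refine ⟨oddLaw g, oddLaw_symParent hc hm h0 hL, mean_oddLaw hc h0, variance_oddLaw hc h0 hL,
    fun x hx => ?_, fun x hx => ?_⟩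
  · rw [quantile_oddLaw hc hm h0 ⟨by linarith [hx.1], hx.2⟩, oddExt_of_ge hx.1.le]
  · rw [quantile_oddLaw hc hm h0 ⟨hx.1, by linarith [hx.2]⟩, oddExt_of_lt hx.2]

/-! ### Unimodal laws -/

namespace Construct

/-- Positive derivative off a finite set gives strict monotonicity. -/
theorem lt_of_hasDerivAt_pos {g γ : ℝ → ℝ} {E : Set ℝ} (hE : E.Finite)
    (hc : ContinuousOn g (Ico (1/2:ℝ) 1))
    (hd : ∀ x ∈ Ioo (1/2:ℝ) 1, x ∉ E → HasDerivAt g (γ x) x) (hγ : ∀ x ∈ Ioo (1/2:ℝ) 1, 0 < γ x) :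
    ∀ n : ℕ, ∀ a b : ℝ, 1 / 2 ≤ a → a < b → b < 1 → (E ∩ Ioo a b).ncard ≤ n → g a < g b := by
  intro n
  induction n with
  | zero =>
    intro a b ha hab hb hn
    have hfin : (E ∩ Ioo a b).Finite := hE.subset inter_subset_left
    have hemp : E ∩ Ioo a b = ∅ := by
      rw [← Set.ncard_eq_zero hfin]; omega
    have hsub : Icc a b ⊆ Ico (1/2:ℝ) 1 := fun x hx => ⟨ha.trans hx.1, hx.2.trans_lt hb⟩
    refine strictMonoOn_of_deriv_pos (convex_Icc a b) (hc.mono hsub) ?_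
      (left_mem_Icc.2 hab.le) (right_mem_Icc.2 hab.le) hab
    intro x hx
    rw [interior_Icc] at hx
    have hx' : x ∈ Ioo (1/2:ℝ) 1 := ⟨by linarith [hx.1], by linarith [hx.2]⟩
    have hxE : x ∉ E := fun h => by
      have : x ∈ E ∩ Ioo a b := ⟨h, hx⟩
      rw [hemp] at this
      exact this
    rw [(hd x hx' hxE).deriv]
    exact hγ x hx'
  | succ n ih =>
    intro a b ha hab hb hn
    have hfin : (E ∩ Ioo a b).Finite := hE.subset inter_subset_left
    rcases (E ∩ Ioo a b).eq_empty_or_nonempty with h | ⟨e, heE, hea, heb⟩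
    · exact ih a b ha hab hb (by rw [h]; simp)
    · have h1 : (E ∩ Ioo a e).ncard ≤ n := by
        have : (E ∩ Ioo a e).ncard < (E ∩ Ioo a b).ncard := by
          refine Set.ncard_lt_ncard ?_ hfin
          refine (Set.ssubset_iff_of_subset ?_).2 ⟨e, ⟨heE, hea, heb⟩, fun h => ?_⟩
          · rintro x ⟨hx1, hx2, hx3⟩
            exact ⟨hx1, hx2, hx3.trans heb⟩
          · exact lt_irrefl _ h.2.2
        omega
      have h2 : (E ∩ Ioo e b).ncard ≤ n := by
        have : (E ∩ Ioo e b).ncard < (E ∩ Ioo a b).ncard := by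
          refine Set.ncard_lt_ncard ?_ hfin
          refine (Set.ssubset_iff_of_subset ?_).2 ⟨e, ⟨heE, hea, heb⟩, fun h => ?_⟩
          · rintro x ⟨hx1, hx2, hx3⟩
            exact ⟨hx1, hea.trans hx2, hx3⟩
          · exact lt_irrefl _ h.2.1
        omega
      exact (ih a e ha hea (heb.trans hb) h1).trans (ih e b (ha.trans hea.le) heb hb h2)

theorem strictMonoOn_of_hasDerivAt_pos {g γ : ℝ → ℝ} {E : Set ℝ} (hE : E.Finite)
    (hc : ContinuousOn g (Ico (1/2:ℝ) 1))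
    (hd : ∀ x ∈ Ioo (1/2:ℝ) 1, x ∉ E → HasDerivAt g (γ x) x)
    (hγ : ∀ x ∈ Ioo (1/2:ℝ) 1, 0 < γ x) : StrictMonoOn g (Ico (1/2:ℝ) 1) :=
  fun a ha b hb hab => lt_of_hasDerivAt_pos hE hc hd hγ _ a b ha.1 hab hb.2 le_rfl

/-- Reflected slope. -/
noncomputable def slopeExt (γ : ℝ → ℝ) (x : ℝ) : ℝ := if 1 / 2 ≤ x then γ x else γ (1 - x)

/-- The density of `oddLaw g` when `γ` is the derivative of `g`. -/
noncomputable def oddDensity (g γ : ℝ → ℝ) (t : ℝ) : ℝ :=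
  open scoped Classical in
  if h : ∃ x ∈ Ioo (0:ℝ) 1, x ≠ 1 / 2 ∧ oddExt g x = t then (slopeExt γ h.choose)⁻¹ else 0

theorem oddDensity_apply {g γ : ℝ → ℝ} (hG : StrictMonoOn (oddExt g) (Ioo 0 1)) {x : ℝ}
    (hx : x ∈ Ioo (0:ℝ) 1) (hx' : x ≠ 1 / 2) :
    oddDensity g γ (oddExt g x) = (slopeExt γ x)⁻¹ := by
  have h : ∃ y ∈ Ioo (0:ℝ) 1, y ≠ 1 / 2 ∧ oddExt g y = oddExt g x := ⟨x, hx, hx', rfl⟩
  rw [oddDensity, dif_pos h]
  have : h.choose = x := hG.injOn h.choose_spec.1 hx h.choose_spec.2.2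
  rw [this]

theorem oddDensity_of_notMem {g γ : ℝ → ℝ} {t : ℝ}
    (h : ¬ ∃ x ∈ Ioo (0:ℝ) 1, x ≠ 1 / 2 ∧ oddExt g x = t) : oddDensity g γ t = 0 := by
  rw [oddDensity, dif_neg h]

theorem slopeExt_pos {γ : ℝ → ℝ} (hγ : ∀ x ∈ Ioo (1/2:ℝ) 1, 0 < γ x) {x : ℝ}
    (hx : x ∈ Ioo (0:ℝ) 1) (hx' : x ≠ 1 / 2) : 0 < slopeExt γ x := by
  unfold slopeExt
  split_ifs with h
  · exact hγ x ⟨lt_of_le_of_ne h hx'.symm, hx.2⟩
  · exact hγ _ ⟨by linarith, by linarith [hx.1]⟩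

theorem oddDensity_nonneg {g γ : ℝ → ℝ} (hG : StrictMonoOn (oddExt g) (Ioo 0 1))
    (hγ : ∀ x ∈ Ioo (1/2:ℝ) 1, 0 < γ x) (t : ℝ) : 0 ≤ oddDensity g γ t := by
  by_cases h : ∃ x ∈ Ioo (0:ℝ) 1, x ≠ 1 / 2 ∧ oddExt g x = t
  · obtain ⟨x, hx, hx', rfl⟩ := h
    rw [oddDensity_apply hG hx hx']
    exact (inv_pos.2 (slopeExt_pos hγ hx hx')).le
  · rw [oddDensity_of_notMem h]

theorem oddExt_ivt {g : ℝ → ℝ} (hG : StrictMonoOn (oddExt g) (Ioo 0 1))
    (hGc : ContinuousOn (oddExt g) (Ioo 0 1)) {a b t : ℝ} (ha : a ∈ Ioo (0:ℝ) 1)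
    (hb : b ∈ Ioo (0:ℝ) 1) (hat : oddExt g a < t) (htb : t < oddExt g b) :
    ∃ x ∈ Ioo a b, oddExt g x = t := by
  have hab : a < b := (hG.lt_iff_lt ha hb).1 (hat.trans htb)
  have hsub : Icc a b ⊆ Ioo (0:ℝ) 1 := fun x hx => ⟨ha.1.trans_le hx.1, hx.2.trans_lt hb.2⟩
  obtain ⟨x, hx, hxt⟩ := intermediate_value_Icc hab.le (hGc.mono hsub) ⟨hat.le, htb.le⟩
  refine ⟨x, ⟨lt_of_le_of_ne hx.1 ?_, lt_of_le_of_ne hx.2 ?_⟩, hxt⟩
  · rintro rfl; exact absurd hxt hat.ne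
  · rintro rfl; exact absurd hxt htb.ne'

theorem oddExt_half {g : ℝ → ℝ} (h0 : g (1/2) = 0) : oddExt g (1 / 2) = 0 := by
  rw [oddExt_of_ge le_rfl, h0]

theorem oddDensity_monotoneOn {g γ : ℝ → ℝ} (h0 : g (1/2) = 0)
    (hG : StrictMonoOn (oddExt g) (Ioo 0 1)) (hGc : ContinuousOn (oddExt g) (Ioo 0 1))
    (hγ : ∀ x ∈ Ioo (1/2:ℝ) 1, 0 < γ x) (hγm : MonotoneOn γ (Ioo (1/2:ℝ) 1)) :
    MonotoneOn (oddDensity g γ) (Iio 0) := by
  intro t ht t' ht' htt
  rcases htt.eq_or_lt with h | h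
  · rw [h]
  have hh : (1/2:ℝ) ∈ Ioo (0:ℝ) 1 := by constructor <;> norm_num
  by_cases hK : ∃ x ∈ Ioo (0:ℝ) 1, x ≠ 1 / 2 ∧ oddExt g x = t
  · obtain ⟨x, hx, hx', rfl⟩ := hK
    obtain ⟨y, hy, rfl⟩ := oddExt_ivt hG hGc hx hh h (by rw [oddExt_half h0]; exact ht')
    have hy0 : y ∈ Ioo (0:ℝ) 1 := ⟨hx.1.trans hy.1, hy.2.trans hh.2⟩
    rw [oddDensity_apply hG hx hx', oddDensity_apply hG hy0 hy.2.ne]
    refine inv_anti₀ (slopeExt_pos hγ hy0 hy.2.ne) ?_
    have hx2 : x < 1 / 2 := hy.1.trans hy.2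
    rw [slopeExt, slopeExt, if_neg (not_le.2 hx2), if_neg (not_le.2 hy.2)]
    exact hγm ⟨by linarith [hy.2], by linarith [hy0.1]⟩ ⟨by linarith, by linarith [hx.1]⟩
      (by linarith [hy.1])
  · rw [oddDensity_of_notMem hK]
    exact oddDensity_nonneg hG hγ _

theorem oddDensity_antitoneOn {g γ : ℝ → ℝ} (h0 : g (1/2) = 0)
    (hG : StrictMonoOn (oddExt g) (Ioo 0 1)) (hGc : ContinuousOn (oddExt g) (Ioo 0 1))
    (hγ : ∀ x ∈ Ioo (1/2:ℝ) 1, 0 < γ x) (hγm : MonotoneOn γ (Ioo (1/2:ℝ) 1)) :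
    AntitoneOn (oddDensity g γ) (Ioi 0) := by
  intro t ht t' ht' htt
  rcases htt.eq_or_lt with h | h
  · rw [h]
  have hh : (1/2:ℝ) ∈ Ioo (0:ℝ) 1 := by constructor <;> norm_num
  by_cases hK : ∃ x ∈ Ioo (0:ℝ) 1, x ≠ 1 / 2 ∧ oddExt g x = t'
  · obtain ⟨x, hx, hx', rfl⟩ := hK
    obtain ⟨y, hy, rfl⟩ := oddExt_ivt hG hGc hh hx (by rw [oddExt_half h0]; exact ht) h
    have hy0 : y ∈ Ioo (0:ℝ) 1 := ⟨hh.1.trans hy.1, hy.2.trans hx.2⟩
    rw [oddDensity_apply hG hx hx', oddDensity_apply hG hy0 hy.1.ne']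
    refine inv_anti₀ (slopeExt_pos hγ hy0 hy.1.ne') ?_
    have hx2 : 1 / 2 < x := hy.1.trans hy.2
    rw [slopeExt, slopeExt, if_pos hx2.le, if_pos hy.1.le]
    exact hγm ⟨hy.1, hy0.2⟩ ⟨hx2, hx.2⟩ hy.2.le
  · rw [oddDensity_of_notMem hK]
    exact oddDensity_nonneg hG hγ _

theorem oddDensity_measurable {g γ : ℝ → ℝ} (h0 : g (1/2) = 0)
    (hG : StrictMonoOn (oddExt g) (Ioo 0 1)) (hGc : ContinuousOn (oddExt g) (Ioo 0 1))
    (hγ : ∀ x ∈ Ioo (1/2:ℝ) 1, 0 < γ x) (hγm : MonotoneOn γ (Ioo (1/2:ℝ) 1)) :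
    Measurable (oddDensity g γ) := by
  refine measurable_of_restrict_of_restrict_compl (s := Iio 0) measurableSet_Iio ?_ ?_
  · have : Monotone ((Iio (0:ℝ)).domRestrict (oddDensity g γ)) := fun x y hxy =>
      oddDensity_monotoneOn h0 hG hGc hγ hγm x.2 y.2 hxy
    exact this.measurable
  · have hc : (Iio (0:ℝ))ᶜ = Ici 0 := by ext; simp
    rw [hc]
    -- off a point, antitone
    have h1 : Measurable fun t : ℝ => if t ∈ Ioi (0:ℝ) then oddDensity g γ t else 0 := by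
      refine measurable_of_restrict_of_restrict_compl (s := Ioi 0) measurableSet_Ioi ?_ ?_
      · have : Antitone ((Ioi (0:ℝ)).domRestrict
            (fun t : ℝ => if t ∈ Ioi (0:ℝ) then oddDensity g γ t else 0)) := by
          intro x y hxy
          simp only [domRestrict_apply]
          rw [if_pos x.2, if_pos y.2]
          exact oddDensity_antitoneOn h0 hG hGc hγ hγm x.2 y.2 hxy
        exact this.measurable
      · have : (Ioi (0:ℝ))ᶜ.domRestrict
            (fun t : ℝ => if t ∈ Ioi (0:ℝ) then oddDensity g γ t else 0) = fun _ => 0 := by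
          funext x
          simp only [domRestrict_apply]
          rw [if_neg x.2]
        rw [this]
        exact measurable_const
    have h2 : Measurable fun t : ℝ => if t = 0 then oddDensity g γ 0 else
        (if t ∈ Ioi (0:ℝ) then oddDensity g γ t else 0) :=
      Measurable.ite (measurableSet_singleton 0) measurable_const h1
    have h3 : (Ici (0:ℝ)).domRestrict (oddDensity g γ) = (Ici (0:ℝ)).domRestrict
        (fun t : ℝ => if t = 0 then oddDensity g γ 0 else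
        (if t ∈ Ioi (0:ℝ) then oddDensity g γ t else 0)) := by
      funext x
      simp only [domRestrict_apply]
      rcases eq_or_ne (x:ℝ) 0 with h | h
      · rw [if_pos h, h]
      · have hx : (0:ℝ) ≤ x := x.2
        rw [if_neg h, if_pos (show (x:ℝ) ∈ Ioi (0:ℝ) from lt_of_le_of_ne hx h.symm)]
    rw [h3]
    exact h2.comp measurable_subtype_coe

theorem hasDerivAt_oddExt {g γ : ℝ → ℝ} {E : Set ℝ}
    (hd : ∀ x ∈ Ioo (1/2:ℝ) 1, x ∉ E → HasDerivAt g (γ x) x) {x : ℝ} (hx : x ∈ Ioo (0:ℝ) 1)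
    (hx' : x ≠ 1 / 2) (hxE : x ∉ E) (hxE' : 1 - x ∉ E) :
    HasDerivAt (oddExt g) (slopeExt γ x) x := by
  rcases lt_or_gt_of_ne hx' with h | h
  · have h1 : HasDerivAt (fun y => -g (1 - y)) (γ (1 - x)) x := by
      have h2 := hd (1 - x) ⟨by linarith, by linarith [hx.1]⟩ hxE'
      have h3 : HasDerivAt (fun y : ℝ => 1 - y) (-1) x := by
        simpa using (hasDerivAt_id x).const_sub 1
      have h4 := (h2.comp x h3).neg
      simp only [mul_neg, mul_one, neg_neg] at h4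
      exact h4
    rw [slopeExt, if_neg (not_le.2 h)]
    refine h1.congr_of_eventuallyEq ?_
    filter_upwards [Iio_mem_nhds h] with y hy
    exact oddExt_of_lt hy
  · rw [slopeExt, if_pos h.le]
    refine (hd x ⟨h, hx.2⟩ hxE).congr_of_eventuallyEq ?_
    filter_upwards [Ioi_mem_nhds h] with y hy
    exact oddExt_of_ge (le_of_lt hy)

theorem oddLaw_withDensity {g γ : ℝ → ℝ} {E : Set ℝ} (hE : E.Finite)
    (hc : ContinuousOn g (Ico (1/2:ℝ) 1)) (hm : StrictMonoOn g (Ico (1 / 2 : ℝ) 1))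
    (h0 : g (1/2) = 0)
    (hd : ∀ x ∈ Ioo (1/2:ℝ) 1, x ∉ E → HasDerivAt g (γ x) x)
    (hγ : ∀ x ∈ Ioo (1/2:ℝ) 1, 0 < γ x) :
    oddLaw g = volume.withDensity (fun t => ENNReal.ofReal (oddDensity g γ t)) := by
  have hG := oddExt_strictMonoOn hm h0
  have hGc := oddExt_continuousOn hc h0
  set N : Set ℝ := {1 / 2} ∪ E ∪ (fun x => 1 - x) ⁻¹' E with hN
  have hNf : N.Finite := ((finite_singleton _).union hE).union
    (hE.preimage (fun x _ y _ h => by simpa using h))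
  have hNm : MeasurableSet N := hNf.measurableSet
  refine Measure.ext fun B hB => ?_
  set A : Set ℝ := (oddExt g ⁻¹' B ∩ Ioo 0 1) \ N with hA
  have hAsub : A ⊆ Ioo 0 1 := fun x hx => hx.1.2
  have hAm : MeasurableSet A := by
    refine MeasurableSet.diff ?_ hNm
    have hmeas : Measurable ((Ioo (0:ℝ) 1).domRestrict (oddExt g)) :=
      (continuousOn_iff_continuous_domRestrict.1 hGc).measurable
    have : oddExt g ⁻¹' B ∩ Ioo 0 1 =
        (Subtype.val '' ((Ioo (0:ℝ) 1).domRestrict (oddExt g) ⁻¹' B)) := by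
      ext x
      constructor
      · rintro ⟨h1, h2⟩
        exact ⟨⟨x, h2⟩, h1, rfl⟩
      · rintro ⟨y, hy, rfl⟩
        exact ⟨hy, y.2⟩
    rw [this]
    exact (MeasurableEmbedding.subtype_coe measurableSet_Ioo).measurableSet_image.2 (hmeas hB)
  have hν : oddLaw g B = volume A := by
    rw [oddLaw, Measure.map_apply_of_aemeasurable (oddExt_aemeasurable hc h0) hB,
      Measure.restrict_apply' measurableSet_Ioo, hA, measure_sdiff_null (hNf.measure_zero _)]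
  have hAmem : ∀ x ∈ A, x ∈ Ioo (0:ℝ) 1 ∧ x ≠ 1 / 2 ∧ x ∉ E ∧ 1 - x ∉ E := by
    rintro x ⟨⟨h1, h2⟩, h3⟩
    simp only [hN, mem_union, mem_singleton_iff, mem_preimage, not_or] at h3
    exact ⟨h2, h3.1.1, h3.1.2, h3.2⟩
  have hcov := lintegral_image_eq_lintegral_abs_deriv_mul hAm
    (fun x hx => (hasDerivAt_oddExt hd (hAmem x hx).1 (hAmem x hx).2.1 (hAmem x hx).2.2.1
      (hAmem x hx).2.2.2).hasDerivWithinAt (s := A)) (hG.injOn.mono hAsub)
    (fun t => ENNReal.ofReal (oddDensity g γ t))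
  have hR : ∫⁻ x in A, ENNReal.ofReal |slopeExt γ x| *
      ENNReal.ofReal (oddDensity g γ (oddExt g x)) = volume A := by
    rw [setLIntegral_congr_fun hAm (g := fun _ => 1), setLIntegral_one]
    intro x hx
    obtain ⟨h1, h2, -, -⟩ := hAmem x hx
    have hp := slopeExt_pos hγ h1 h2
    simp only
    rw [oddDensity_apply hG h1 h2, abs_of_pos hp, ← ENNReal.ofReal_mul hp.le,
      mul_inv_cancel₀ hp.ne', ENNReal.ofReal_one]
  rw [hν, ← hR, ← hcov, withDensity_apply _ hB]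
  -- the density vanishes on `B` outside the image, up to a finite set
  have himg : oddExt g '' A ⊆ B := by
    rintro _ ⟨x, hx, rfl⟩
    exact hx.1.1
  have himgm : MeasurableSet (oddExt g '' A) :=
    hAm.image_of_continuousOn_injOn (hGc.mono hAsub) (hG.injOn.mono hAsub)
  rw [← lintegral_inter_add_sdiff _ B himgm (μ := volume), inter_eq_self_of_subset_right himg]
  have hz : ∫⁻ t in B \ oddExt g '' A, ENNReal.ofReal (oddDensity g γ t) = 0 := by
    have hfin : (oddExt g '' N).Finite := hNf.image _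
    rw [← lintegral_inter_add_sdiff _ _ hfin.measurableSet (μ := volume)]
    have h1 : ∫⁻ t in (B \ oddExt g '' A) ∩ oddExt g '' N,
        ENNReal.ofReal (oddDensity g γ t) = 0 :=
      setLIntegral_measure_zero _ _ (measure_mono_null inter_subset_right (hfin.measure_zero _))
    have h2 : ∫⁻ t in (B \ oddExt g '' A) \ oddExt g '' N,
        ENNReal.ofReal (oddDensity g γ t) = 0 := by
      rw [setLIntegral_congr_fun ((hB.diff himgm).diff hfin.measurableSet) (g := fun _ => 0)]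
      · simp
      rintro t ⟨⟨htB, htA⟩, htN⟩
      simp only
      rw [oddDensity_of_notMem, ENNReal.ofReal_zero]
      rintro ⟨x, hx, hx', rfl⟩
      refine htA ⟨x, ⟨⟨htB, hx⟩, fun hxN => htN ⟨x, hxN, rfl⟩⟩, rfl⟩
    rw [h1, h2, add_zero]
  rw [hz, add_zero]

end Construct

open Construct in
/-- A continuous function on `[1/2, 1)` vanishing at `1/2`, with a positive nondecreasing
derivative off a finite set, is the right half of the quantile function of a symmetric unimodal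
law. -/
theorem exists_uniParent (g γ : ℝ → ℝ) (E : Set ℝ) (hE : E.Finite)
    (hc : ContinuousOn g (Ico (1/2:ℝ) 1)) (h0 : g (1/2) = 0)
    (hL : IntegrableOn (fun x => g x ^ 2) (Ioo (1/2:ℝ) 1))
    (hd : ∀ x ∈ Ioo (1/2:ℝ) 1, x ∉ E → HasDerivAt g (γ x) x)
    (hγ : ∀ x ∈ Ioo (1/2:ℝ) 1, 0 < γ x) (hγm : MonotoneOn γ (Ioo (1/2:ℝ) 1)) :
    ∃ ν : Measure ℝ, UniParent ν ∧ mean ν = 0 ∧
      variance ν = 2 * ∫ x in Ioo (1/2:ℝ) 1, g x ^ 2 ∧
      (∀ x ∈ Ioo (1/2:ℝ) 1, quantile ν x = g x) ∧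
      (∀ x ∈ Ioo (0:ℝ) (1/2), quantile ν x = - g (1 - x)) := by
  have hm := strictMonoOn_of_hasDerivAt_pos hE hc hd hγ
  have hG := oddExt_strictMonoOn hm h0
  have hGc := oddExt_continuousOn hc h0
  refine ⟨oddLaw g, ⟨oddLaw_symParent hc hm h0 hL, oddDensity g γ, oddDensity_nonneg hG hγ,
    oddDensity_measurable h0 hG hGc hγ hγm, oddLaw_withDensity hE hc hm h0 hd hγ, ?_, ?_⟩,
    mean_oddLaw hc h0, variance_oddLaw hc h0 hL, fun x hx => ?_, fun x hx => ?_⟩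
  · rw [mean_oddLaw hc h0]
    exact oddDensity_monotoneOn h0 hG hGc hγ hγm
  · rw [mean_oddLaw hc h0]
    exact oddDensity_antitoneOn h0 hG hGc hγ hγm
  · rw [quantile_oddLaw hc hm h0 ⟨by linarith [hx.1], hx.2⟩, oddExt_of_ge hx.1.le]
  · rw [quantile_oddLaw hc hm h0 ⟨hx.1, by linarith [hx.2]⟩, oddExt_of_lt hx.2]

end Pool.Agent.Lib.MP_d11fee_pr
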