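import Mathlib

/-!
# Mean-variance bounds for k-th records from symmetric parents: definitions

Everything is stated for laws `ν` on the real line; the distribution function is
`t ↦ ν (Iic t)`.
-/

open MeasureTheory Set

namespace Pool.Agent.Lib.MP_d11fee_pr

/-- The density on `(0,1)` of the `n`-th value of the `k`-th records of a uniform parent. -/
noncomputable def f (k n : ℕ) (x : ℝ) : ℝ :=
  (k : ℝ) ^ (n + 1) / (n.factorial : ℝ) * (-Real.log (1 - x)) ^ n * (1 - x) ^ (k - 1)

/-- The distribution function of that value. -/
noncomputable def F (k n : ℕ) (x : ℝ) : ℝ := ∫ t in (0 : ℝ)..x, f k n t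

/-- The antisymmetrized density `s(x) = f(x) - f(1 - x)`. -/
noncomputable def s (k n : ℕ) (x : ℝ) : ℝ := f k n x - f k n (1 - x)

/-- The quantile function `F⁻¹` of a law on the line. -/
noncomputable def quantile (ν : Measure ℝ) (x : ℝ) : ℝ := sInf {t : ℝ | x ≤ ν.real (Iic t)}

/-- The mean of a law. -/
noncomputable def mean (ν : Measure ℝ) : ℝ := ∫ t, t ∂ν

/-- The variance of a law. -/
noncomputable def variance (ν : Measure ℝ) : ℝ := ∫ t, (t - mean ν) ^ 2 ∂ν

/-- The expectation of the `n`-th value of the `k`-th records of an i.i.d. sequence with law `ν`,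
through its uniform density: `∫₀¹ F⁻¹(x) f(x) dx`. -/
noncomputable def recMean (k n : ℕ) (ν : Measure ℝ) : ℝ :=
  ∫ x in (0 : ℝ)..1, quantile ν x * f k n x

/-- The class `S`: probability laws with continuous distribution function and finite positive
variance that are symmetric about their mean. -/
structure SymParent (ν : Measure ℝ) : Prop where
  prob : IsProbabilityMeasure ν
  noAtoms : ∀ t, ν {t} = 0
  sq_int : Integrable (fun t => t ^ 2) ν
  var_pos : 0 < variance ν
  symm : ν.map (fun t => 2 * mean ν - t) = ν

/-- The class `SU`: laws in `S` that have a density which is nondecreasing to the left of the mean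
and nonincreasing to the right of it. -/
structure UniParent (ν : Measure ℝ) : Prop extends SymParent ν where
  unimodal : ∃ p : ℝ → ℝ, (∀ t, 0 ≤ p t) ∧ Measurable p ∧
    ν = volume.withDensity (fun t => ENNReal.ofReal (p t)) ∧
    MonotoneOn p (Iio (mean ν)) ∧ AntitoneOn p (Ioi (mean ν))

end Pool.Agent.Lib.MP_d11fee_pr
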