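import Mathlib
import Pool.Agent.Lib.MP_d11fee_pr.Defs

/-!
# Facts on the quantile function of a symmetric atomless law with finite variance
-/

open MeasureTheory Set Filter Topology

namespace Pool.Agent.Lib.MP_d11fee_pr

section QuantileFacts

variable {ν : Measure ℝ}

private lemma G_mono [IsProbabilityMeasure ν] {a b : ℝ} (hab : a ≤ b) :
    ν.real (Iic a) ≤ ν.real (Iic b) :=
  measureReal_mono (Iic_subset_Iic.mpr hab)

private lemma G_le_one [IsProbabilityMeasure ν] (a : ℝ) : ν.real (Iic a) ≤ 1 :=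
  measureReal_le_one

private lemma G_nonneg (a : ℝ) : 0 ≤ ν.real (Iic a) := measureReal_nonneg

private lemma set_bddBelow [IsProbabilityMeasure ν] {x : ℝ} (hx : 0 < x) :
    BddBelow {t : ℝ | x ≤ ν.real (Iic t)} := by
  have h := (ProbabilityTheory.tendsto_cdf_atBot ν).eventually (gt_mem_nhds hx)
  obtain ⟨a, ha⟩ := h.exists
  rw [ProbabilityTheory.cdf_eq_real] at ha
  refine ⟨a, ?_⟩
  intro t ht
  by_contra hcon
  push Not at hcon
  have h1 : x ≤ ν.real (Iic t) := ht
  have h2 := G_mono (ν := ν) hcon.le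
  linarith

private lemma set_nonempty [IsProbabilityMeasure ν] {x : ℝ} (hx : x < 1) :
    {t : ℝ | x ≤ ν.real (Iic t)}.Nonempty := by
  have h := (ProbabilityTheory.tendsto_cdf_atTop ν).eventually (lt_mem_nhds hx)
  obtain ⟨a, ha⟩ := h.exists
  rw [ProbabilityTheory.cdf_eq_real] at ha
  exact ⟨a, le_of_lt ha⟩

private lemma le_G_quantile [IsProbabilityMeasure ν] {x : ℝ} (hx : x ∈ Ioo (0 : ℝ) 1) :
    x ≤ ν.real (Iic (quantile ν x)) := by
  have hrc : ContinuousWithinAt (ProbabilityTheory.cdf ν) (Ioi (quantile ν x)) (quantile ν x) :=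
    ((ProbabilityTheory.cdf ν).right_continuous (quantile ν x)).mono Ioi_subset_Ici_self
  have h2 : ∀ᶠ t in 𝓝[>] (quantile ν x), x ≤ ProbabilityTheory.cdf ν t := by
    filter_upwards [self_mem_nhdsWithin] with t ht
    rw [ProbabilityTheory.cdf_eq_real]
    obtain ⟨a, ha, hat⟩ := exists_lt_of_csInf_lt (set_nonempty (ν := ν) hx.2) ht
    exact le_trans ha (G_mono hat.le)
  have h3 := ge_of_tendsto hrc h2
  rwa [ProbabilityTheory.cdf_eq_real] at h3

theorem quantile_le_iff {ν : Measure ℝ} (h : SymParent ν) {x t : ℝ} (hx : x ∈ Ioo (0 : ℝ) 1) :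
    quantile ν x ≤ t ↔ x ≤ ν.real (Iic t) := by
  have := h.prob
  constructor
  · intro hq
    exact (le_G_quantile hx).trans (G_mono hq)
  · intro hxt
    exact csInf_le (set_bddBelow hx.1) hxt

theorem quantile_monotoneOn {ν : Measure ℝ} (h : SymParent ν) :
    MonotoneOn (quantile ν) (Ioo 0 1) := by
  have := h.prob
  intro x hx y hy hxy
  rw [quantile_le_iff h hx]
  exact hxy.trans (le_G_quantile hy)

theorem cdf_quantile {ν : Measure ℝ} (h : SymParent ν) {x : ℝ} (hx : x ∈ Ioo (0 : ℝ) 1) :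
    ν.real (Iic (quantile ν x)) = x := by
  have := h.prob
  refine le_antisymm ?_ (le_G_quantile hx)
  set q := quantile ν x with hq
  -- no atom at q
  have h1 : ν {q} = 0 := h.noAtoms q
  rw [← ProbabilityTheory.measure_cdf ν, StieltjesFunction.measure_singleton,
    ENNReal.ofReal_eq_zero] at h1
  have h2 : Function.leftLim (ProbabilityTheory.cdf ν) q ≤ x := by
    have ht := (ProbabilityTheory.monotone_cdf ν).tendsto_leftLim q
    refine le_of_tendsto ht ?_
    filter_upwards [self_mem_nhdsWithin] with t ht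
    have ht' : t < q := ht
    rw [ProbabilityTheory.cdf_eq_real]
    by_contra hcon
    push Not at hcon
    exact absurd ((quantile_le_iff h hx).mpr hcon.le) (not_le.mpr ht')
  rw [ProbabilityTheory.cdf_eq_real] at h1
  linarith

private lemma aemeas_quantile {ν : Measure ℝ} (h : SymParent ν) :
    AEMeasurable (quantile ν) (volume.restrict (Ioo (0 : ℝ) 1)) :=
  aemeasurable_restrict_of_monotoneOn measurableSet_Ioo (quantile_monotoneOn h)

theorem map_quantile {ν : Measure ℝ} (h : SymParent ν) :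
    Measure.map (quantile ν) (volume.restrict (Ioo (0 : ℝ) 1)) = ν := by
  have := h.prob
  have hae := aemeas_quantile h
  have : IsFiniteMeasure (volume.restrict (Ioo (0 : ℝ) 1)) := by
    constructor
    simp
  refine Measure.ext_of_Iic _ _ ?_
  intro t
  rw [Measure.map_apply_of_aemeasurable hae measurableSet_Iic,
    Measure.restrict_apply' measurableSet_Ioo]
  set g := ν.real (Iic t) with hg
  have hset : quantile ν ⁻¹' Iic t ∩ Ioo (0 : ℝ) 1 = Iic g ∩ Ioo 0 1 := by
    ext x
    constructor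
    · rintro ⟨h1, h2⟩
      exact ⟨(quantile_le_iff h h2).mp h1, h2⟩
    · rintro ⟨h1, h2⟩
      exact ⟨(quantile_le_iff h h2).mpr h1, h2⟩
  rw [hset]
  have hν : ν (Iic t) = ENNReal.ofReal g := by
    rw [hg, ofReal_measureReal]
  rw [hν]
  have g0 : 0 ≤ g := G_nonneg t
  have g1 : g ≤ 1 := G_le_one t
  refine le_antisymm ?_ ?_
  · calc volume (Iic g ∩ Ioo 0 1) ≤ volume (Ioc 0 g) := by
          refine measure_mono ?_
          rintro x ⟨h1, h2⟩
          exact ⟨h2.1, h1⟩
      _ = ENNReal.ofReal g := by rw [Real.volume_Ioc, sub_zero]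
  · calc ENNReal.ofReal g = volume (Ioo 0 g) := by rw [Real.volume_Ioo, sub_zero]
      _ ≤ volume (Iic g ∩ Ioo 0 1) := by
          refine measure_mono ?_
          rintro x ⟨h1, h2⟩
          exact ⟨h2.le, h1, lt_of_lt_of_le h2 g1⟩

private lemma G_symm {ν : Measure ℝ} (h : SymParent ν) (t : ℝ) :
    ν.real (Iic (2 * mean ν - t)) = 1 - ν.real (Iic t) := by
  have := h.prob
  have h1 : ν (Iic (2 * mean ν - t)) = ν (Ici t) := by
    have e : (Measure.map (fun t => 2 * mean ν - t) ν) (Iic (2 * mean ν - t)) =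
        ν (Iic (2 * mean ν - t)) := congrArg (fun μ' : Measure ℝ => μ' (Iic (2 * mean ν - t))) h.symm
    rw [← e, Measure.map_apply (by fun_prop) measurableSet_Iic]
    congr 1
    ext u
    simp only [mem_preimage, mem_Iic, mem_Ici]
    constructor <;> intro hu <;> linarith
  have h2 : ν (Ici t) = ν (Ioi t) := by
    rw [← Ioi_union_left]
    refine le_antisymm ?_ (measure_mono subset_union_left)
    calc ν (Ioi t ∪ {t}) ≤ ν (Ioi t) + ν {t} := measure_union_le _ _
      _ = ν (Ioi t) := by rw [h.noAtoms t, add_zero]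
  have h3 : ν.real (Ioi t) = 1 - ν.real (Iic t) := by
    rw [← compl_Iic, probReal_compl_eq_one_sub measurableSet_Iic]
  rw [← h3]
  simp only [measureReal_def, h1, h2]

theorem mean_le_quantile {ν : Measure ℝ} (h : SymParent ν) {x : ℝ} (hx : x ∈ Ioo (1 / 2 : ℝ) 1) :
    mean ν ≤ quantile ν x := by
  have := h.prob
  have hx' : x ∈ Ioo (0 : ℝ) 1 := ⟨by linarith [hx.1], hx.2⟩
  by_contra hcon
  push Not at hcon
  have h1 := G_symm h (mean ν)
  have e : 2 * mean ν - mean ν = mean ν := by ring
  rw [e] at h1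
  have h2 := G_mono (ν := ν) hcon.le
  rw [cdf_quantile h hx'] at h2
  linarith [hx.1]

theorem memLp_quantile {ν : Measure ℝ} (h : SymParent ν) :
    MemLp (quantile ν) 2 (volume.restrict (Ioo (0 : ℝ) 1)) := by
  have := h.prob
  have h1 : MemLp (id : ℝ → ℝ) 2 ν :=
    (memLp_two_iff_integrable_sq aestronglyMeasurable_id).mpr h.sq_int
  have h2 : MemLp (id : ℝ → ℝ) 2 (Measure.map (quantile ν) (volume.restrict (Ioo (0 : ℝ) 1))) := by
    rw [map_quantile h]; exact h1
  exact (memLp_map_measure_iff aestronglyMeasurable_id (aemeas_quantile h)).mp h2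

private lemma mp_reflect (a b : ℝ) :
    MeasurePreserving (fun x : ℝ => 1 - x) (volume.restrict (Ioo (1 - b) (1 - a)))
      (volume.restrict (Ioo a b)) := by
  have h := (Measure.measurePreserving_sub_left (volume : Measure ℝ) 1).restrict_preimage
    (measurableSet_Ioo (a := a) (b := b))
  have e : (fun x : ℝ => 1 - x) ⁻¹' Ioo a b = Ioo (1 - b) (1 - a) := by
    ext x
    simp only [mem_preimage, mem_Ioo]
    constructor
    · rintro ⟨h1, h2⟩; constructor <;> linarith
    · rintro ⟨h1, h2⟩; constructor <;> linarith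
  rwa [e] at h

private lemma emb_reflect : MeasurableEmbedding (fun x : ℝ => 1 - x) :=
  (MeasurableEquiv.subLeft (1 : ℝ)).measurableEmbedding

theorem quantile_symm {ν : Measure ℝ} (h : SymParent ν) :
    ∀ᵐ x ∂(volume.restrict (Ioo (0 : ℝ) 1)), quantile ν x + quantile ν (1 - x) = 2 * mean ν := by
  have := h.prob
  have : IsFiniteMeasure (volume.restrict (Ioo (0 : ℝ) 1)) := by
    constructor
    simp
  have hmp : MeasurePreserving (fun x : ℝ => 1 - x) (volume.restrict (Ioo (0 : ℝ) 1))
      (volume.restrict (Ioo (0 : ℝ) 1)) := by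
    have := mp_reflect 0 1
    simpa using this
  have hint : Integrable (quantile ν) (volume.restrict (Ioo (0 : ℝ) 1)) :=
    (memLp_quantile h).integrable (by norm_num)
  have hint2 : Integrable (fun x => quantile ν (1 - x)) (volume.restrict (Ioo (0 : ℝ) 1)) :=
    (hmp.integrable_comp_emb emb_reflect).mpr hint
  have hI1 : ∫ x in Ioo (0 : ℝ) 1, quantile ν x = mean ν := by
    have := integral_map (aemeas_quantile h) (f := (id : ℝ → ℝ)) aestronglyMeasurable_id
    rw [map_quantile h] at this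
    simpa [mean] using this.symm
  have hI2 : ∫ x in Ioo (0 : ℝ) 1, quantile ν (1 - x) = mean ν := by
    rw [← hI1]
    exact hmp.integral_comp emb_reflect (quantile ν)
  have hnn : 0 ≤ᵐ[volume.restrict (Ioo (0 : ℝ) 1)]
      fun x => 2 * mean ν - quantile ν x - quantile ν (1 - x) := by
    filter_upwards [ae_restrict_mem measurableSet_Ioo] with x hx
    have hx' : 1 - x ∈ Ioo (0 : ℝ) 1 := ⟨by linarith [hx.2], by linarith [hx.1]⟩
    have h1 : quantile ν (1 - x) ≤ 2 * mean ν - quantile ν x := by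
      rw [quantile_le_iff h hx', G_symm h, cdf_quantile h hx]
    simp only [Pi.zero_apply]
    linarith
  have hintc : Integrable (fun _ : ℝ => 2 * mean ν) (volume.restrict (Ioo (0 : ℝ) 1)) :=
    integrable_const _
  have hint3 : Integrable (fun x => 2 * mean ν - quantile ν x - quantile ν (1 - x))
      (volume.restrict (Ioo (0 : ℝ) 1)) := (hintc.sub hint).sub hint2
  have hzero : ∫ x in Ioo (0 : ℝ) 1, (2 * mean ν - quantile ν x - quantile ν (1 - x)) = 0 := by
    have e1 : ∫ x in Ioo (0 : ℝ) 1, (2 * mean ν - quantile ν x - quantile ν (1 - x)) =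
        (∫ x in Ioo (0 : ℝ) 1, (2 * mean ν - quantile ν x)) -
          ∫ x in Ioo (0 : ℝ) 1, quantile ν (1 - x) := integral_sub (hintc.sub hint) hint2
    have e2 : ∫ x in Ioo (0 : ℝ) 1, (2 * mean ν - quantile ν x) =
        (∫ _x in Ioo (0 : ℝ) 1, 2 * mean ν) - ∫ x in Ioo (0 : ℝ) 1, quantile ν x :=
      integral_sub hintc hint
    rw [e1, e2, hI1, hI2]
    simp
    ring
  have := (integral_eq_zero_iff_of_nonneg_ae hnn hint3).mp hzero
  filter_upwards [this] with x hx
  simp only [Pi.zero_apply] at hx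
  linarith

theorem integral_sq_quantile {ν : Measure ℝ} (h : SymParent ν) :
    2 * ∫ x in Ioo (1 / 2 : ℝ) 1, (quantile ν x - mean ν) ^ 2 = variance ν := by
  have := h.prob
  have : IsFiniteMeasure (volume.restrict (Ioo (0 : ℝ) 1)) := by
    constructor
    simp
  have hvar : variance ν = ∫ x in Ioo (0 : ℝ) 1, (quantile ν x - mean ν) ^ 2 := by
    have hm : AEStronglyMeasurable (fun t : ℝ => (t - mean ν) ^ 2)
        (Measure.map (quantile ν) (volume.restrict (Ioo (0 : ℝ) 1))) :=
      (Continuous.aestronglyMeasurable (by fun_prop))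
    have := integral_map (aemeas_quantile h) hm
    rw [map_quantile h] at this
    exact this
  have hL : MemLp (fun x => quantile ν x - mean ν) 2 (volume.restrict (Ioo (0 : ℝ) 1)) :=
    (memLp_quantile h).sub (memLp_const _)
  have hint : IntegrableOn (fun x => (quantile ν x - mean ν) ^ 2) (Ioo (0 : ℝ) 1) :=
    hL.integrable_sq
  -- split
  have hsplit : ∫ x in Ioo (0 : ℝ) 1, (quantile ν x - mean ν) ^ 2 =
      (∫ x in Ioo (0 : ℝ) (1 / 2), (quantile ν x - mean ν) ^ 2) +
        ∫ x in Ioo (1 / 2 : ℝ) 1, (quantile ν x - mean ν) ^ 2 := by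
    have hu : Ioo (0 : ℝ) (1 / 2) ∪ Ico (1 / 2) 1 = Ioo 0 1 :=
      Ioo_union_Ico_eq_Ioo (by norm_num) (by norm_num)
    have hd : Disjoint (Ioo (0 : ℝ) (1 / 2)) (Ico (1 / 2) 1) := by
      rw [Set.disjoint_left]
      intro x hx hx'
      exact absurd hx.2 (not_lt.mpr hx'.1)
    have e := setIntegral_union hd measurableSet_Ico
      (hint.mono_set (by rw [← hu]; exact subset_union_left))
      (hint.mono_set (by rw [← hu]; exact subset_union_right))
    rw [hu] at e
    rw [e, integral_Ico_eq_integral_Ioo]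
  have hmp : MeasurePreserving (fun x : ℝ => 1 - x) (volume.restrict (Ioo (1 / 2 : ℝ) 1))
      (volume.restrict (Ioo (0 : ℝ) (1 / 2))) := by
    have h2 := mp_reflect 0 (1 / 2)
    have e1 : (1 : ℝ) - 1 / 2 = 1 / 2 := by norm_num
    rw [e1, sub_zero] at h2
    exact h2
  have hrefl : ∫ x in Ioo (0 : ℝ) (1 / 2), (quantile ν x - mean ν) ^ 2 =
      ∫ x in Ioo (1 / 2 : ℝ) 1, (quantile ν x - mean ν) ^ 2 := by
    rw [← hmp.integral_comp emb_reflect (fun x => (quantile ν x - mean ν) ^ 2)]
    refine integral_congr_ae ?_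
    have hsub : Ioo (1 / 2 : ℝ) 1 ⊆ Ioo 0 1 := Ioo_subset_Ioo_left (by norm_num)
    have := ae_restrict_of_ae_restrict_of_subset hsub (quantile_symm h)
    filter_upwards [this] with x hx
    have : quantile ν (1 - x) = 2 * mean ν - quantile ν x := by linarith
    rw [this]
    ring
  rw [hvar, hsplit, hrefl]
  ring

end QuantileFacts

end Pool.Agent.Lib.MP_d11fee_pr
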