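import Pool.Agent.Lib.MP_d11fee_pr.Shape3
import Pool.Agent.Lib.MP_d11fee_pr.QuantileFacts

/-!
# Facts on the density `f` and the antisymmetrized density `s`
-/

open Set Real MeasureTheory Filter Topology

namespace Pool.Agent.Lib.MP_d11fee_pr

noncomputable def CC (k n : ℕ) : ℝ := (k : ℝ) ^ (n + 1) / (n.factorial : ℝ)

theorem CC_pos {k n : ℕ} (hk : 1 ≤ k) : 0 < CC k n := by
  have : (0:ℝ) < k := by exact_mod_cast hk
  unfold CC; positivity

theorem f_eq (k n : ℕ) (x : ℝ) : f k n x = CC k n * PP n (k - 1) x := by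
  unfold f CC PP vv; ring

theorem s_eq (k n : ℕ) (x : ℝ) : s k n x = CC k n * SS n (k - 1) x := by
  unfold s SS; rw [f_eq, f_eq]; ring

/-- first derivative of `s` -/
noncomputable def s1 (k n : ℕ) (x : ℝ) : ℝ := CC k n * S1 n (k - 1) x
/-- second derivative of `s` -/
noncomputable def s2 (k n : ℕ) (x : ℝ) : ℝ := CC k n * S2 n (k - 1) x

theorem hasDerivAt_s (k n : ℕ) {x : ℝ} (h0 : 0 < x) (h1 : x < 1) :
    HasDerivAt (s k n) (s1 k n x) x := by
  have : s k n = fun x => CC k n * SS n (k - 1) x := funext (s_eq k n)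
  rw [this]
  exact (hasDerivAt_SS n (k - 1) h0 h1).const_mul _

theorem hasDerivAt_s1 (k n : ℕ) {x : ℝ} (h0 : 0 < x) (h1 : x < 1) :
    HasDerivAt (s1 k n) (s2 k n x) x :=
  (hasDerivAt_S1 n (k - 1) h0 h1).const_mul _

theorem s_half (k n : ℕ) : s k n (1 / 2) = 0 := by
  unfold s
  have : (1:ℝ) - 1 / 2 = 1 / 2 := by norm_num
  rw [this, sub_self]

/-- (F1) -/
theorem s_neg {k n : ℕ} (hk : 2 ≤ k) (hn : 1 ≤ n) {x y : ℝ} (hx : 1 / 2 < x) (hxy : x < y)
    (hy : y < 1) (h : s k n x ≤ 0) : s k n y < 0 := by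
  have hC := CC_pos (k := k) (n := n) (by omega)
  rw [s_eq] at h ⊢
  have h1 : SS n (k - 1) x ≤ 0 := by
    by_contra hc
    push Not at hc
    have := mul_pos hC hc
    linarith
  have h2 : TT n (k - 1) x ≤ 0 := by
    by_contra hc
    push Not at hc
    have := (SS_pos_iff n (k - 1) (by linarith) (by linarith)).2 hc
    linarith
  have h3 := (SS_neg_iff n (k - 1) (by linarith) hy).2 (TT_neg n (k - 1) hn hx hxy hy h2)
  exact mul_neg_of_pos_of_neg hC h3

theorem TT_pos_of_s {k n : ℕ} (hk : 2 ≤ k) {y : ℝ} (hx : 1 / 2 < y)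
    (hy : y < 1) (h : 0 < s k n y) : 0 < TT n (k - 1) y := by
  have hC := CC_pos (k := k) (n := n) (by omega)
  rw [s_eq] at h
  exact (SS_pos_iff n (k - 1) (by linarith) hy).1 ((mul_pos_iff_of_pos_left hC).1 h)

/-- (F2) -/
theorem s1_neg {k n : ℕ} (hk : 2 ≤ k) (hn : 1 ≤ n) {x y : ℝ} (hx : 1 / 2 < x) (hxy : x < y)
    (hy : y < 1) (hs : 0 < s k n y) (h : s1 k n x ≤ 0) : s1 k n y < 0 := by
  have hC := CC_pos (k := k) (n := n) (by omega)
  have h1 : S1 n (k - 1) x ≤ 0 := by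
    by_contra hc
    push Not at hc
    have := mul_pos hC hc
    unfold s1 at h
    linarith
  exact mul_neg_of_pos_of_neg hC (S1_neg n (k - 1) hn (by omega) hx hxy hy
    (TT_pos_of_s hk (by linarith) hy hs) h1)

/-- (F3) -/
theorem s2_neg {k n : ℕ} (hk : 2 ≤ k) (hn : 1 ≤ n) {x y : ℝ} (hx : 1 / 2 < x) (hxy : x < y)
    (hy : y < 1) (hs : 0 < s k n y) (hs1 : 0 < s1 k n y) (h : s2 k n x ≤ 0) : s2 k n y < 0 := by
  have hC := CC_pos (k := k) (n := n) (by omega)
  have h1 : S2 n (k - 1) x ≤ 0 := by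
    by_contra hc
    push Not at hc
    have := mul_pos hC hc
    unfold s2 at h
    linarith
  exact mul_neg_of_pos_of_neg hC (S2_neg n (k - 1) hn (by omega) hx hxy hy
    (TT_pos_of_s hk (by linarith) hy hs) ((mul_pos_iff_of_pos_left hC).1 hs1) h1)

/-- continuity of `u^k (-log u)^j` on `[0,∞)` for `k ≥ 1` -/
theorem continuousOn_pow_log (k j : ℕ) (hk : 1 ≤ k) :
    ContinuousOn (fun u : ℝ => u ^ k * (-Real.log u) ^ j) (Ici 0) := by
  intro u hu
  rcases (mem_Ici.1 hu).eq_or_lt with rfl | hu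
  · have hlim : Tendsto (fun u : ℝ => u ^ k * (-Real.log u) ^ j) (𝓝[>] 0) (𝓝 0) := by
      have h1 := isLittleO_abs_log_rpow_rpow_nhdsGT_zero (s := -(k:ℝ)) (j:ℝ)
        (by have : (0:ℝ) < k := by exact_mod_cast hk
            linarith)
      have h2 := h1.tendsto_div_nhds_zero
      rw [tendsto_zero_iff_norm_tendsto_zero]
      refine h2.congr' ?_
      filter_upwards [self_mem_nhdsWithin] with x hx
      have hx0 : (0:ℝ) < x := hx
      rw [norm_mul, norm_pow, norm_pow, Real.norm_eq_abs, Real.norm_eq_abs, abs_of_pos hx0, abs_neg,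
        Real.rpow_natCast, Real.rpow_neg hx0.le, Real.rpow_natCast]
      field_simp
    have h0 : ((0:ℝ) ^ k * (-Real.log 0) ^ j) = 0 := by
      rw [zero_pow (by omega), zero_mul]
    rw [← Ioi_insert]
    rw [continuousWithinAt_insert_self]
    show Tendsto _ _ (𝓝 ((0:ℝ) ^ k * (-Real.log 0) ^ j))
    rw [h0]
    exact hlim
  · apply ContinuousAt.continuousWithinAt
    have : u ≠ 0 := hu.ne'
    fun_prop (disch := assumption)

/-- minus an antiderivative of `f` -/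
noncomputable def GG (k n : ℕ) (x : ℝ) : ℝ :=
  ∑ j ∈ Finset.range (n + 1), (k : ℝ) ^ j / (j.factorial : ℝ) * ((1 - x) ^ k * (-Real.log (1 - x)) ^ j)

theorem continuousOn_GG {k : ℕ} (n : ℕ) (hk : 1 ≤ k) : ContinuousOn (GG k n) (Icc 0 1) := by
  unfold GG
  apply continuousOn_finsetSum
  intro j _
  apply ContinuousOn.mul continuousOn_const
  have h := continuousOn_pow_log k j hk
  have h2 : ContinuousOn (fun x : ℝ => 1 - x) (Icc 0 1) := by fun_prop
  exact h.comp h2 (fun x hx => by simp only [mem_Ici]; linarith [hx.2])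

theorem hasDerivAt_GG {k : ℕ} (n : ℕ) (hk : 1 ≤ k) {x : ℝ} (h0 : 0 < x) (h1 : x < 1) :
    HasDerivAt (GG k n) (-f k n x) x := by
  have hx : 0 < 1 - x := by linarith
  have hv := vv_pos h0 h1
  have b0 : HasDerivAt (fun y : ℝ => 1 - y) (-1) x := (hasDerivAt_id x).const_sub 1
  have term : ∀ j : ℕ, HasDerivAt (fun y : ℝ => (k : ℝ) ^ j / (j.factorial : ℝ) *
      ((1 - y) ^ k * (-Real.log (1 - y)) ^ j))
      ((k : ℝ) ^ j / (j.factorial : ℝ) * ((k * (1 - x) ^ (k - 1) * (-1)) * (vv x) ^ j +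
        (1 - x) ^ k * (j * (vv x) ^ (j - 1) * (1 / (1 - x))))) x := by
    intro j
    exact ((b0.pow k).mul ((hasDerivAt_vv h1).pow j)).const_mul _
  induction n with
  | zero =>
    have h := term 0
    have e : GG k 0 = fun y : ℝ => (k : ℝ) ^ 0 / ((0:ℕ).factorial : ℝ) *
      ((1 - y) ^ k * (-Real.log (1 - y)) ^ 0) := by
      funext y; unfold GG; simp
    rw [e]
    refine h.congr_deriv ?_
    unfold f
    simp
  | succ n ih =>
    have e : GG k (n + 1) = fun y => GG k n y + (k : ℝ) ^ (n + 1) / ((n + 1).factorial : ℝ) *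
      ((1 - y) ^ k * (-Real.log (1 - y)) ^ (n + 1)) := by
      funext y; unfold GG; rw [Finset.sum_range_succ]
    rw [e]
    refine (ih.add (term (n + 1))).congr_deriv ?_
    obtain ⟨l, rfl⟩ : ∃ l, k = l + 1 := ⟨k - 1, by omega⟩
    unfold f
    rw [show -Real.log (1 - x) = vv x from rfl]
    simp only [Nat.add_sub_cancel, Nat.factorial_succ]
    have hf : ((n.factorial : ℕ) : ℝ) ≠ 0 := by exact_mod_cast n.factorial_ne_zero
    push_cast
    field_simp
    ring

theorem f_nonneg {k : ℕ} (n : ℕ) {x : ℝ} (h0 : 0 ≤ x) (h1 : x ≤ 1) : 0 ≤ f k n x := by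
  unfold f
  have : 0 ≤ -Real.log (1 - x) := by
    have := Real.log_nonpos (x := 1 - x) (by linarith) (by linarith)
    linarith
  have : 0 ≤ 1 - x := by linarith
  positivity

theorem integrableOn_f {k : ℕ} (n : ℕ) (hk : 1 ≤ k) : IntegrableOn (f k n) (Ioc 0 1) := by
  have h := intervalIntegral.integrableOn_deriv_of_nonneg (a := (0:ℝ)) (b := 1)
    (g := fun x => -GG k n x) (g' := f k n) (continuousOn_GG n hk).neg
    (fun x hx => by
      have := (hasDerivAt_GG n hk hx.1 hx.2).neg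
      rwa [neg_neg] at this)
    (fun x hx => f_nonneg n hx.1.le hx.2.le)
  exact h

theorem integral_f {k : ℕ} (n : ℕ) (hk : 1 ≤ k) {a b : ℝ} (ha : 0 ≤ a) (hab : a ≤ b) (hb : b ≤ 1) :
    ∫ x in a..b, f k n x = GG k n a - GG k n b := by
  have h := intervalIntegral.integral_eq_sub_of_hasDerivAt_of_le hab
    (f := fun x => -GG k n x) (f' := f k n)
    ((continuousOn_GG n hk).neg.mono (Icc_subset_Icc ha hb))
    (fun x hx => by
      have := (hasDerivAt_GG n hk (lt_of_le_of_lt ha hx.1) (lt_of_lt_of_le hx.2 hb)).neg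
      rwa [neg_neg] at this)
    ((intervalIntegrable_iff_integrableOn_Ioc_of_le hab).2
      ((integrableOn_f n hk).mono_set (Ioc_subset_Ioc ha hb)))
  rw [h]; ring

theorem GG_zero (k n : ℕ) : GG k n 0 = 1 := by
  unfold GG
  rw [Finset.sum_range_succ']
  simp

theorem GG_one {k : ℕ} (n : ℕ) (hk : 1 ≤ k) : GG k n 1 = 0 := by
  unfold GG
  apply Finset.sum_eq_zero
  intro j _
  rw [sub_self, zero_pow (by omega)]; ring

theorem integral_f_one {k : ℕ} (n : ℕ) (hk : 1 ≤ k) : ∫ x in (0:ℝ)..1, f k n x = 1 := by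
  rw [integral_f n hk le_rfl zero_le_one le_rfl, GG_zero, GG_one n hk]; ring

theorem one_sub_mul_f {k : ℕ} (n : ℕ) (hk : 1 ≤ k) (x : ℝ) :
    (1 - x) * f k n x = ((k:ℝ) / (k + 1)) ^ (n + 1) * f (k + 1) n x := by
  obtain ⟨l, rfl⟩ : ∃ l, k = l + 1 := ⟨k - 1, by omega⟩
  unfold f
  simp only [Nat.add_sub_cancel]
  have : ((l:ℝ) + 1 + 1) ≠ 0 := by positivity
  push_cast
  rw [div_pow]
  field_simp
  ring

theorem integral_one_sub_mul_f {k : ℕ} (n : ℕ) (hk : 1 ≤ k) :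
    ∫ x in (0:ℝ)..1, (1 - x) * f k n x = ((k:ℝ) / (k + 1)) ^ (n + 1) := by
  have : (fun x : ℝ => (1 - x) * f k n x) = fun x => ((k:ℝ) / (k + 1)) ^ (n + 1) * f (k + 1) n x :=
    funext (one_sub_mul_f n hk)
  rw [this, intervalIntegral.integral_const_mul, integral_f_one n (by omega), mul_one]

theorem f_sq {k : ℕ} (n : ℕ) (hk : 1 ≤ k) (x : ℝ) :
    f k n x ^ 2 = (k:ℝ) * ((2 * n).choose n) * ((k:ℝ) / (2 * k - 1)) ^ (2 * n + 1) *
      f (2 * k - 1) (2 * n) x := by
  obtain ⟨l, rfl⟩ : ∃ l, k = l + 1 := ⟨k - 1, by omega⟩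
  have e1 : 2 * (l + 1) - 1 = 2 * l + 1 := by omega
  have hc : (((2 * n).choose n : ℕ) : ℝ) = ((2 * n).factorial : ℝ) / (n.factorial * n.factorial) := by
    rw [Nat.cast_choose ℝ (by omega : n ≤ 2 * n)]
    congr 3
    rw [show 2 * n - n = n by omega]
  rw [hc]
  unfold f
  rw [e1]
  simp only [Nat.add_sub_cancel]
  push_cast
  have h1 : ((2:ℝ) * (l + 1) - 1) = 2 * l + 1 := by ring
  rw [h1]
  have h2 : (0:ℝ) < 2 * l + 1 := by positivity
  have hf : ((n.factorial : ℕ) : ℝ) ≠ 0 := by exact_mod_cast n.factorial_ne_zero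
  have hf2 : (((2 * n).factorial : ℕ) : ℝ) ≠ 0 := by exact_mod_cast (2 * n).factorial_ne_zero
  rw [div_pow]
  field_simp
  ring

end Pool.Agent.Lib.MP_d11fee_pr
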