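import Pool.Agent.Lib.MP_d11fee_pr.Reduce

/-!
# The peak of `s`
-/

open Set Real MeasureTheory Filter Topology

namespace Pool.Agent.Lib.MP_d11fee_pr

theorem continuousOn_f {k : ℕ} (n : ℕ) (hk : 2 ≤ k) : ContinuousOn (f k n) (Icc 0 1) := by
  have h := continuousOn_pow_log (k - 1) n (by omega)
  have h2 : ContinuousOn (fun x : ℝ => 1 - x) (Icc 0 1) := by fun_prop
  have h3 : ContinuousOn (fun x : ℝ => (1 - x) ^ (k - 1) * (-Real.log (1 - x)) ^ n) (Icc 0 1) :=
    h.comp h2 (fun x hx => by simp only [mem_Ici]; linarith [hx.2])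
  have h4 := h3.const_smul (CC k n)
  refine h4.congr (fun x _ => ?_)
  show f k n x = CC k n * ((1 - x) ^ (k - 1) * (-Real.log (1 - x)) ^ n)
  unfold f CC; ring

theorem continuousOn_s {k : ℕ} (n : ℕ) (hk : 2 ≤ k) : ContinuousOn (s k n) (Icc 0 1) := by
  unfold s
  apply (continuousOn_f n hk).sub
  refine (continuousOn_f n hk).comp (by fun_prop) (fun x hx => ?_)
  exact ⟨by linarith [hx.2], by linarith [hx.1]⟩

theorem s_one {k n : ℕ} (hk : 2 ≤ k) (hn : 1 ≤ n) : s k n 1 = 0 := by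
  unfold s f
  have h1 : k - 1 ≠ 0 := by omega
  have h2 : n ≠ 0 := by omega
  simp [h1, h2]

theorem s_nonneg_of_exists {k n : ℕ} (hk : 2 ≤ k) (hn : 1 ≤ n) {x y : ℝ} (hx : 1 / 2 < x)
    (hxy : x ≤ y) (hy : y < 1) (h : 0 < s k n y) : 0 < s k n x := by
  rcases hxy.eq_or_lt with rfl | hxy
  · exact h
  · by_contra hc
    push Not at hc
    have := s_neg hk hn hx hxy hy hc
    linarith

theorem exists_peak {k n : ℕ} (hk : 2 ≤ k) (hn : 1 ≤ n) (hpos : ∃ x ∈ Ioo (1/2:ℝ) 1, 0 < s k n x) :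
    ∃ c ∈ Ioo (1/2:ℝ) 1, 0 < s k n c ∧ s1 k n c = 0 ∧ (∀ x ∈ Ioo (1/2) c, 0 < s1 k n x) ∧
      (∀ x y, c ≤ x → x < y → y < 1 → s k n y < max (s k n x) 0) ∧
      StrictMonoOn (s k n) (Icc (1/2) c) := by
  obtain ⟨x0, hx0, hsx0⟩ := hpos
  have hcont := continuousOn_s n hk
  have hcont2 : ContinuousOn (s k n) (Icc (1/2) 1) :=
    hcont.mono (Icc_subset_Icc (by norm_num) le_rfl)
  obtain ⟨c, hc, hmax⟩ := isCompact_Icc.exists_isMaxOn (nonempty_Icc.2 (by norm_num : (1/2:ℝ) ≤ 1)) hcont2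
  have hmax' : ∀ x ∈ Icc (1/2:ℝ) 1, s k n x ≤ s k n c := fun x hx => hmax hx
  have hsc : 0 < s k n c := lt_of_lt_of_le hsx0 (hmax' x0 ⟨hx0.1.le, hx0.2.le⟩)
  have hc1 : 1 / 2 < c := by
    rcases hc.1.eq_or_lt with h | h
    · rw [← h, s_half] at hsc; linarith
    · exact h
  have hc2 : c < 1 := by
    rcases hc.2.eq_or_lt with h | h
    · rw [h, s_one hk hn] at hsc; linarith
    · exact h
  have hder : ∀ x, 1/2 < x → x < 1 → HasDerivAt (s k n) (s1 k n x) x := fun x h1 h2 =>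
    hasDerivAt_s k n (by linarith) h2
  have hs1c : s1 k n c = 0 := by
    have hloc : IsLocalMax (s k n) c := by
      filter_upwards [Ioo_mem_nhds hc1 hc2] with y hy
      exact hmax' y ⟨hy.1.le, hy.2.le⟩
    exact hloc.hasDerivAt_eq_zero (hder c hc1 hc2)
  have hs1pos : ∀ x ∈ Ioo (1/2) c, 0 < s1 k n x := by
    intro x hx
    by_contra hcon
    push Not at hcon
    have := s1_neg hk hn hx.1 hx.2 hc2 hsc hcon
    linarith
  refine ⟨c, ⟨hc1, hc2⟩, hsc, hs1c, hs1pos, ?_, ?_⟩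
  · intro x y hx hxy hy
    rcases le_or_gt (s k n x) 0 with h | h
    · have : s k n y < 0 := s_neg hk hn (by linarith) hxy hy h
      exact lt_of_lt_of_le this (le_max_right _ _)
    · rcases le_or_gt (s k n y) 0 with h' | h'
      · exact lt_of_le_of_lt h' (lt_of_lt_of_le h (le_max_left _ _))
      · refine lt_of_lt_of_le ?_ (le_max_left _ _)
        have hanti : StrictAntiOn (s k n) (Icc x y) := by
          apply strictAntiOn_of_deriv_neg (convex_Icc _ _)
          · exact hcont.mono (Icc_subset_Icc (by linarith) hy.le)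
          · intro z hz
            rw [interior_Icc] at hz
            rw [(hder z (by linarith [hz.1]) (by linarith [hz.2])).deriv]
            have hz' : 0 < s k n z := s_nonneg_of_exists hk hn (by linarith [hz.1]) hz.2.le hy h'
            exact s1_neg hk hn hc1 (by linarith [hz.1]) (by linarith [hz.2]) hz' hs1c.le
        exact hanti (left_mem_Icc.2 hxy.le) (right_mem_Icc.2 hxy.le) hxy
  · apply strictMonoOn_of_deriv_pos (convex_Icc _ _)
    · exact hcont.mono (Icc_subset_Icc (by norm_num) hc2.le)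
    · intro z hz
      rw [interior_Icc] at hz
      rw [(hder z hz.1 (by linarith [hz.2])).deriv]
      exact hs1pos z hz

/-- Monomial laws: the ratio can be made arbitrarily close to a nonnegative number. -/
theorem exists_uni_ratio_ge {k n : ℕ} (hk : 2 ≤ k) (_hn : 1 ≤ n) {ε : ℝ} (hε : 0 < ε) :
    ∃ ν : Measure ℝ, UniParent ν ∧ -ε < ratio k n ν := by
  -- bound on `s`
  obtain ⟨K, hK⟩ : ∃ K : ℝ, ∀ x ∈ Icc (1/2:ℝ) 1, |s k n x| ≤ K := by
    have hc : ContinuousOn (fun x => |s k n x|) (Icc (1/2) 1) :=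
      ((continuousOn_s n hk).mono (Icc_subset_Icc (by norm_num) le_rfl)).abs
    obtain ⟨c, hc, hmax⟩ := isCompact_Icc.exists_isMaxOn
      (nonempty_Icc.2 (by norm_num : (1/2:ℝ) ≤ 1)) hc
    exact ⟨_, fun x hx => hmax hx⟩
  have hK0 : 0 ≤ K := (abs_nonneg _).trans (hK 1 (by constructor <;> norm_num))
  -- choose `j`
  obtain ⟨j, hj⟩ := exists_nat_gt ((K / ε) ^ 2)
  let g : ℝ → ℝ := fun x => (2 * x - 1) ^ (2 * j + 1)
  have hgd : ∀ x, HasDerivAt g (((2 * j + 1 : ℕ) : ℝ) * (2 * x - 1) ^ (2 * j) * 2) x := by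
    intro x
    have h0 : HasDerivAt (fun x : ℝ => 2 * x - 1) 2 x := by
      simpa using ((hasDerivAt_id x).const_mul 2).sub_const 1
    exact h0.pow (2 * j + 1)
  have hgc : Continuous g := by fun_prop
  have hint : ∀ l : ℕ, ∫ x in Ioo (1/2:ℝ) 1, (2 * x - 1) ^ l = 1 / (2 * (l + 1)) := by
    intro l
    rw [← integral_Ioc_eq_integral_Ioo, ← intervalIntegral.integral_of_le (by norm_num)]
    have hd : ∀ x ∈ uIcc (1/2:ℝ) 1, HasDerivAt (fun x : ℝ => (2 * x - 1) ^ (l + 1) / (2 * (l + 1)))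
        ((2 * x - 1) ^ l) x := by
      intro x _
      have h0 : HasDerivAt (fun x : ℝ => 2 * x - 1) 2 x := by
        simpa using ((hasDerivAt_id x).const_mul 2).sub_const 1
      have h1 := (h0.pow (l + 1)).div_const (2 * ((l:ℝ) + 1))
      refine HasDerivAt.congr_deriv h1 ?_
      simp only [Nat.add_sub_cancel]
      push_cast
      have : (l:ℝ) + 1 ≠ 0 := by positivity
      field_simp
    rw [intervalIntegral.integral_eq_sub_of_hasDerivAt hd
      (Continuous.intervalIntegrable (by fun_prop) _ _)]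
    norm_num
  obtain ⟨ν, hν, hm, hv, hq, -⟩ := exists_uniParent g
    (fun x => ((2 * j + 1 : ℕ) : ℝ) * (2 * x - 1) ^ (2 * j) * 2) ∅ finite_empty
    hgc.continuousOn (by simp [g]) ((Continuous.integrableOn_Icc (by fun_prop)).mono_set Ioo_subset_Icc_self)
    (fun x _ _ => hgd x)
    (fun x hx => by
      have : 0 < 2 * x - 1 := by linarith [hx.1]
      positivity)
    (fun x hx y hy hxy => by
      have : 0 < 2 * x - 1 := by linarith [hx.1]
      simp only
      gcongr)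
  refine ⟨ν, hν, ?_⟩
  rw [ratio_eq n (by omega) hν.toSymParent hm hv hq]
  have e1 : ∫ x in Ioo (1/2:ℝ) 1, g x ^ 2 = 1 / (2 * (4 * j + 3)) := by
    have := hint (2 * (2 * j + 1))
    have e : ∀ x, g x ^ 2 = (2 * x - 1) ^ (2 * (2 * j + 1)) := by
      intro x; simp only [g]; rw [← pow_mul]; congr 1; ring
    simp_rw [e]
    rw [this]
    push_cast
    congr 1; ring
  have e2 : |∫ x in Ioo (1/2:ℝ) 1, g x * s k n x| ≤ K * (1 / (2 * (2 * j + 1 + 1))) := by
    have h1 : |∫ x in Ioo (1/2:ℝ) 1, g x * s k n x| ≤ ∫ x in Ioo (1/2:ℝ) 1, K * (2 * x - 1) ^ (2 * j + 1) := by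
      rw [← Real.norm_eq_abs]
      apply norm_integral_le_of_norm_le
      · exact ((Continuous.integrableOn_Icc (by fun_prop)).mono_set Ioo_subset_Icc_self)
      · filter_upwards [ae_restrict_mem measurableSet_Ioo] with x hx
        rw [Real.norm_eq_abs, abs_mul]
        have h2 : |g x| = (2 * x - 1) ^ (2 * j + 1) := by
          apply abs_of_nonneg
          have : 0 ≤ 2 * x - 1 := by linarith [hx.1]
          positivity
        rw [h2, mul_comm]
        apply mul_le_mul_of_nonneg_right (hK x ⟨hx.1.le, hx.2.le⟩)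
        have : 0 ≤ 2 * x - 1 := by linarith [hx.1]
        positivity
    rw [integral_const_mul, hint] at h1
    push_cast at h1
    exact h1
  rw [e1]
  have hj0 : (0:ℝ) ≤ j := Nat.cast_nonneg j
  have e3 : (2:ℝ) * (1 / (2 * (4 * j + 3))) = 1 / (4 * j + 3) := by field_simp
  rw [e3]
  have hsq : 0 < Real.sqrt (1 / (4 * (j:ℝ) + 3)) := Real.sqrt_pos.2 (by positivity)
  rw [lt_div_iff₀ hsq]
  have h5 := (abs_le.1 e2).1
  -- `K/(4(j+1)) < ε / sqrt(4j+3)`
  have h6 : K * (1 / (2 * (2 * (j:ℝ) + 1 + 1))) < ε * Real.sqrt (1 / (4 * (j:ℝ) + 3)) := by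
    have h7 : K ^ 2 < ε ^ 2 * j := by
      have := mul_lt_mul_of_pos_left hj (by positivity : 0 < ε ^ 2)
      rw [div_pow] at this
      field_simp at this
      linarith
    have h8 : K * (1 / (2 * (2 * (j:ℝ) + 1 + 1))) = Real.sqrt ((K / (4 * (j + 1))) ^ 2) := by
      rw [Real.sqrt_sq (by positivity)]; field_simp; ring
    have h9 : ε * Real.sqrt (1 / (4 * (j:ℝ) + 3)) = Real.sqrt (ε ^ 2 * (1 / (4 * j + 3))) := by
      rw [Real.sqrt_mul (by positivity), Real.sqrt_sq hε.le]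
    rw [h8, h9]
    apply Real.sqrt_lt_sqrt (by positivity)
    rw [div_pow, div_lt_iff₀ (by positivity)]
    have h10 : ε ^ 2 * (1 / (4 * (j:ℝ) + 3)) * (4 * (j + 1)) ^ 2 =
      ε ^ 2 * ((4 * (j + 1)) ^ 2 / (4 * j + 3)) := by ring
    rw [h10]
    have h11 : (j:ℝ) ≤ (4 * (j + 1)) ^ 2 / (4 * j + 3) := by
      rw [le_div_iff₀ (by positivity)]; nlinarith
    nlinarith [sq_nonneg ε]
  linarith

end Pool.Agent.Lib.MP_d11fee_pr
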