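import Mathlib
import Pool.Agent.Lib.MP_d11fee_pr.Defs

/-!
# The quantile function of a symmetric unimodal law is convex on `[1/2, 1)`
-/

open MeasureTheory Set Filter Topology

namespace Pool.Agent.Lib.MP_d11fee_pr

namespace UQ

variable {ν : Measure ℝ}

theorem mono_G (h : SymParent ν) : Monotone (fun t => ν.real (Iic t)) := by
  have := h.prob
  intro a b hab
  exact measureReal_mono (Iic_subset_Iic.2 hab)

theorem continuous_G (h : SymParent ν) : Continuous (fun t => ν.real (Iic t)) := by
  have := h.prob
  have hfun : (fun t => ν.real (Iic t)) = (ProbabilityTheory.cdf ν : ℝ → ℝ) := by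
    funext t
    exact (ProbabilityTheory.cdf_eq_real ν t).symm
  rw [hfun, continuous_iff_continuousAt]
  intro x
  rw [(ProbabilityTheory.monotone_cdf ν).continuousAt_iff_leftLim_eq_rightLim]
  have h1 : Function.rightLim (ProbabilityTheory.cdf ν) x = ProbabilityTheory.cdf ν x :=
    StieltjesFunction.rightLim_eq _ x
  have h2 : (ProbabilityTheory.cdf ν).measure {x} = 0 := by
    rw [ProbabilityTheory.measure_cdf]
    exact h.noAtoms x
  rw [StieltjesFunction.measure_singleton, ENNReal.ofReal_eq_zero] at h2
  have h3 : Function.leftLim (ProbabilityTheory.cdf ν) x ≤ ProbabilityTheory.cdf ν x :=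
    (ProbabilityTheory.monotone_cdf ν).leftLim_le le_rfl
  rw [h1]
  linarith

theorem tendsto_bot (h : SymParent ν) : Tendsto (fun t => ν.real (Iic t)) atBot (𝓝 0) := by
  have := h.prob
  have := ProbabilityTheory.tendsto_cdf_atBot ν
  refine this.congr fun t => ProbabilityTheory.cdf_eq_real ν t

theorem tendsto_top (h : SymParent ν) : Tendsto (fun t => ν.real (Iic t)) atTop (𝓝 1) := by
  have := h.prob
  have := ProbabilityTheory.tendsto_cdf_atTop ν
  refine this.congr fun t => ProbabilityTheory.cdf_eq_real ν t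

theorem bdd (h : SymParent ν) {x : ℝ} (hx : 0 < x) : BddBelow {t : ℝ | x ≤ ν.real (Iic t)} := by
  obtain ⟨a, ha⟩ := ((tendsto_bot h).eventually (gt_mem_nhds hx)).exists
  refine ⟨a, fun t ht => ?_⟩
  by_contra hlt
  have := mono_G h (not_le.1 hlt).le
  simp only [mem_ofPred_eq] at ht this
  linarith

theorem exists_G_eq (h : SymParent ν) {x : ℝ} (hx : x ∈ Ioo (0:ℝ) 1) :
    ∃ t, ν.real (Iic t) = x := by
  obtain ⟨a, ha⟩ := ((tendsto_bot h).eventually (gt_mem_nhds hx.1)).exists
  obtain ⟨b, hb⟩ := ((tendsto_top h).eventually (lt_mem_nhds hx.2)).exists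
  exact mem_range_of_exists_le_of_exists_ge (continuous_G h) ⟨a, ha.le⟩ ⟨b, hb.le⟩

theorem G_quantile (h : SymParent ν) {x : ℝ} (hx : x ∈ Ioo (0:ℝ) 1) :
    ν.real (Iic (quantile ν x)) = x := by
  obtain ⟨t₀, ht₀⟩ := exists_G_eq h hx
  have hcl : IsClosed {t : ℝ | x ≤ ν.real (Iic t)} :=
    isClosed_le continuous_const (continuous_G h)
  have hmem : quantile ν x ∈ {t : ℝ | x ≤ ν.real (Iic t)} :=
    hcl.csInf_mem ⟨t₀, ht₀.ge⟩ (bdd h hx.1)
  have hle : quantile ν x ≤ t₀ := csInf_le (bdd h hx.1) ht₀.ge
  have := mono_G h hle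
  simp only [mem_ofPred_eq] at hmem this
  linarith

theorem G_mean (h : SymParent ν) : ν.real (Iic (mean ν)) = 1 / 2 := by
  have := h.prob
  have h1 : ν (Iic (mean ν)) = ν (Ici (mean ν)) := by
    have h0 := congrArg (fun μ : Measure ℝ => μ (Iic (mean ν))) h.symm
    rw [Measure.map_apply (by fun_prop) measurableSet_Iic] at h0
    rw [← h0]
    congr 1
    ext t
    simp only [mem_preimage, mem_Iic, mem_Ici]
    constructor <;> intro _ <;> linarith
  have h2 : ν (Ioi (mean ν)) = ν (Ici (mean ν)) := by
    have : Ici (mean ν) = {mean ν} ∪ Ioi (mean ν) := by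
      rw [union_comm, Ioi_union_left]
    rw [this]
    refine le_antisymm (measure_mono subset_union_right) ?_
    calc ν ({mean ν} ∪ Ioi (mean ν)) ≤ ν {mean ν} + ν (Ioi (mean ν)) := measure_union_le _ _
      _ = ν (Ioi (mean ν)) := by rw [h.noAtoms, zero_add]
  have h3 : ν.real (Iic (mean ν)) + ν.real (Ioi (mean ν)) = 1 := by
    have := measureReal_add_measureReal_compl (μ := ν) (measurableSet_Iic (a := mean ν))
    rw [compl_Iic] at this
    rw [this]
    simp
  have h4 : ν.real (Iic (mean ν)) = ν.real (Ioi (mean ν)) := by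
    simp only [measureReal_def, h1, h2]
  linarith

theorem real_Ioc (h : SymParent ν) {a b : ℝ} (hab : a ≤ b) :
    ν.real (Ioc a b) = ν.real (Iic b) - ν.real (Iic a) := by
  have := h.prob
  have : Ioc a b = Iic b \ Iic a := by
    ext t
    simp [and_comm]
  rw [this, measureReal_sdiff (Iic_subset_Iic.2 hab) measurableSet_Iic]

end UQ

open UQ in
theorem uni_quantile {ν : Measure ℝ} (h : UniParent ν) :
    quantile ν (1/2) = mean ν ∧ ConvexOn ℝ (Ico (1/2:ℝ) 1) (quantile ν) := by
  have hs : SymParent ν := h.toSymParent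
  have := hs.prob
  obtain ⟨p, hp0, hpm, hpν, hpmono, hpanti⟩ := h.unimodal
  have hq : quantile ν (1/2) = mean ν := by
    apply le_antisymm
    · exact csInf_le (bdd hs (by norm_num)) (G_mean hs).ge
    · refine le_csInf ⟨mean ν, (G_mean hs).ge⟩ fun t ht => ?_
      by_contra hlt
      push Not at hlt
      simp only [mem_ofPred_eq] at ht
      -- then `ν (Ioc t mean) = 0`
      have h1 : ν.real (Ioc t (mean ν)) = 0 := by
        have h2 := real_Ioc hs hlt.le
        have h3 : (0:ℝ) ≤ ν.real (Ioc t (mean ν)) := measureReal_nonneg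
        rw [G_mean hs] at h2
        linarith
      have h1' : ν (Ioc t (mean ν)) = 0 := by
        rwa [measureReal_eq_zero_iff] at h1
      have h4 : ∀ r < mean ν, p r = 0 := by
        intro r hr
        have hne : (volume : Measure ℝ) (Ioo (max r t) (mean ν)) ≠ 0 := by
          rw [Real.volume_Ioo]
          simp only [ne_eq, ENNReal.ofReal_eq_zero, not_le, sub_pos]
          exact max_lt hr hlt
        have h5 : ∀ᵐ u ∂(volume.restrict (Ioc t (mean ν))), ENNReal.ofReal (p u) = 0 := by
          have h6 : ∫⁻ u in Ioc t (mean ν), ENNReal.ofReal (p u) = 0 := by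
            rw [← withDensity_apply _ measurableSet_Ioc, ← hpν]
            exact h1'
          rw [lintegral_eq_zero_iff (hpm.ennreal_ofReal)] at h6
          exact h6
        have h7 : ∃ u ∈ Ioo (max r t) (mean ν), p u = 0 := by
          by_contra hcon
          push Not at hcon
          have h8 : Ioo (max r t) (mean ν) ⊆ {u | ¬ (u ∈ Ioc t (mean ν) → ENNReal.ofReal (p u) = 0)} := by
            intro u hu
            simp only [mem_ofPred_eq, Classical.not_imp]
            refine ⟨⟨lt_of_le_of_lt (le_max_right _ _) hu.1, hu.2.le⟩, ?_⟩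
            rw [ENNReal.ofReal_eq_zero, not_le]
            exact lt_of_le_of_ne (hp0 u) (Ne.symm (hcon u hu))
          rw [ae_restrict_iff' measurableSet_Ioc, ae_iff] at h5
          exact hne (measure_mono_null h8 h5)
        obtain ⟨u, hu, hu0⟩ := h7
        have h9 := hpmono (mem_Iio.2 hr) (mem_Iio.2 hu.2)
          ((le_max_left r t).trans hu.1.le)
        exact le_antisymm (by rw [← hu0]; exact h9) (hp0 r)
      have h10 : ν (Iic (mean ν)) = 0 := by
        have h11 : Iic (mean ν) = Iio (mean ν) ∪ {mean ν} := by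
          rw [Iio_union_right]
        rw [h11]
        refine le_antisymm ((measure_union_le _ _).trans ?_) zero_le
        rw [hs.noAtoms, add_zero]
        have h12 : ν (Iio (mean ν)) = ∫⁻ u in Iio (mean ν), ENNReal.ofReal (p u) := by
          rw [← withDensity_apply _ measurableSet_Iio, ← hpν]
        rw [h12]
        refine le_of_eq ?_
        rw [setLIntegral_congr_fun measurableSet_Iio (g := fun _ => 0)]
        · simp
        · intro u hu
          simp [h4 u hu]
      have h13 := G_mean hs
      rw [measureReal_def, h10] at h13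
      norm_num at h13
  refine ⟨hq, ?_⟩
  apply convexOn_of_slope_mono_adjacent (convex_Ico _ _)
  intro x1 x2 x3 hx1 hx3 h12 h23
  have hx1' : x1 ∈ Ioo (0:ℝ) 1 := ⟨by linarith [hx1.1], hx1.2⟩
  have hx2' : x2 ∈ Ioo (0:ℝ) 1 := ⟨by linarith [hx1.1], by linarith [hx3.2]⟩
  have hx3' : x3 ∈ Ioo (0:ℝ) 1 := ⟨by linarith [hx1.1], hx3.2⟩
  have g1 := G_quantile hs hx1'
  have g2 := G_quantile hs hx2'
  have g3 := G_quantile hs hx3'
  have t12 : quantile ν x1 < quantile ν x2 := by
    by_contra hc
    have := mono_G hs (not_lt.1 hc)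
    simp only at this
    linarith
  have t23 : quantile ν x2 < quantile ν x3 := by
    by_contra hc
    have := mono_G hs (not_lt.1 hc)
    simp only at this
    linarith
  have m1 : mean ν ≤ quantile ν x1 := by
    rw [← hq]
    rcases hx1.1.eq_or_lt with h0 | h0
    · rw [h0]
    · by_contra hc
      have := mono_G hs (not_le.1 hc).le
      simp only at this
      rw [g1, G_quantile hs (by constructor <;> norm_num)] at this
      linarith
  have m2 : mean ν < quantile ν x2 := lt_of_le_of_lt m1 t12
  -- upper bound on the right interval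
  have hup : x3 - x2 ≤ p (quantile ν x2) * (quantile ν x3 - quantile ν x2) := by
    have e1 : ν (Ioc (quantile ν x2) (quantile ν x3)) ≤
        ENNReal.ofReal (p (quantile ν x2) * (quantile ν x3 - quantile ν x2)) := by
      have e2 : ν (Ioc (quantile ν x2) (quantile ν x3)) =
          ∫⁻ u in Ioc (quantile ν x2) (quantile ν x3), ENNReal.ofReal (p u) := by
        rw [← withDensity_apply _ measurableSet_Ioc, ← hpν]
      rw [e2]
      calc ∫⁻ u in Ioc (quantile ν x2) (quantile ν x3), ENNReal.ofReal (p u)
          ≤ ∫⁻ u in Ioc (quantile ν x2) (quantile ν x3), ENNReal.ofReal (p (quantile ν x2)) := by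
            refine setLIntegral_mono measurable_const fun u hu => ?_
            exact ENNReal.ofReal_le_ofReal
              (hpanti (mem_Ioi.2 m2) (mem_Ioi.2 (m2.trans hu.1)) hu.1.le)
        _ = ENNReal.ofReal (p (quantile ν x2) * (quantile ν x3 - quantile ν x2)) := by
            rw [setLIntegral_const, Real.volume_Ioc, ENNReal.ofReal_mul (hp0 _)]
    have e3 : ν.real (Ioc (quantile ν x2) (quantile ν x3)) ≤
        p (quantile ν x2) * (quantile ν x3 - quantile ν x2) := by
      rw [measureReal_def]
      exact ENNReal.toReal_le_of_le_ofReal (mul_nonneg (hp0 _) (by linarith)) e1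
    rw [real_Ioc hs t23.le, g3, g2] at e3
    exact e3
  have hlow : p (quantile ν x2) * (quantile ν x2 - quantile ν x1) ≤ x2 - x1 := by
    have e1 : ENNReal.ofReal (p (quantile ν x2) * (quantile ν x2 - quantile ν x1)) ≤
        ν (Ioc (quantile ν x1) (quantile ν x2)) := by
      have e2 : ν (Ioc (quantile ν x1) (quantile ν x2)) =
          ∫⁻ u in Ioc (quantile ν x1) (quantile ν x2), ENNReal.ofReal (p u) := by
        rw [← withDensity_apply _ measurableSet_Ioc, ← hpν]
      rw [e2]
      calc ENNReal.ofReal (p (quantile ν x2) * (quantile ν x2 - quantile ν x1))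
          = ∫⁻ u in Ioc (quantile ν x1) (quantile ν x2), ENNReal.ofReal (p (quantile ν x2)) := by
            rw [setLIntegral_const, Real.volume_Ioc, ENNReal.ofReal_mul (hp0 _)]
        _ ≤ ∫⁻ u in Ioc (quantile ν x1) (quantile ν x2), ENNReal.ofReal (p u) := by
            refine setLIntegral_mono hpm.ennreal_ofReal fun u hu => ?_
            exact ENNReal.ofReal_le_ofReal
              (hpanti (mem_Ioi.2 (lt_of_le_of_lt m1 hu.1)) (mem_Ioi.2 m2) hu.2)
    have e3 : p (quantile ν x2) * (quantile ν x2 - quantile ν x1) ≤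
        ν.real (Ioc (quantile ν x1) (quantile ν x2)) := by
      rw [measureReal_def]
      exact (ENNReal.ofReal_le_iff_le_toReal (measure_ne_top _ _)).1 e1
    rw [real_Ioc hs t12.le, g2, g1] at e3
    exact e3
  rw [div_le_div_iff₀ (by linarith) (by linarith)]
  calc (quantile ν x2 - quantile ν x1) * (x3 - x2)
      ≤ (quantile ν x2 - quantile ν x1) *
          (p (quantile ν x2) * (quantile ν x3 - quantile ν x2)) :=
        mul_le_mul_of_nonneg_left hup (by linarith)
    _ = (p (quantile ν x2) * (quantile ν x2 - quantile ν x1)) *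
          (quantile ν x3 - quantile ν x2) := by ring
    _ ≤ (x2 - x1) * (quantile ν x3 - quantile ν x2) :=
        mul_le_mul_of_nonneg_right hlow (by linarith)
    _ = (quantile ν x3 - quantile ν x2) * (x2 - x1) := by ring

end Pool.Agent.Lib.MP_d11fee_pr
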