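import Pool.Agent.Lib.MP_d11fee_pr.Density
import Pool.Agent.Lib.MP_d11fee_pr.Construct
import Pool.Agent.Lib.MP_d11fee_pr.UniQuantile

/-!
# Reduction to an optimization problem on `(1/2, 1)`
-/

open Set Real MeasureTheory Filter Topology

namespace Pool.Agent.Lib.MP_d11fee_pr

theorem measurable_f (k n : ℕ) : Measurable (f k n) := by
  unfold f; fun_prop

theorem measurable_s (k n : ℕ) : Measurable (s k n) := by
  unfold s
  exact (measurable_f k n).sub ((measurable_f k n).comp (by fun_prop))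

theorem memLp_f {k : ℕ} (n : ℕ) (hk : 1 ≤ k) : MemLp (f k n) 2 (volume.restrict (Ioo (0:ℝ) 1)) := by
  rw [memLp_two_iff_integrable_sq (measurable_f k n).aestronglyMeasurable]
  have e : (fun x => f k n x ^ 2) = fun x => (k:ℝ) * ((2 * n).choose n) *
      ((k:ℝ) / (2 * k - 1)) ^ (2 * n + 1) * f (2 * k - 1) (2 * n) x := funext (f_sq n hk)
  rw [e]
  apply Integrable.const_mul
  exact (integrableOn_f (2 * n) (k := 2 * k - 1) (by omega)).mono_set Ioo_subset_Ioc_self

theorem memLp_f_half {k : ℕ} (n : ℕ) (hk : 1 ≤ k) :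
    MemLp (f k n) 2 (volume.restrict (Ioo (1/2:ℝ) 1)) :=
  (memLp_f n hk).mono_measure (Measure.restrict_mono (Ioo_subset_Ioo (by norm_num) le_rfl) le_rfl)

theorem memLp_f_reflect {k : ℕ} (n : ℕ) (hk : 1 ≤ k) :
    MemLp (fun x => f k n (1 - x)) 2 (volume.restrict (Ioo (1/2:ℝ) 1)) := by
  have h := (memLp_f n hk).comp_measurePreserving Construct.measurePreserving_reflect
  exact h.mono_measure (Measure.restrict_mono (Ioo_subset_Ioo (by norm_num) le_rfl) le_rfl)

theorem memLp_s {k : ℕ} (n : ℕ) (hk : 1 ≤ k) : MemLp (s k n) 2 (volume.restrict (Ioo (1/2:ℝ) 1)) :=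
  (memLp_f_half n hk).sub (memLp_f_reflect n hk)

theorem integral_odd {k : ℕ} (n : ℕ) (hk : 1 ≤ k) {h : ℝ → ℝ}
    (hL : MemLp h 2 (volume.restrict (Ioo (0:ℝ) 1)))
    (hodd : ∀ᵐ x ∂(volume.restrict (Ioo (0:ℝ) 1)), h x + h (1 - x) = 0) :
    ∫ x in Ioo (0:ℝ) 1, h x * f k n x = ∫ x in Ioo (1/2:ℝ) 1, h x * s k n x := by
  have hL2 : MemLp h 2 (volume.restrict (Ioo (1/2:ℝ) 1)) :=
    hL.mono_measure (Measure.restrict_mono (Ioo_subset_Ioo (by norm_num) le_rfl) le_rfl)
  have hint : Integrable (fun x => h x * f k n x) (volume.restrict (Ioo (0:ℝ) 1)) :=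
    hL.integrable_mul (memLp_f n hk)
  have hl : Integrable (fun x => h x * f k n x) (volume.restrict (Ioo (0:ℝ) (1/2))) :=
    hint.mono_measure (Measure.restrict_mono (Ioo_subset_Ioo le_rfl (by norm_num)) le_rfl)
  have hr : Integrable (fun x => h x * f k n x) (volume.restrict (Ioo (1/2:ℝ) 1)) :=
    hL2.integrable_mul (memLp_f_half n hk)
  have hr2 : Integrable (fun x => h x * f k n (1 - x)) (volume.restrict (Ioo (1/2:ℝ) 1)) :=
    hL2.integrable_mul (memLp_f_reflect n hk)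
  rw [Construct.restrict_split, integral_add_measure hl hr]
  have e1 : ∫ x in Ioo (0:ℝ) (1/2), h x * f k n x =
      ∫ x in Ioo (0:ℝ) (1/2), (fun y => h (1 - y) * f k n (1 - y)) (1 - x) := by
    apply integral_congr_ae
    filter_upwards with x
    simp
  have e2 : ∫ x in Ioo (0:ℝ) (1/2), (fun y => h (1 - y) * f k n (1 - y)) (1 - x) =
      ∫ x in Ioo (1/2:ℝ) 1, h (1 - x) * f k n (1 - x) :=
    Construct.measurePreserving_reflect_half.integral_comp
      (MeasurableEquiv.subLeft (1 : ℝ)).measurableEmbedding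
      (fun y => h (1 - y) * f k n (1 - y))
  have hodd2 : ∀ᵐ x ∂(volume.restrict (Ioo (1/2:ℝ) 1)), h x + h (1 - x) = 0 :=
    ae_mono (Measure.restrict_mono (Ioo_subset_Ioo (by norm_num) le_rfl) le_rfl) hodd
  have e3 : ∫ x in Ioo (1/2:ℝ) 1, h (1 - x) * f k n (1 - x) =
      ∫ x in Ioo (1/2:ℝ) 1, -(h x * f k n (1 - x)) := by
    apply integral_congr_ae
    filter_upwards [hodd2] with x hx
    have : h (1 - x) = - h x := by linarith
    rw [this]; ring
  have hr2n : Integrable (fun x => -(h x * f k n (1 - x))) (volume.restrict (Ioo (1/2:ℝ) 1)) :=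
    hr2.neg
  rw [e1, e2, e3, ← integral_add hr2n hr]
  apply integral_congr_ae
  filter_upwards with x
  simp only [s]
  ring

/-- normalized deviation of the record mean -/
noncomputable def ratio (k n : ℕ) (ν : Measure ℝ) : ℝ :=
  (recMean k n ν - mean ν) / Real.sqrt (variance ν)

theorem recMean_sub_mean {k : ℕ} (n : ℕ) (hk : 1 ≤ k) {ν : Measure ℝ} (h : SymParent ν) :
    recMean k n ν - mean ν = ∫ x in Ioo (1/2:ℝ) 1, (quantile ν x - mean ν) * s k n x := by
  have : IsFiniteMeasure (volume.restrict (Ioo (0 : ℝ) 1)) := by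
    constructor
    simp
  have hL : MemLp (fun x => quantile ν x - mean ν) 2 (volume.restrict (Ioo (0 : ℝ) 1)) :=
    (memLp_quantile h).sub (memLp_const _)
  have hodd : ∀ᵐ x ∂(volume.restrict (Ioo (0:ℝ) 1)),
      (quantile ν x - mean ν) + (quantile ν (1 - x) - mean ν) = 0 := by
    filter_upwards [quantile_symm h] with x hx
    linarith
  have e := integral_odd n hk hL hodd
  rw [← e]
  have hq : Integrable (fun x => quantile ν x * f k n x) (volume.restrict (Ioo (0:ℝ) 1)) :=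
    (memLp_quantile h).integrable_mul (memLp_f n hk)
  have hf : Integrable (fun x => mean ν * f k n x) (volume.restrict (Ioo (0:ℝ) 1)) :=
    ((integrableOn_f n hk).mono_set Ioo_subset_Ioc_self).const_mul _
  have e1 : ∫ x in Ioo (0:ℝ) 1, (quantile ν x - mean ν) * f k n x =
      ∫ x in Ioo (0:ℝ) 1, (quantile ν x * f k n x - mean ν * f k n x) := by
    apply integral_congr_ae
    filter_upwards with x
    ring
  have e2 : ∫ x in Ioo (0:ℝ) 1, f k n x = 1 := by
    rw [← integral_Ioc_eq_integral_Ioo, ← intervalIntegral.integral_of_le zero_le_one]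
    exact integral_f_one n hk
  rw [e1, integral_sub hq hf, integral_const_mul, e2, mul_one]
  unfold recMean
  rw [intervalIntegral.integral_of_le zero_le_one, integral_Ioc_eq_integral_Ioo]

/-- Cauchy-Schwarz -/
theorem integral_mul_le_sqrt {μ : Measure ℝ} {g u : ℝ → ℝ} (hg : MemLp g 2 μ) (hu : MemLp u 2 μ)
    (hpos : 0 < ∫ x, g x ^ 2 ∂μ) :
    ∫ x, g x * u x ∂μ ≤ Real.sqrt (∫ x, g x ^ 2 ∂μ) * Real.sqrt (∫ x, u x ^ 2 ∂μ) := by
  have h1 : Integrable (fun x => g x ^ 2) μ := hg.integrable_sq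
  have h2 : Integrable (fun x => u x ^ 2) μ := hu.integrable_sq
  have h3 : Integrable (fun x => g x * u x) μ := hg.integrable_mul hu
  set G := ∫ x, g x ^ 2 ∂μ
  set U := ∫ x, u x ^ 2 ∂μ
  set X := ∫ x, g x * u x ∂μ
  have key : 0 ≤ U - X ^ 2 / G := by
    have e : ∫ x, (u x - X / G * g x) ^ 2 ∂μ = U - X ^ 2 / G := by
      have e1 : ∀ x, (u x - X / G * g x) ^ 2 =
          (u x ^ 2 - (2 * (X / G)) * (g x * u x)) + (X / G) ^ 2 * g x ^ 2 := by
        intro x; ring
      simp_rw [e1]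
      have i1 : Integrable (fun x => (2 * (X / G)) * (g x * u x)) μ := h3.const_mul _
      have i2 : Integrable (fun x => u x ^ 2 - (2 * (X / G)) * (g x * u x)) μ := h2.sub i1
      have i3 : Integrable (fun x => (X / G) ^ 2 * g x ^ 2) μ := h1.const_mul _
      rw [integral_add i2 i3, integral_sub h2 i1, integral_const_mul, integral_const_mul]
      change U - 2 * (X / G) * X + (X / G) ^ 2 * G = _
      field_simp
      ring
    rw [← e]
    exact integral_nonneg (fun x => sq_nonneg _)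
  have h4 : X ^ 2 ≤ G * U := by
    have : X ^ 2 / G ≤ U := by linarith
    rw [div_le_iff₀ hpos] at this
    linarith
  rw [← Real.sqrt_mul hpos.le]
  exact Real.le_sqrt_of_sq_le h4

/-- Upper bound criterion -/
theorem ratio_le {k : ℕ} (n : ℕ) (hk : 1 ≤ k) {ν : Measure ℝ} (h : SymParent ν) {u : ℝ → ℝ}
    (hu : MemLp u 2 (volume.restrict (Ioo (1/2:ℝ) 1)))
    (hle : ∫ x in Ioo (1/2:ℝ) 1, (quantile ν x - mean ν) * s k n x ≤
      ∫ x in Ioo (1/2:ℝ) 1, (quantile ν x - mean ν) * u x) :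
    ratio k n ν ≤ Real.sqrt ((∫ x in Ioo (1/2:ℝ) 1, u x ^ 2) / 2) := by
  have : IsFiniteMeasure (volume.restrict (Ioo (0 : ℝ) 1)) := by
    constructor
    simp
  have hL0 : MemLp (fun x => quantile ν x - mean ν) 2 (volume.restrict (Ioo (0 : ℝ) 1)) :=
    (memLp_quantile h).sub (memLp_const _)
  have hL : MemLp (fun x => quantile ν x - mean ν) 2 (volume.restrict (Ioo (1/2 : ℝ) 1)) :=
    hL0.mono_measure (Measure.restrict_mono (Ioo_subset_Ioo (by norm_num) le_rfl) le_rfl)
  have hvar := integral_sq_quantile h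
  have hvp := h.var_pos
  have hpos : 0 < ∫ x in Ioo (1/2:ℝ) 1, (quantile ν x - mean ν) ^ 2 := by linarith
  have hcs := integral_mul_le_sqrt hL hu hpos
  unfold ratio
  rw [div_le_iff₀ (Real.sqrt_pos.2 hvp), recMean_sub_mean n hk h, ← Real.sqrt_mul (by positivity)]
  refine (hle.trans hcs).trans ?_
  rw [← Real.sqrt_mul hpos.le]
  apply Real.sqrt_le_sqrt
  rw [← hvar]
  apply le_of_eq
  ring

/-- Value of the ratio for a constructed law -/
theorem ratio_eq {k : ℕ} (n : ℕ) (hk : 1 ≤ k) {ν : Measure ℝ} (h : SymParent ν) {g : ℝ → ℝ}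
    (hm : mean ν = 0) (hv : variance ν = 2 * ∫ x in Ioo (1/2:ℝ) 1, g x ^ 2)
    (hq : ∀ x ∈ Ioo (1/2:ℝ) 1, quantile ν x = g x) :
    ratio k n ν = (∫ x in Ioo (1/2:ℝ) 1, g x * s k n x) /
      Real.sqrt (2 * ∫ x in Ioo (1/2:ℝ) 1, g x ^ 2) := by
  unfold ratio
  rw [recMean_sub_mean n hk h, hv]
  congr 1
  apply setIntegral_congr_fun measurableSet_Ioo
  intro x hx
  simp only
  rw [hq x hx, hm, sub_zero]

end Pool.Agent.Lib.MP_d11fee_pr
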