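import Pool.Agent.Lib.MP_d11fee_pr.Calc

/-!
# Shape of the antisymmetrized density
-/

open Set Real

namespace Pool.Agent.Lib.MP_d11fee_pr

/-- `v^n (1-x)^m` -/
noncomputable def PP (n m : ℕ) (x : ℝ) : ℝ := vv x ^ n * (1 - x) ^ m

/-- first derivative of `PP` -/
noncomputable def P1 (n m : ℕ) (x : ℝ) : ℝ := PP n m x * ((n / vv x - m) / (1 - x))

/-- the quadratic `q` -/
noncomputable def qq (n m : ℕ) (z : ℝ) : ℝ := (n - m * z) ^ 2 + z * (n - m * z) - n

/-- second derivative of `PP` -/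
noncomputable def P2 (n m : ℕ) (x : ℝ) : ℝ := PP n m x * (qq n m (vv x) / (vv x ^ 2 * (1 - x) ^ 2))

theorem PP_pos (n m : ℕ) {x : ℝ} (h0 : 0 < x) (h1 : x < 1) : 0 < PP n m x := by
  have := vv_pos h0 h1
  have : 0 < 1 - x := by linarith
  unfold PP; positivity

theorem natpow_pred (n : ℕ) {v : ℝ} (hv : v ≠ 0) : (n : ℝ) * v ^ (n - 1) = n / v * v ^ n := by
  rcases n with _ | n
  · simp
  · rw [Nat.add_sub_cancel, pow_succ]; field_simp

theorem hasDerivAt_PP (n m : ℕ) {x : ℝ} (h0 : 0 < x) (h1 : x < 1) :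
    HasDerivAt (PP n m) (P1 n m x) x := by
  have hv := vv_pos h0 h1
  have hx : 0 < 1 - x := by linarith
  have a : HasDerivAt (fun y => vv y ^ n) (n * vv x ^ (n - 1) * (1 / (1 - x))) x :=
    (hasDerivAt_vv h1).pow n
  have b0 : HasDerivAt (fun y : ℝ => 1 - y) (-1) x := (hasDerivAt_id x).const_sub 1
  have b : HasDerivAt (fun y : ℝ => (1 - y) ^ m) (m * (1 - x) ^ (m - 1) * (-1)) x := b0.pow m
  have c : HasDerivAt (PP n m) (n * vv x ^ (n - 1) * (1 / (1 - x)) * (1 - x) ^ m +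
    vv x ^ n * (m * (1 - x) ^ (m - 1) * (-1))) x := a.mul b
  refine c.congr_deriv ?_
  rw [natpow_pred n hv.ne', natpow_pred m hx.ne']
  unfold P1 PP
  field_simp
  ring

theorem hasDerivAt_P1 (n m : ℕ) {x : ℝ} (h0 : 0 < x) (h1 : x < 1) :
    HasDerivAt (P1 n m) (P2 n m x) x := by
  have hv := vv_pos h0 h1
  have hx : 0 < 1 - x := by linarith
  have a0 : HasDerivAt (fun y => (n : ℝ) / vv y) ((0 * vv x - n * (1 / (1 - x))) / vv x ^ 2) x :=
    (hasDerivAt_const x (n : ℝ)).div (hasDerivAt_vv h1) hv.ne'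
  have a : HasDerivAt (fun y => (n : ℝ) / vv y - m) ((0 * vv x - n * (1 / (1 - x))) / vv x ^ 2) x :=
    a0.sub_const _
  have b0 : HasDerivAt (fun y : ℝ => 1 - y) (-1) x := (hasDerivAt_id x).const_sub 1
  have b := a.div b0 hx.ne'
  have c := (hasDerivAt_PP n m h0 h1).mul b
  refine HasDerivAt.congr_deriv c ?_
  simp only [P1, P2, qq, Pi.div_apply]
  field_simp
  ring

/-- `S(x) = P(x) - P(1-x)` -/
noncomputable def SS (n m : ℕ) (x : ℝ) : ℝ := PP n m x - PP n m (1 - x)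

noncomputable def S1 (n m : ℕ) (x : ℝ) : ℝ := P1 n m x + P1 n m (1 - x)

noncomputable def S2 (n m : ℕ) (x : ℝ) : ℝ := P2 n m x - P2 n m (1 - x)

theorem hasDerivAt_SS (n m : ℕ) {x : ℝ} (h0 : 0 < x) (h1 : x < 1) :
    HasDerivAt (SS n m) (S1 n m x) x := by
  have a := hasDerivAt_PP n m h0 h1
  have b0 : HasDerivAt (fun y : ℝ => 1 - y) (-1) x := (hasDerivAt_id x).const_sub 1
  have b : HasDerivAt (fun y => PP n m (1 - y)) (P1 n m (1 - x) * (-1)) x :=
    (hasDerivAt_PP n m (x := 1 - x) (by linarith) (by linarith)).comp x b0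
  have c : HasDerivAt (SS n m) (P1 n m x - P1 n m (1 - x) * (-1)) x := a.sub b
  exact c.congr_deriv (by unfold S1; ring)

theorem hasDerivAt_S1 (n m : ℕ) {x : ℝ} (h0 : 0 < x) (h1 : x < 1) :
    HasDerivAt (S1 n m) (S2 n m x) x := by
  have a := hasDerivAt_P1 n m h0 h1
  have b0 : HasDerivAt (fun y : ℝ => 1 - y) (-1) x := (hasDerivAt_id x).const_sub 1
  have b : HasDerivAt (fun y => P1 n m (1 - y)) (P2 n m (1 - x) * (-1)) x :=
    (hasDerivAt_P1 n m (x := 1 - x) (by linarith) (by linarith)).comp x b0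
  have c : HasDerivAt (S1 n m) (P2 n m x + P2 n m (1 - x) * (-1)) x := a.add b
  exact c.congr_deriv (by unfold S2; ring)

/-- the logarithm of the ratio `P(x)/P(1-x)` -/
noncomputable def TT (n m : ℕ) (x : ℝ) : ℝ :=
  n * (Real.log (vv x) - Real.log (ww x)) - m * (vv x - ww x)

theorem PP_eq_exp (n m : ℕ) {x : ℝ} (h0 : 0 < x) (h1 : x < 1) :
    PP n m x = exp (TT n m x) * PP n m (1 - x) := by
  have hv := vv_pos h0 h1
  have hw := ww_pos h0 h1
  have hx : 0 < 1 - x := by linarith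
  unfold PP TT
  rw [vv_one_sub]
  have e1 : exp (n * (Real.log (vv x) - Real.log (ww x)) - m * (vv x - ww x)) =
      (vv x / ww x) ^ n * ((1 - x) / x) ^ m := by
    have e3 : Real.log ((1 - x) / x) = -(vv x - ww x) := by
      rw [Real.log_div hx.ne' h0.ne']; unfold vv ww; ring
    rw [← Real.exp_log (div_pos hv hw), ← Real.exp_log (div_pos hx h0), ← exp_nat_mul,
      ← exp_nat_mul, ← exp_add, e3, Real.log_div hv.ne' hw.ne']
    congr 1; ring
  rw [e1, div_pow, div_pow]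
  have : 1 - (1 - x) = x := by ring
  rw [this]
  field_simp

theorem hasDerivAt_TT (n m : ℕ) {x : ℝ} (h0 : 0 < x) (h1 : x < 1) :
    HasDerivAt (TT n m) ((n * MM x - m) / (x * (1 - x))) x := by
  have hv := vv_pos h0 h1
  have hw := ww_pos h0 h1
  have hx : 0 < 1 - x := by linarith
  have a := ((hasDerivAt_vv h1).log hv.ne').sub ((hasDerivAt_ww h0).log hw.ne')
  have b := (hasDerivAt_vv h1).sub (hasDerivAt_ww h0)
  have c := (a.const_mul (n : ℝ)).sub (b.const_mul (m : ℝ))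
  refine HasDerivAt.congr_deriv c ?_
  unfold MM
  field_simp
  ring

theorem TT_half (n m : ℕ) : TT n m (1 / 2) = 0 := by
  have : vv (1 / 2) = ww (1 / 2) := by unfold vv ww; norm_num
  unfold TT; rw [this]; ring

theorem SS_eq (n m : ℕ) {x : ℝ} (h0 : 0 < x) (h1 : x < 1) :
    SS n m x = (exp (TT n m x) - 1) * PP n m (1 - x) := by
  unfold SS; rw [PP_eq_exp n m h0 h1]; ring

theorem SS_pos_iff (n m : ℕ) {x : ℝ} (h0 : 0 < x) (h1 : x < 1) :
    0 < SS n m x ↔ 0 < TT n m x := by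
  rw [SS_eq n m h0 h1, mul_pos_iff_of_pos_right (PP_pos n m (by linarith) (by linarith)), sub_pos,
    Real.one_lt_exp_iff]

theorem SS_neg_iff (n m : ℕ) {x : ℝ} (h0 : 0 < x) (h1 : x < 1) :
    SS n m x < 0 ↔ TT n m x < 0 := by
  rw [SS_eq n m h0 h1, mul_neg_iff]
  have hp := PP_pos n m (x := 1 - x) (by linarith) (by linarith)
  constructor
  · rintro (⟨h, h'⟩ | ⟨h, -⟩)
    · linarith
    · have : exp (TT n m x) < 1 := by linarith
      exact Real.exp_lt_one_iff.1 this
  · intro h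
    right
    exact ⟨by have := Real.exp_lt_one_iff.2 h; linarith, hp⟩

/-- (C0) -/
theorem TT_neg (n m : ℕ) (hn : 1 ≤ n) {x y : ℝ} (hx : 1 / 2 < x) (hxy : x < y) (hy : y < 1)
    (h : TT n m x ≤ 0) : TT n m y < 0 := by
  have hn' : (0:ℝ) < n := by exact_mod_cast hn
  obtain ⟨ξ, hξ, hξ'⟩ := exists_hasDerivAt_eq_slope (TT n m)
    (fun z => (n * MM z - m) / (z * (1 - z))) hx
    (fun z hz => (hasDerivAt_TT n m (by linarith [hz.1]) (by linarith [hz.2])).continuousAt.continuousWithinAt)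
    (fun z hz => hasDerivAt_TT n m (by linarith [hz.1]) (by linarith [hz.2]))
  rw [TT_half, sub_zero] at hξ'
  have hq : TT n m x / (x - 1 / 2) ≤ 0 := div_nonpos_of_nonpos_of_nonneg h (by linarith)
  have hpos : 0 < ξ * (1 - ξ) := mul_pos (by linarith [hξ.1]) (by linarith [hξ.2])
  have h1 : n * MM ξ - m ≤ 0 := by
    by_contra hc
    push Not at hc
    have := div_pos hc hpos
    linarith
  obtain ⟨ζ, hζ, hζ'⟩ := exists_hasDerivAt_eq_slope (TT n m)
    (fun z => (n * MM z - m) / (z * (1 - z))) hxy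
    (fun z hz => (hasDerivAt_TT n m (by linarith [hz.1]) (by linarith [hz.2])).continuousAt.continuousWithinAt)
    (fun z hz => hasDerivAt_TT n m (by linarith [hz.1]) (by linarith [hz.2]))
  have hM : MM ζ < MM ξ := MM_strictAnti ⟨hξ.1, by linarith [hξ.2]⟩
    ⟨by linarith [hζ.1], by linarith [hζ.2]⟩ (by linarith [hξ.2, hζ.1])
  have h2 : n * MM ζ - m < 0 := by nlinarith
  have hpos2 : 0 < ζ * (1 - ζ) := mul_pos (by linarith [hζ.1]) (by linarith [hζ.2])
  have h3 := div_neg_of_neg_of_pos h2 hpos2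
  rw [hζ'] at h3
  have h4 : 0 < y - x := by linarith
  have h5 : TT n m y - TT n m x < 0 := by
    by_contra hc
    push Not at hc
    have := div_nonneg hc h4.le
    linarith
  linarith

theorem one_lt_MM {x : ℝ} (h0 : 0 < x) (h1 : x < 1) : 1 < MM x := by
  have hv := vv_pos h0 h1
  have hw := ww_pos h0 h1
  have hx : 0 < 1 - x := by linarith
  have a : ww x < 1 / x - 1 := by
    have := Real.log_lt_sub_one_of_pos (x := 1 / x) (by positivity) (by
      intro h; rw [div_eq_one_iff_eq h0.ne'] at h; linarith)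
    rw [one_div, Real.log_inv] at this
    unfold ww; rw [one_div]; linarith
  have b : vv x < 1 / (1 - x) - 1 := by
    have := Real.log_lt_sub_one_of_pos (x := 1 / (1 - x)) (by positivity) (by
      intro h; rw [div_eq_one_iff_eq hx.ne'] at h; linarith)
    rw [one_div, Real.log_inv] at this
    unfold vv; rw [one_div]; linarith
  have a' : x < (1 - x) / ww x := by
    rw [lt_div_iff₀ hw]
    have := mul_lt_mul_of_pos_left a h0
    have e : x * (1 / x - 1) = 1 - x := by field_simp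
    linarith
  have b' : 1 - x < x / vv x := by
    rw [lt_div_iff₀ hv]
    have := mul_lt_mul_of_pos_left b hx
    have e : (1 - x) * (1 / (1 - x) - 1) = x := by field_simp; ring
    linarith
  unfold MM; linarith

theorem TT11_pos {x : ℝ} (h0 : 1 / 2 < x) (h1 : x < 1) : 0 < TT 1 1 x := by
  obtain ⟨ξ, hξ, hξ'⟩ := exists_hasDerivAt_eq_slope (TT 1 1)
    (fun z => (((1:ℕ):ℝ) * MM z - ((1:ℕ):ℝ)) / (z * (1 - z))) h0
    (fun z hz => (hasDerivAt_TT 1 1 (by linarith [hz.1]) (by linarith [hz.2])).continuousAt.continuousWithinAt)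
    (fun z hz => hasDerivAt_TT 1 1 (by linarith [hz.1]) (by linarith [hz.2]))
  rw [TT_half, sub_zero] at hξ'
  have hpos : 0 < ξ * (1 - ξ) := mul_pos (by linarith [hξ.1]) (by linarith [hξ.2])
  have hM := one_lt_MM (x := ξ) (by linarith [hξ.1]) (by linarith [hξ.2])
  have h2 : 0 < (((1:ℕ):ℝ) * MM ξ - ((1:ℕ):ℝ)) / (ξ * (1 - ξ)) :=
    div_pos (by push_cast; linarith) hpos
  rw [hξ'] at h2
  exact (div_pos_iff_of_pos_right (by linarith)).1 h2

theorem log_kap {x : ℝ} (h0 : 0 < x) (h1 : x < 1) :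
    Real.log (kap x) = (vv x - ww x) - (Real.log (vv x) - Real.log (ww x)) := by
  have hv := vv_pos h0 h1
  have hw := ww_pos h0 h1
  have hx : 0 < 1 - x := by linarith
  unfold kap
  rw [Real.log_mul (by positivity) (by positivity), Real.log_div h0.ne' hx.ne',
    Real.log_div hw.ne' hv.ne']
  have e1 : Real.log x = - ww x := by unfold ww; ring
  have e2 : Real.log (1 - x) = - vv x := by unfold vv; ring
  rw [e1, e2]; ring

theorem kap_lt_one {x : ℝ} (h0 : 1 / 2 < x) (h1 : x < 1) : kap x < 1 := by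
  have h := TT11_pos h0 h1
  have hk := kap_pos (by linarith : (0:ℝ) < x) h1
  have h2 := log_kap (by linarith : (0:ℝ) < x) h1
  have : TT 1 1 x = - Real.log (kap x) := by
    rw [h2]; unfold TT; push_cast; ring
  rw [this] at h
  exact (Real.log_neg_iff hk).1 (by linarith)

/-- algebraic lemma behind unimodality -/
theorem alg_B {v w κ a b n : ℝ} (hw : 0 < w) (hwv : w < v) (hκ : 0 < κ) (hκ1 : κ < 1)
    (hI : 1 - κ ^ 2 < κ * (v - w)) (ha : 0 < a) (hb : κ * a < b)
    (hn : n * (v - w) = a * w + b * v) :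
    0 < w + κ * v + κ * n / a - n / b := by
  have hb0 : 0 < b := lt_trans (mul_pos hκ ha) hb
  have hd : 0 < v - w := by linarith
  have hv : 0 < v := by linarith
  have e : w + κ * v + κ * n / a - n / b =
      ((w + κ * v) * (a * b * (v - w)) + (n * (v - w)) * (κ * b - a)) / (a * b * (v - w)) := by
    field_simp
    ring
  rw [e, hn]
  apply div_pos _ (by positivity)
  clear e
  obtain ⟨e, he⟩ : ∃ e : ℝ, b = κ * a + e := ⟨b - κ * a, by ring⟩
  have he0 : 0 < e := by linarith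
  subst he
  have hwk : 0 < w + κ * v := by positivity
  have k1 : 0 < κ * (v - w) - (1 - κ ^ 2) := by linarith
  have k2 : 0 < κ * ((w + κ * v) * (v - w) + κ * w + κ ^ 2 * v - v + κ ^ 2 * v) := by
    have : κ * ((w + κ * v) * (v - w) + κ * w + κ ^ 2 * v - v + κ ^ 2 * v) =
      (w + κ * v) * (κ * (v - w) - (1 - κ ^ 2)) + w * (1 - κ ^ 2) + κ ^ 2 * (w + κ * v) := by ring
    rw [this]
    have : 0 < 1 - κ ^ 2 := by nlinarith
    positivity
  have k3 : 0 < (w + κ * v) * (v - w) + κ * w + κ ^ 2 * v - v + κ ^ 2 * v :=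
    (mul_pos_iff_of_pos_left hκ).1 k2
  have : (w + κ * v) * (a * (κ * a + e) * (v - w)) + (a * w + (κ * a + e) * v) * (κ * (κ * a + e) - a)
     = a ^ 2 * (w + κ * v) * (κ * (v - w) - (1 - κ ^ 2)) +
       e * a * ((w + κ * v) * (v - w) + κ * w + κ ^ 2 * v - v + κ ^ 2 * v) + κ * e ^ 2 * v := by ring
  rw [this]
  positivity

/-- algebraic lemma behind the convexity pattern -/
theorem alg_E {v w κ a b n m : ℝ} (hw : 0 < w) (hwv : w < v) (hκ : 0 < κ) (hκ1 : κ < 1)
    (hI : 1 - κ ^ 2 < κ * (v - w)) (ha : 0 < a) (hb : κ * a ≤ b)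
    (hn : n * (v - w) = a * w + b * v) (hm : m * (v - w) = a + b) (hm1 : 1 ≤ m) :
    n - w * b - b ^ 2 < κ ^ 2 * (n + v * a - a ^ 2) := by
  have hb0 : 0 < b := lt_of_lt_of_le (mul_pos hκ ha) hb
  have hd : 0 < v - w := by linarith
  have hv : 0 < v := by linarith
  obtain ⟨e, he⟩ : ∃ e : ℝ, b = κ * a + e := ⟨b - κ * a, by ring⟩
  have he0 : 0 ≤ e := by linarith
  have hwk : 0 < w + κ * v := by positivity
  have k1 : 0 < κ * (v - w) - (1 - κ ^ 2) := by linarith
  have h1 : v - w ≤ a + b := by nlinarith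
  have h2 : κ * v ≤ w + κ * a + b := by nlinarith
  have h3 : (1 - κ ^ 2) * v ≤ (v - w) * (w + 2 * κ * a + e) := by
    have : (1 - κ ^ 2) * v ≤ κ * (v - w) * v := by nlinarith
    have : (v - w) * (κ * v) ≤ (v - w) * (w + κ * a + b) := by nlinarith
    rw [he] at this
    nlinarith
  have key : 0 < (v - w) * (κ ^ 2 * (n + v * a - a ^ 2) - (n - w * b - b ^ 2)) := by
    have : (v - w) * (κ ^ 2 * (n + v * a - a ^ 2) - (n - w * b - b ^ 2)) =
       -(1 - κ ^ 2) * (n * (v - w)) + (v - w) * (κ ^ 2 * v * a + w * b + b ^ 2 - κ ^ 2 * a ^ 2) := by ring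
    rw [this, hn, he]
    have : -(1 - κ ^ 2) * (a * w + (κ * a + e) * v) + (v - w) * (κ ^ 2 * v * a + w * (κ * a + e) +
        (κ * a + e) ^ 2 - κ ^ 2 * a ^ 2) =
        a * (w + κ * v) * (κ * (v - w) - (1 - κ ^ 2)) +
        e * ((v - w) * (w + 2 * κ * a + e) - (1 - κ ^ 2) * v) := by ring
    rw [this]
    have h4 : 0 ≤ e * ((v - w) * (w + 2 * κ * a + e) - (1 - κ ^ 2) * v) :=
      mul_nonneg he0 (by linarith)
    have h5 : 0 < a * (w + κ * v) * (κ * (v - w) - (1 - κ ^ 2)) := by positivity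
    linarith
  have := (mul_pos_iff_of_pos_left hd).1 key
  linarith

end Pool.Agent.Lib.MP_d11fee_pr
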