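import Pool.Agent.Lib.MP_d11fee_pr.Shape

/-!
# Monotonicity and convexity pattern
-/

open Set Real

namespace Pool.Agent.Lib.MP_d11fee_pr

theorem hasDerivAt_kap {x : ℝ} (h0 : 0 < x) (h1 : x < 1) :
    HasDerivAt (fun y => Real.log (kap y))
      (1 / (1 - x) + 1 / x - 1 / ((1 - x) * vv x) - 1 / (x * ww x)) x := by
  have hv := vv_pos h0 h1
  have hw := ww_pos h0 h1
  have hx : 0 < 1 - x := by linarith
  have a := ((hasDerivAt_vv h1).log hv.ne').sub ((hasDerivAt_ww h0).log hw.ne')
  have b := (hasDerivAt_vv h1).sub (hasDerivAt_ww h0)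
  have c := b.sub a
  have d := c.congr_deriv (g' := 1 / (1 - x) + 1 / x - 1 / ((1 - x) * vv x) - 1 / (x * ww x)) (by
    field_simp; ring)
  refine d.congr_of_eventuallyEq ?_
  filter_upwards [Ioo_mem_nhds h0 h1] with y hy
  rw [log_kap hy.1 hy.2]; rfl

theorem S1_eq (n m : ℕ) {x : ℝ} (h0 : 0 < x) (h1 : x < 1) :
    S1 n m x = PP n m (1 - x) / (x * ww x) *
      ((n - m * ww x) - exp (TT n m x) * kap x * (m * vv x - n)) := by
  have hv := vv_pos h0 h1
  have hw := ww_pos h0 h1
  have hx : 0 < 1 - x := by linarith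
  unfold S1 P1 kap
  rw [PP_eq_exp n m h0 h1, vv_one_sub]
  have : 1 - (1 - x) = x := by ring
  rw [this]
  field_simp
  ring

theorem S2_eq (n m : ℕ) {x : ℝ} (h0 : 0 < x) (h1 : x < 1) :
    S2 n m x = PP n m (1 - x) / (x * ww x) ^ 2 *
      (exp (TT n m x) * kap x ^ 2 * qq n m (vv x) - qq n m (ww x)) := by
  have hv := vv_pos h0 h1
  have hw := ww_pos h0 h1
  have hx : 0 < 1 - x := by linarith
  unfold S2 P2 kap
  rw [PP_eq_exp n m h0 h1, vv_one_sub]
  have : 1 - (1 - x) = x := by ring
  rw [this]
  field_simp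

theorem T_deriv_eq (n m : ℕ) {x : ℝ} (h0 : 0 < x) (h1 : x < 1) :
    (n * MM x - m) / (x * (1 - x)) =
      ((n - m * ww x) - kap x * (m * vv x - n)) / (x * ww x) := by
  have hv := vv_pos h0 h1
  have hw := ww_pos h0 h1
  have hx : 0 < 1 - x := by linarith
  unfold MM kap
  field_simp
  ring

/-- sign of `S1` when the point `x` lies before the mode -/
theorem S1_pos_of_le (n m : ℕ) {x : ℝ} (h0 : 1 / 2 < x) (h1 : x < 1)
    (h : (m:ℝ) * vv x ≤ n) (hm : 1 ≤ m) : 0 < S1 n m x := by
  have hx0 : 0 < x := by linarith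
  have hv := vv_pos hx0 h1
  have hw := ww_pos hx0 h1
  have hwv := ww_lt_vv h0 h1
  have hp := PP_pos n m (x := 1 - x) (by linarith) (by linarith)
  have hk := kap_pos hx0 h1
  have hm' : (1:ℝ) ≤ m := by exact_mod_cast hm
  rw [S1_eq n m hx0 h1]
  apply mul_pos (by positivity)
  have h2 : 0 < n - m * ww x := by nlinarith
  have h3 : exp (TT n m x) * kap x * (m * vv x - n) ≤ 0 :=
    mul_nonpos_of_nonneg_of_nonpos (by positivity) (by linarith)
  linarith

/-- sign of `S1` in terms of a product inequality -/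
theorem S1_neg_iff (n m : ℕ) {x : ℝ} (h0 : 0 < x) (h1 : x < 1) :
    S1 n m x < 0 ↔ (n - m * ww x) < exp (TT n m x) * kap x * (m * vv x - n) := by
  have hw := ww_pos h0 h1
  have hp := PP_pos n m (x := 1 - x) (by linarith) (by linarith)
  rw [S1_eq n m h0 h1, mul_neg_iff]
  have hq : 0 < PP n m (1 - x) / (x * ww x) := by positivity
  constructor
  · rintro (⟨-, h⟩ | ⟨h, -⟩)
    · linarith
    · linarith
  · intro h; left; exact ⟨hq, by linarith⟩

theorem S1_pos_iff (n m : ℕ) {x : ℝ} (h0 : 0 < x) (h1 : x < 1) :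
    0 < S1 n m x ↔ exp (TT n m x) * kap x * (m * vv x - n) < (n - m * ww x) := by
  have hw := ww_pos h0 h1
  have hp := PP_pos n m (x := 1 - x) (by linarith) (by linarith)
  have hq : 0 < PP n m (1 - x) / (x * ww x) := by positivity
  rw [S1_eq n m h0 h1, mul_pos_iff_of_pos_left hq, sub_pos]

/-- (C1) -/
theorem S1_neg (n m : ℕ) (hn : 1 ≤ n) (hm : 1 ≤ m) {x y : ℝ} (hx : 1 / 2 < x) (hxy : x < y)
    (hy : y < 1) (hT : 0 < TT n m y) (h : S1 n m x ≤ 0) : S1 n m y < 0 := by
  have hn' : (0:ℝ) < n := by exact_mod_cast hn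
  have hm' : (1:ℝ) ≤ m := by exact_mod_cast hm
  -- positivity of `T` up to `y`
  have hTz : ∀ z, 1 / 2 < z → z ≤ y → 0 < TT n m z := by
    intro z hz hzy
    rcases hzy.eq_or_lt with rfl | hzy
    · exact hT
    · by_contra hc
      push Not at hc
      have := TT_neg n m hn hz hzy hy hc
      linarith
  -- `a > 0` from `x` on
  have hax : (n:ℝ) < m * vv x := by
    by_contra hc
    push Not at hc
    have := S1_pos_of_le n m hx (by linarith) hc hm
    linarith
  have haz : ∀ z, x ≤ z → z < 1 → 0 < m * vv z - n := by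
    intro z hz hz1
    have : vv x ≤ vv z := by
      unfold vv
      have := Real.log_le_log (x := 1 - z) (y := 1 - x) (by linarith) (by linarith)
      linarith
    nlinarith
  have hy0 : 0 < y := by linarith
  have hv := vv_pos hy0 hy
  have hw := ww_pos hy0 hy
  have hkp := kap_pos hy0 hy
  by_cases hTy : n * MM y - m ≤ 0
  · rw [S1_neg_iff n m hy0 hy]
    have e := T_deriv_eq n m hy0 hy
    have hpos : 0 < y * (1 - y) := mul_pos hy0 (by linarith)
    have h1 : ((n - m * ww y) - kap y * (m * vv y - n)) / (y * ww y) ≤ 0 := by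
      rw [← e]; exact div_nonpos_of_nonpos_of_nonneg hTy hpos.le
    have h2 : (n - m * ww y) - kap y * (m * vv y - n) ≤ 0 := by
      by_contra hc
      push Not at hc
      have := div_pos hc (mul_pos hy0 hw)
      linarith
    have h3 : 1 < exp (TT n m y) := Real.one_lt_exp_iff.2 hT
    have h4 := haz y hxy.le hy
    have h5 : 0 < kap y * (m * vv y - n) := mul_pos hkp h4
    have h6 : kap y * (m * vv y - n) < exp (TT n m y) * (kap y * (m * vv y - n)) := by
      nlinarith
    calc (n:ℝ) - m * ww y ≤ kap y * (m * vv y - n) := by linarith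
      _ < exp (TT n m y) * (kap y * (m * vv y - n)) := h6
      _ = _ := by ring
  · push Not at hTy
    -- `T' > 0` on `[x,y]`
    have hTd : ∀ z, x ≤ z → z ≤ y → kap z * (m * vv z - n) < n - m * ww z := by
      intro z hz hzy
      have hz0 : 0 < z := by linarith
      have hz1 : z < 1 := by linarith
      have hM : MM y ≤ MM z := by
        rcases hzy.eq_or_lt with rfl | hzy
        · exact le_rfl
        · exact (MM_strictAnti ⟨by linarith, hz1⟩ ⟨by linarith, hy⟩ hzy).le
      have h1 : 0 < n * MM z - m := by nlinarith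
      have h2 := div_pos h1 (mul_pos hz0 (by linarith : (0:ℝ) < 1 - z))
      rw [T_deriv_eq n m hz0 hz1] at h2
      have := (div_pos_iff_of_pos_right (mul_pos hz0 (ww_pos hz0 hz1))).1 h2
      linarith
    have hbz : ∀ z, x ≤ z → z ≤ y → 0 < n - m * ww z := by
      intro z hz hzy
      have h1 := hTd z hz hzy
      have h2 := mul_pos (kap_pos (by linarith : 0 < z) (by linarith : z < 1)) (haz z hz (by linarith))
      linarith
    let LL : ℝ → ℝ := fun z => TT n m z + Real.log (kap z) + Real.log (m * vv z - n) -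
      Real.log (n - m * ww z)
    have hLd : ∀ z, x ≤ z → z ≤ y → HasDerivAt LL
        ((n * MM z - m) / (z * (1 - z)) +
        (1 / (1 - z) + 1 / z - 1 / ((1 - z) * vv z) - 1 / (z * ww z)) +
        (m * (1 / (1 - z))) / (m * vv z - n) - (-(m * (-(1 / z)))) / (n - m * ww z)) z := by
      intro z hz hzy
      have hz0 : 0 < z := by linarith
      have hz1 : z < 1 := by linarith
      have h1 := hasDerivAt_TT n m hz0 hz1
      have h2 := hasDerivAt_kap hz0 hz1
      have h3 : HasDerivAt (fun y => m * vv y - n) (m * (1 / (1 - z))) z :=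
        ((hasDerivAt_vv hz1).const_mul (m:ℝ)).sub_const _
      have h4 : HasDerivAt (fun y => n - m * ww y) (-(m * (-(1 / z)))) z :=
        ((hasDerivAt_ww hz0).const_mul (m:ℝ)).const_sub _
      exact ((h1.add h2).add (h3.log (haz z hz hz1).ne')).sub (h4.log (hbz z hz hzy).ne')
    have hLpos : ∀ z, x ≤ z → z ≤ y → 0 < (n * MM z - m) / (z * (1 - z)) +
        (1 / (1 - z) + 1 / z - 1 / ((1 - z) * vv z) - 1 / (z * ww z)) +
        (m * (1 / (1 - z))) / (m * vv z - n) - (-(m * (-(1 / z)))) / (n - m * ww z) := by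
      intro z hz hzy
      have hz0 : 0 < z := by linarith
      have hz1 : z < 1 := by linarith
      have hz1' : 0 < 1 - z := by linarith
      have hvz := vv_pos hz0 hz1
      have hwz := ww_pos hz0 hz1
      have ha := haz z hz hz1
      have hb := hbz z hz hzy
      have hab := hTd z hz hzy
      have hB := alg_B (v := vv z) (w := ww z) (κ := kap z) (a := m * vv z - n)
        (b := n - m * ww z) (n := n) hwz (ww_lt_vv (by linarith) hz1) (kap_pos hz0 hz1)
        (kap_lt_one (by linarith) hz1) (key_ineq' (by linarith) hz1) ha hab (by ring)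
      rw [T_deriv_eq n m hz0 hz1]
      have e : ((n - m * ww z) - kap z * (m * vv z - n)) / (z * ww z) +
        (1 / (1 - z) + 1 / z - 1 / ((1 - z) * vv z) - 1 / (z * ww z)) +
        (m * (1 / (1 - z))) / (m * vv z - n) - (-(m * (-(1 / z)))) / (n - m * ww z) =
        (((n - m * ww z) - kap z * (m * vv z - n)) + (ww z + kap z * vv z +
          kap z * n / (m * vv z - n) - n / (n - m * ww z))) / (z * ww z) := by
        unfold kap
        field_simp
        ring
      rw [e]
      apply div_pos (by linarith) (by positivity)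
    obtain ⟨ζ, hζ, hζ'⟩ := exists_hasDerivAt_eq_slope LL
      (fun z => (n * MM z - m) / (z * (1 - z)) +
        (1 / (1 - z) + 1 / z - 1 / ((1 - z) * vv z) - 1 / (z * ww z)) +
        (m * (1 / (1 - z))) / (m * vv z - n) - (-(m * (-(1 / z)))) / (n - m * ww z)) hxy
      (fun z hz => (hLd z hz.1 hz.2).continuousAt.continuousWithinAt)
      (fun z hz => hLd z hz.1.le hz.2.le)
    have h1 := hLpos ζ hζ.1.le hζ.2.le
    rw [hζ'] at h1
    have h2 : LL x < LL y := by
      have := (div_pos_iff_of_pos_right (by linarith : 0 < y - x)).1 h1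
      linarith
    -- `LL x ≥ 0`
    have hx0 : 0 < x := by linarith
    have hx1 : x < 1 := by linarith
    have hLx : 0 ≤ LL x := by
      have h3 : (n - m * ww x) ≤ exp (TT n m x) * kap x * (m * vv x - n) := by
        by_contra hc
        push Not at hc
        have := (S1_pos_iff n m hx0 hx1).2 hc
        linarith
      have h4 := Real.log_le_log (hbz x le_rfl hxy.le) h3
      rw [Real.log_mul (mul_pos (exp_pos _) (kap_pos hx0 hx1)).ne' (haz x le_rfl hx1).ne',
        Real.log_mul (exp_pos _).ne' (kap_pos hx0 hx1).ne', Real.log_exp] at h4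
      simp only [LL]; linarith
    have hLy : 0 < LL y := by linarith
    rw [S1_neg_iff n m hy0 hy]
    have h5 : Real.log (n - m * ww y) < Real.log (exp (TT n m y) * kap y * (m * vv y - n)) := by
      rw [Real.log_mul (mul_pos (exp_pos _) hkp).ne' (haz y hxy.le hy).ne',
        Real.log_mul (exp_pos _).ne' hkp.ne', Real.log_exp]
      simp only [LL] at hLy; linarith
    exact (Real.log_lt_log_iff (hbz y hxy.le le_rfl)
      (mul_pos (mul_pos (exp_pos _) hkp) (haz y hxy.le hy))).1 h5

end Pool.Agent.Lib.MP_d11fee_pr
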