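import Pool.Agent.Lib.MP_d11fee_pr.Shape2

/-!
# Convexity pattern (C2)
-/

open Set Real

namespace Pool.Agent.Lib.MP_d11fee_pr

theorem qq_lt {n m : ℕ} (hm : 1 ≤ m) (hn : 1 ≤ n) {v w : ℝ} (hwv : w < v)
    (hv : (m:ℝ) * v ≤ n) : qq n m v < qq n m w := by
  have hm' : (1:ℝ) ≤ m := by exact_mod_cast hm
  have hn' : (1:ℝ) ≤ n := by exact_mod_cast hn
  have e : qq n m w - qq n m v = (v - w) * ((2 * m - 1) * n - (m - 1) * (m * v + m * w)) := by
    unfold qq; ring
  have h1 : (m:ℝ) * w ≤ n := by nlinarith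
  have h2 : ((m:ℝ) - 1) * (m * v + m * w) ≤ (m - 1) * (2 * n) :=
    mul_le_mul_of_nonneg_left (by linarith) (by linarith)
  have h3 : 0 < (v - w) * ((2 * m - 1) * n - (m - 1) * (m * v + m * w)) := by
    apply mul_pos (by linarith)
    nlinarith
  linarith

/-- derivative of `qq` -/
noncomputable def dq (n m : ℕ) (z : ℝ) : ℝ := (1 - 2 * m) * (n - m * z) - m * z

theorem hasDerivAt_qq (n m : ℕ) (z : ℝ) : HasDerivAt (qq n m) (dq n m z) z := by
  have h0 : HasDerivAt (fun z : ℝ => (n:ℝ) - m * z) (-(m * 1)) z :=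
    ((hasDerivAt_id z).const_mul (m:ℝ)).const_sub _
  have h1 := h0.pow 2
  have h2 := (hasDerivAt_id z).mul h0
  have h3 := (h1.add h2).sub_const (n:ℝ)
  refine HasDerivAt.congr_deriv h3 ?_
  unfold dq
  simp
  ring

theorem hasDerivAt_dq (n m : ℕ) (z : ℝ) : HasDerivAt (dq n m) (2 * m * (m - 1)) z := by
  have h0 : HasDerivAt (fun z : ℝ => (n:ℝ) - m * z) (-(m * 1)) z :=
    ((hasDerivAt_id z).const_mul (m:ℝ)).const_sub _
  have h1 := (h0.const_mul (1 - 2 * m : ℝ)).sub ((hasDerivAt_id z).const_mul (m:ℝ))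
  refine HasDerivAt.congr_deriv h1 ?_
  ring

/-- the weighted mean of logarithmic derivatives of `q` -/
noncomputable def NN (n m : ℕ) (x : ℝ) : ℝ :=
  x * (dq n m (vv x) / qq n m (vv x)) + (1 - x) * (dq n m (ww x) / qq n m (ww x))

noncomputable def rr (n m : ℕ) (z : ℝ) : ℝ :=
  (2 * m * (m - 1) * qq n m z - dq n m z * dq n m z) / qq n m z ^ 2

theorem hasDerivAt_NN (n m : ℕ) {x : ℝ} (h0 : 0 < x) (h1 : x < 1) (hv : qq n m (vv x) ≠ 0)
    (hw : qq n m (ww x) ≠ 0) :
    HasDerivAt (NN n m) (dq n m (vv x) / qq n m (vv x) - dq n m (ww x) / qq n m (ww x) +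
      x * (rr n m (vv x) * (1 / (1 - x))) + (1 - x) * (rr n m (ww x) * (-(1 / x)))) x := by
  have a : HasDerivAt (fun z => dq n m z / qq n m z) (rr n m (vv x)) (vv x) :=
    (hasDerivAt_dq n m _).div (hasDerivAt_qq n m _) hv
  have b : HasDerivAt (fun z => dq n m z / qq n m z) (rr n m (ww x)) (ww x) :=
    (hasDerivAt_dq n m _).div (hasDerivAt_qq n m _) hw
  have a1 : HasDerivAt (fun y => dq n m (vv y) / qq n m (vv y)) (rr n m (vv x) * (1 / (1 - x))) x :=
    a.comp x (hasDerivAt_vv h1)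
  have b1 : HasDerivAt (fun y => dq n m (ww y) / qq n m (ww y)) (rr n m (ww x) * (-(1 / x))) x :=
    b.comp x (hasDerivAt_ww h0)
  have c0 : HasDerivAt (fun y : ℝ => 1 - y) (-1) x := (hasDerivAt_id x).const_sub 1
  have c1 := ((hasDerivAt_id x).mul a1).add (c0.mul b1)
  refine HasDerivAt.congr_deriv c1 ?_
  simp only [id_eq]
  ring

theorem rr_eq (n m : ℕ) {z : ℝ} (h : qq n m z ≠ 0) :
    rr n m z = -((n ^ 2 + 4 * m * (m - 1) * n) / qq n m z ^ 2 + 2 * m * (m - 1) / qq n m z) := by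
  unfold rr
  field_simp
  unfold dq qq
  ring

theorem dq_neg {n m : ℕ} (hm : 1 ≤ m) {z : ℝ} (hz : 0 < z) (h : (m:ℝ) * z ≤ n) :
    dq n m z < 0 := by
  have hm' : (1:ℝ) ≤ m := by exact_mod_cast hm
  unfold dq
  have h1 : (1 - 2 * (m:ℝ)) * (n - m * z) ≤ 0 :=
    mul_nonpos_of_nonpos_of_nonneg (by linarith) (by linarith)
  have h2 : 0 < (m:ℝ) * z := by positivity
  linarith

/-- the logarithmic derivative of `q` is decreasing before the first root -/
theorem ratio_lt {n m : ℕ} (hm : 1 ≤ m) (hn : 1 ≤ n) {v w : ℝ} (hw : 0 < w) (hwv : w < v)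
    (hv : (m:ℝ) * v ≤ n) (hq : 0 < qq n m v) :
    dq n m v / qq n m v < dq n m w / qq n m w := by
  have hm' : (1:ℝ) ≤ m := by exact_mod_cast hm
  have hn' : (1:ℝ) ≤ n := by exact_mod_cast hn
  have hq2 := qq_lt hm hn hwv hv
  have hqw : 0 < qq n m w := by linarith
  rw [div_lt_div_iff₀ hq hqw]
  have hd : dq n m v < 0 := dq_neg hm (by linarith) hv
  have e : dq n m v * qq n m w - dq n m w * qq n m v =
      -(v - w) * ((n ^ 2 + 4 * m * (m - 1) * n) + 2 * m * (m - 1) * qq n m v) +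
      (v - w) ^ 2 * (m * (m - 1)) * dq n m v := by
    unfold dq qq; ring
  have h1 : 0 < (v - w) * ((n ^ 2 + 4 * m * (m - 1) * n) + 2 * m * (m - 1) * qq n m v) := by
    apply mul_pos (by linarith)
    have : 0 ≤ 4 * (m:ℝ) * (m - 1) * n := by
      have : 0 ≤ (m:ℝ) - 1 := by linarith
      positivity
    have : 0 ≤ 2 * (m:ℝ) * (m - 1) * qq n m v := by
      have : 0 ≤ (m:ℝ) - 1 := by linarith
      positivity
    positivity
  have h2 : (v - w) ^ 2 * ((m:ℝ) * (m - 1)) * dq n m v ≤ 0 := by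
    apply mul_nonpos_of_nonneg_of_nonpos _ hd.le
    have : 0 ≤ (m:ℝ) - 1 := by linarith
    positivity
  linarith

theorem vv_mono {x y : ℝ} (h : x < y) (hy : y < 1) : vv x < vv y := by
  unfold vv
  have := Real.log_lt_log (x := 1 - y) (y := 1 - x) (by linarith) (by linarith)
  linarith

theorem NN_strictAnti {n m : ℕ} (hm : 1 ≤ m) (hn : 1 ≤ n) {y : ℝ} (hy1 : y < 1)
    (hmy : (m:ℝ) * vv y ≤ n) (hq : 0 < qq n m (vv y)) :
    StrictAntiOn (NN n m) (Ioo (1 / 2) y) := by
  have hm' : (1:ℝ) ≤ m := by exact_mod_cast hm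
  have hn' : (1:ℝ) ≤ n := by exact_mod_cast hn
  have facts : ∀ z ∈ Ioo (1 / 2) y, (m:ℝ) * vv z ≤ n ∧ 0 < qq n m (vv z) ∧ 0 < qq n m (ww z) := by
    intro z hz
    have h1 : vv z < vv y := vv_mono hz.2 hy1
    have h2 : (m:ℝ) * vv z ≤ n := by nlinarith
    have h3 : 0 < qq n m (vv z) := hq.trans (qq_lt hm hn h1 hmy)
    have h4 := ww_lt_vv hz.1 (by linarith [hz.2])
    exact ⟨h2, h3, h3.trans (qq_lt hm hn h4 h2)⟩
  have hd : ∀ z ∈ Ioo (1 / 2) y, HasDerivAt (NN n m) (dq n m (vv z) / qq n m (vv z) -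
      dq n m (ww z) / qq n m (ww z) +
      z * (rr n m (vv z) * (1 / (1 - z))) + (1 - z) * (rr n m (ww z) * (-(1 / z)))) z := by
    intro z hz
    obtain ⟨_, h2, h3⟩ := facts z hz
    exact hasDerivAt_NN n m (by linarith [hz.1]) (by linarith [hz.2]) h2.ne' h3.ne'
  apply strictAntiOn_of_deriv_neg (convex_Ioo _ _)
  · intro z hz
    exact (hd z hz).continuousAt.continuousWithinAt
  · intro z hz
    rw [interior_Ioo] at hz
    rw [(hd z hz).deriv]
    obtain ⟨h1, h2, h3⟩ := facts z hz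
    have hz0 : 0 < z := by linarith [hz.1]
    have hz1 : z < 1 := by linarith [hz.2]
    have hz1' : 0 < 1 - z := by linarith
    have hwz := ww_pos hz0 hz1
    have hwv := ww_lt_vv hz.1 hz1
    have r1 := ratio_lt hm hn hwz hwv h1 h2
    have q1 := qq_lt hm hn hwv h1
    have hm1 : 0 ≤ (m:ℝ) - 1 := by linarith
    -- `rr(v) ≤ rr(w) < 0`
    have rw0 : rr n m (ww z) ≤ 0 := by
      rw [rr_eq n m h3.ne']
      have : 0 ≤ ((n:ℝ) ^ 2 + 4 * m * (m - 1) * n) / qq n m (ww z) ^ 2 + 2 * m * (m - 1) / qq n m (ww z) := by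
        positivity
      linarith
    have rvw : rr n m (vv z) ≤ rr n m (ww z) := by
      rw [rr_eq n m h3.ne', rr_eq n m h2.ne']
      have a1 : ((n:ℝ) ^ 2 + 4 * m * (m - 1) * n) / qq n m (ww z) ^ 2 ≤
          ((n:ℝ) ^ 2 + 4 * m * (m - 1) * n) / qq n m (vv z) ^ 2 := by
        apply div_le_div_of_nonneg_left (by positivity) (by positivity)
        gcongr
      have a2 : 2 * (m:ℝ) * (m - 1) / qq n m (ww z) ≤ 2 * m * (m - 1) / qq n m (vv z) := by
        apply div_le_div_of_nonneg_left (by positivity) (by positivity) q1.le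
      linarith
    have t1 : 1 ≤ z / (1 - z) := by rw [le_div_iff₀ hz1']; linarith [hz.1]
    have t2 : (1 - z) / z ≤ 1 := by rw [div_le_one hz0]; linarith [hz.1]
    have u1 : z * (rr n m (vv z) * (1 / (1 - z))) ≤ rr n m (vv z) := by
      have : z * (rr n m (vv z) * (1 / (1 - z))) = rr n m (vv z) * (z / (1 - z)) := by ring
      rw [this]
      nlinarith
    have u2 : (1 - z) * (rr n m (ww z) * (-(1 / z))) ≤ - rr n m (ww z) := by
      have : (1 - z) * (rr n m (ww z) * (-(1 / z))) = -(rr n m (ww z) * ((1 - z) / z)) := by ring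
      rw [this]
      nlinarith
    linarith

theorem S2_neg_iff (n m : ℕ) {x : ℝ} (h0 : 0 < x) (h1 : x < 1) :
    S2 n m x < 0 ↔ exp (TT n m x) * kap x ^ 2 * qq n m (vv x) < qq n m (ww x) := by
  have hw := ww_pos h0 h1
  have hp := PP_pos n m (x := 1 - x) (by linarith) (by linarith)
  have hq : 0 < PP n m (1 - x) / (x * ww x) ^ 2 := by positivity
  rw [S2_eq n m h0 h1, mul_neg_iff]
  constructor
  · rintro (⟨-, h⟩ | ⟨h, -⟩)
    · linarith
    · linarith
  · intro h; left; exact ⟨hq, by linarith⟩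

theorem S2_pos_iff (n m : ℕ) {x : ℝ} (h0 : 0 < x) (h1 : x < 1) :
    0 < S2 n m x ↔ qq n m (ww x) < exp (TT n m x) * kap x ^ 2 * qq n m (vv x) := by
  have hw := ww_pos h0 h1
  have hp := PP_pos n m (x := 1 - x) (by linarith) (by linarith)
  have hq : 0 < PP n m (1 - x) / (x * ww x) ^ 2 := by positivity
  rw [S2_eq n m h0 h1, mul_pos_iff_of_pos_left hq, sub_pos]

/-- (C2), part A: before the first root of `q`. -/
theorem S2_neg_A (n m : ℕ) (hn : 2 ≤ n) (hm : 1 ≤ m) {x y : ℝ} (hx : 1 / 2 < x) (hxy : x < y)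
    (hy : y < 1) (hmy : (m:ℝ) * vv y ≤ n) (hq : 0 < qq n m (vv y))
    (h : S2 n m x ≤ 0) : S2 n m y < 0 := by
  have hn1 : 1 ≤ n := by omega
  have hn' : (2:ℝ) ≤ n := by exact_mod_cast hn
  have hm' : (1:ℝ) ≤ m := by exact_mod_cast hm
  have facts : ∀ z, 1 / 2 ≤ z → z ≤ y → (m:ℝ) * vv z ≤ n ∧ 0 < qq n m (vv z) ∧ 0 < qq n m (ww z) := by
    intro z hz hzy
    have h1 : vv z ≤ vv y := by
      rcases hzy.eq_or_lt with rfl | hzy
      · exact le_rfl
      · exact (vv_mono hzy hy).le
    have h2 : (m:ℝ) * vv z ≤ n := by nlinarith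
    have h3 : 0 < qq n m (vv z) := by
      rcases h1.eq_or_lt with h1 | h1
      · rw [h1]; exact hq
      · exact hq.trans (qq_lt hm hn1 h1 hmy)
    have h4 : ww z ≤ vv z := by
      rcases hz.eq_or_lt with rfl | hz
      · unfold vv ww; norm_num
      · exact (ww_lt_vv hz (by linarith)).le
    refine ⟨h2, h3, ?_⟩
    rcases h4.eq_or_lt with h4 | h4
    · rw [h4]; exact h3
    · exact h3.trans (qq_lt hm hn1 h4 h2)
  let T2 : ℝ → ℝ := fun z => TT n m z + 2 * Real.log (kap z) + (Real.log (qq n m (vv z)) -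
    Real.log (qq n m (ww z)))
  let X : ℝ → ℝ := fun z => (n - 2) * MM z - (m - 2) + NN n m z
  have hd : ∀ z, 1 / 2 ≤ z → z ≤ y → HasDerivAt T2 (X z / (z * (1 - z))) z := by
    intro z hz hzy
    obtain ⟨h1, h2, h3⟩ := facts z hz hzy
    have hz0 : 0 < z := by linarith
    have hz1 : z < 1 := by linarith
    have hz1' : 0 < 1 - z := by linarith
    have a1 := hasDerivAt_TT n m hz0 hz1
    have a2 := (hasDerivAt_kap hz0 hz1).const_mul 2
    have a3 : HasDerivAt (fun y => qq n m (vv y)) (dq n m (vv z) * (1 / (1 - z))) z :=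
      (hasDerivAt_qq n m _).comp z (hasDerivAt_vv hz1)
    have a4 : HasDerivAt (fun y => qq n m (ww y)) (dq n m (ww z) * (-(1 / z))) z :=
      (hasDerivAt_qq n m _).comp z (hasDerivAt_ww hz0)
    have a5 := (a1.add a2).add ((a3.log h2.ne').sub (a4.log h3.ne'))
    refine HasDerivAt.congr_deriv a5 ?_
    have hv := vv_pos hz0 hz1
    have hw := ww_pos hz0 hz1
    simp only [X]
    unfold NN MM
    field_simp
    ring
  have hXanti : ∀ ξ ζ, 1 / 2 < ξ → ξ < ζ → ζ < y → X ζ < X ξ := by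
    intro ξ ζ h1 h2 h3
    have b1 := MM_strictAnti ⟨h1, by linarith⟩ ⟨by linarith, by linarith⟩ h2
    have b2 := NN_strictAnti hm hn1 hy hmy hq ⟨h1, by linarith⟩ ⟨by linarith, h3⟩ h2
    simp only [X]
    have b3 : ((n:ℝ) - 2) * MM ζ ≤ (n - 2) * MM ξ := mul_le_mul_of_nonneg_left b1.le (by linarith)
    linarith
  have hhalf : T2 (1 / 2) = 0 := by
    have e1 : vv (1 / 2) = ww (1 / 2) := by unfold vv ww; norm_num
    have e2 : Real.log (kap (1 / 2)) = 0 := by
      rw [log_kap (by norm_num) (by norm_num), e1]; ring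
    simp only [T2]
    rw [TT_half, e1, e2]; ring
  have hx0 : 0 < x := by linarith
  have hx1 : x < 1 := by linarith
  have hy0 : 0 < y := by linarith
  have hkx := kap_pos hx0 hx1
  have hky := kap_pos hy0 hy
  have hTx : T2 x ≤ 0 := by
    obtain ⟨_, h2, h3⟩ := facts x hx.le hxy.le
    have h4 : exp (TT n m x) * kap x ^ 2 * qq n m (vv x) ≤ qq n m (ww x) := by
      by_contra hc
      push Not at hc
      have := (S2_pos_iff n m hx0 hx1).2 hc
      linarith
    have h5 := Real.log_le_log (by positivity) h4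
    rw [Real.log_mul (by positivity) h2.ne', Real.log_mul (by positivity) (by positivity),
      Real.log_exp, Real.log_pow] at h5
    simp only [T2]
    push_cast at h5
    linarith
  obtain ⟨ξ, hξ, hξ'⟩ := exists_hasDerivAt_eq_slope T2 (fun z => X z / (z * (1 - z))) hx
    (fun z hz => (hd z hz.1 (by linarith [hz.2])).continuousAt.continuousWithinAt)
    (fun z hz => hd z hz.1.le (by linarith [hz.2]))
  rw [hhalf, sub_zero] at hξ'
  have hXξ : X ξ ≤ 0 := by
    have h1 : T2 x / (x - 1 / 2) ≤ 0 := div_nonpos_of_nonpos_of_nonneg hTx (by linarith)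
    by_contra hc
    push Not at hc
    have := div_pos hc (mul_pos (by linarith [hξ.1]) (by linarith [hξ.2]) : 0 < ξ * (1 - ξ))
    linarith
  obtain ⟨ζ, hζ, hζ'⟩ := exists_hasDerivAt_eq_slope T2 (fun z => X z / (z * (1 - z))) hxy
    (fun z hz => (hd z (by linarith [hz.1]) hz.2).continuousAt.continuousWithinAt)
    (fun z hz => hd z (by linarith [hz.1]) hz.2.le)
  have hXζ : X ζ < 0 := lt_of_lt_of_le (hXanti ξ ζ hξ.1 (by linarith [hξ.2, hζ.1]) hζ.2) hXξ
  have h6 : (T2 y - T2 x) / (y - x) < 0 := by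
    rw [← hζ']
    exact div_neg_of_neg_of_pos hXζ (mul_pos (by linarith [hζ.1]) (by linarith [hζ.2]))
  have h7 : T2 y < 0 := by
    have : T2 y - T2 x < 0 := by
      by_contra hc
      push Not at hc
      have := div_nonneg hc (by linarith : 0 ≤ y - x)
      linarith
    linarith
  obtain ⟨_, h2, h3⟩ := facts y (by linarith) le_rfl
  rw [S2_neg_iff n m hy0 hy]
  rw [← Real.log_lt_log_iff (by positivity) h3, Real.log_mul (by positivity) h2.ne',
    Real.log_mul (by positivity) (by positivity), Real.log_exp, Real.log_pow]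
  simp only [T2] at h7
  push_cast
  linarith

theorem log_two_lt_vv {y : ℝ} (h0 : 1 / 2 < y) (h1 : y < 1) : 2 / 3 < vv y := by
  have h := vv_mono h0 h1
  have e : vv (1 / 2) = Real.log 2 := by
    unfold vv
    have : (1:ℝ) - 1 / 2 = 2⁻¹ := by norm_num
    rw [this, Real.log_inv]; ring
  have := Real.log_two_gt_d9
  rw [e] at h
  linarith

/-- (C2), part B1 -/
theorem S2_neg_B1 (n m : ℕ) (hn : 1 ≤ n) (hm : 1 ≤ m) {y : ℝ} (h0 : 1 / 2 < y)
    (hy : y < 1) (hmy : (m:ℝ) * vv y ≤ n) (hq : qq n m (vv y) ≤ 0) : S2 n m y < 0 := by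
  have hn' : (1:ℝ) ≤ n := by exact_mod_cast hn
  have hm' : (1:ℝ) ≤ m := by exact_mod_cast hm
  have hy0 : 0 < y := by linarith
  have hv := vv_pos hy0 hy
  have hw := ww_pos hy0 hy
  have hwv := ww_lt_vv h0 hy
  have hk := kap_pos hy0 hy
  have hqq := qq_lt hm hn hwv hmy
  have hln2 := log_two_lt_vv h0 hy
  rw [S2_neg_iff n m hy0 hy]
  by_cases hqw : 0 ≤ qq n m (ww y)
  · rcases hq.eq_or_lt with hq | hq
    · rw [hq, mul_zero]; linarith
    · have : exp (TT n m y) * kap y ^ 2 * qq n m (vv y) < 0 :=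
        mul_neg_of_pos_of_neg (by positivity) hq
      linarith
  · push Not at hqw
    have hqv : qq n m (vv y) < 0 := by linarith
    suffices hs : 0 < TT n m y + 2 * Real.log (kap y) + (Real.log (-qq n m (vv y)) -
        Real.log (-qq n m (ww y))) by
      have h1 : -qq n m (ww y) < exp (TT n m y) * kap y ^ 2 * (-qq n m (vv y)) := by
        rw [← Real.log_lt_log_iff (by linarith) (mul_pos (by positivity) (by linarith)),
          Real.log_mul (by positivity) (by linarith), Real.log_mul (by positivity) (by positivity),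
          Real.log_exp, Real.log_pow]
        push_cast
        linarith
      linarith
    rw [log_kap hy0 hy]
    set v := vv y
    set w := ww y
    have hlog : TT n m y = n * (Real.log v - Real.log w) - m * (v - w) := rfl
    rw [hlog]
    rcases Nat.lt_or_ge n 2 with hn2 | hn2
    · -- `n = 1`
      have hn1 : n = 1 := by omega
      subst hn1
      have hm1 : m = 1 := by
        by_contra hc
        have : 2 ≤ m := by omega
        have : (2:ℝ) ≤ m := by exact_mod_cast this
        push_cast at hmy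
        nlinarith
      subst hm1
      have e1 : -qq 1 1 v = v := by unfold qq; push_cast; ring
      have e2 : -qq 1 1 w = w := by unfold qq; push_cast; ring
      rw [e1, e2]
      push_cast
      linarith
    · have hn2' : (2:ℝ) ≤ n := by exact_mod_cast hn2
      have h1 : (v - w) / v ≤ Real.log v - Real.log w := by
        have := Real.log_le_sub_one_of_pos (div_pos hw hv)
        rw [Real.log_div hw.ne' hv.ne'] at this
        have e : (v - w) / v = 1 - w / v := by field_simp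
        rw [e]; linarith
      have h2 : (qq n m w - qq n m v) / (-qq n m v) ≤ Real.log (-qq n m v) - Real.log (-qq n m w) := by
        have hA : 0 < -qq n m v := by linarith
        have hB : 0 < -qq n m w := by linarith
        have := Real.log_le_sub_one_of_pos (div_pos hB hA)
        rw [Real.log_div hB.ne' hA.ne'] at this
        have e : (qq n m w - qq n m v) / (-qq n m v) = 1 - (-qq n m w) / (-qq n m v) := by
          have e0 : qq n m w - qq n m v = (-qq n m v) - (-qq n m w) := by ring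
          rw [e0, sub_div, div_self hA.ne']
        rw [e]; linarith
      have h3 : v - w ≤ (qq n m w - qq n m v) / (-qq n m v) := by
        have hA : 0 < -qq n m v := by linarith
        rw [le_div_iff₀ hA]
        have e : qq n m w - qq n m v = (v - w) * ((2 * m - 1) * n - (m - 1) * (m * v + m * w)) := by
          unfold qq; ring
        rw [e]
        apply mul_le_mul_of_nonneg_left _ (by linarith)
        have h5 : (m:ℝ) * w ≤ n := by nlinarith
        have h6 : ((m:ℝ) - 1) * (m * v + m * w) ≤ (m - 1) * (2 * n) :=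
          mul_le_mul_of_nonneg_left (by linarith) (by linarith)
        have h7 : -qq n m v ≤ n := by
          unfold qq
          have : 0 ≤ v * (n - m * v) := mul_nonneg hv.le (by linarith)
          nlinarith [sq_nonneg ((n:ℝ) - m * v)]
        nlinarith
      have h4 : ((n:ℝ) - 2) * ((v - w) / v) ≤ (n - 2) * (Real.log v - Real.log w) :=
        mul_le_mul_of_nonneg_left h1 (by linarith)
      have h5 : 0 < ((n:ℝ) - 2) * ((v - w) / v) - (m - 2) * (v - w) + (v - w) := by
        have e : ((n:ℝ) - 2) * ((v - w) / v) - (m - 2) * (v - w) + (v - w) =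
          (v - w) * ((n - m * v) + (3 * v - 2)) / v := by field_simp; ring
        rw [e]
        apply div_pos _ hv
        apply mul_pos (by linarith)
        linarith
      linarith

/-- (C2), part B2 -/
theorem S2_neg_B2 (n m : ℕ) (hm : 1 ≤ m) {y : ℝ} (h0 : 1 / 2 < y)
    (hy : y < 1) (hmy : (n:ℝ) < m * vv y) (hT : 0 < TT n m y) (hS : 0 < S1 n m y) :
    S2 n m y < 0 := by
  have hm' : (1:ℝ) ≤ m := by exact_mod_cast hm
  have hy0 : 0 < y := by linarith
  have hv := vv_pos hy0 hy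
  have hw := ww_pos hy0 hy
  have hwv := ww_lt_vv h0 hy
  have hk := kap_pos hy0 hy
  have hk1 := kap_lt_one h0 hy
  have hI := key_ineq' h0 hy
  rw [S2_neg_iff n m hy0 hy]
  rw [S1_pos_iff n m hy0 hy] at hS
  have hexp : 1 < exp (TT n m y) := Real.one_lt_exp_iff.2 hT
  set r := exp (TT n m y)
  set κ := kap y
  set v := vv y
  set w := ww y
  obtain ⟨a, ha⟩ : ∃ a : ℝ, a = m * v - n := ⟨_, rfl⟩
  obtain ⟨b, hb⟩ : ∃ b : ℝ, b = n - m * w := ⟨_, rfl⟩
  have ha0 : 0 < a := by rw [ha]; linarith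
  rw [← ha, ← hb] at hS
  have hab : κ * a < b := by
    have : κ * a < r * κ * a := by
      have := mul_pos hk ha0
      nlinarith
    linarith
  have hb0 : 0 < b := lt_trans (mul_pos hk ha0) hab
  have hn : (n:ℝ) * (v - w) = a * w + b * v := by rw [ha, hb]; ring
  have hmm : (m:ℝ) * (v - w) = a + b := by rw [ha, hb]; ring
  have hE := alg_E hw hwv hk hk1 hI ha0 hab.le hn hmm hm'
  have hB := alg_B hw hwv hk hk1 hI ha0 hab hn
  have e1 : qq n m v = -(n + v * a - a ^ 2) := by unfold qq; rw [ha]; ring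
  have e2 : qq n m w = -(n - w * b - b ^ 2) := by unfold qq; rw [hb]; ring
  rw [e1, e2]
  by_cases hq : 0 ≤ n + v * a - a ^ 2
  · have : κ ^ 2 * (n + v * a - a ^ 2) ≤ r * κ ^ 2 * (n + v * a - a ^ 2) := by
      have h1 : 0 ≤ κ ^ 2 * (n + v * a - a ^ 2) := mul_nonneg (by positivity) hq
      nlinarith
    linarith
  · push Not at hq
    -- `κ (n + v a - a²)/a > (n - w b - b²)/b`
    have h1 : (n - w * b - b ^ 2) / b < κ * (n + v * a - a ^ 2) / a := by
      have e3 : κ * (n + v * a - a ^ 2) / a - (n - w * b - b ^ 2) / b =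
        (w + κ * v + κ * n / a - n / b) + (b - κ * a) := by
        field_simp; ring
      linarith
    have h2 : b * (κ * (n + v * a - a ^ 2) / a) < r * κ ^ 2 * (n + v * a - a ^ 2) := by
      have e4 : r * κ ^ 2 * (n + v * a - a ^ 2) = (r * κ * a) * (κ * (n + v * a - a ^ 2) / a) := by
        field_simp
      rw [e4]
      have h3 : κ * (n + v * a - a ^ 2) / a < 0 :=
        div_neg_of_neg_of_pos (mul_neg_of_pos_of_neg hk hq) ha0
      nlinarith
    have h4 : n - w * b - b ^ 2 < b * (κ * (n + v * a - a ^ 2) / a) := by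
      have := mul_lt_mul_of_pos_left h1 hb0
      rwa [mul_div_cancel₀ _ hb0.ne'] at this
    linarith

/-- (C2) -/
theorem S2_neg (n m : ℕ) (hn : 1 ≤ n) (hm : 1 ≤ m) {x y : ℝ} (hx : 1 / 2 < x) (hxy : x < y)
    (hy : y < 1) (hT : 0 < TT n m y) (hS : 0 < S1 n m y) (h : S2 n m x ≤ 0) : S2 n m y < 0 := by
  rcases lt_or_ge (n:ℝ) (m * vv y) with hmy | hmy
  · exact S2_neg_B2 n m hm (by linarith) hy hmy hT hS
  · rcases le_or_gt (qq n m (vv y)) 0 with hq | hq
    · exact S2_neg_B1 n m hn hm (by linarith) hy hmy hq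
    · rcases Nat.lt_or_ge n 2 with hn2 | hn2
      · exfalso
        have hn1 : n = 1 := by omega
        subst hn1
        have hv := vv_pos (by linarith : (0:ℝ) < y) hy
        have hm' : (1:ℝ) ≤ m := by exact_mod_cast hm
        have e : qq 1 m (vv y) = vv y * ((1 - 2 * m) + (m - 1) * (m * vv y)) := by
          unfold qq; push_cast; ring
        rw [e] at hq
        have h1 := (mul_pos_iff_of_pos_left hv).1 hq
        push_cast at hmy
        nlinarith
      · exact S2_neg_A n m hn2 hm hx hxy hy hmy hq h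

end Pool.Agent.Lib.MP_d11fee_pr
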