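import Pool.Agent.Lib.MP_d11fee_pr.Peak

/-!
# The symmetric class
-/

open Set Real MeasureTheory Filter Topology

namespace Pool.Agent.Lib.MP_d11fee_pr

/-- monotone weight against a function with sign pattern `+ -` -/
theorem integral_mono_pattern {g h : ℝ → ℝ} (hg : MonotoneOn g (Ioo (1/2:ℝ) 1))
    {z : ℝ} (hz : z ∈ Ioo (1/2:ℝ) 1) (hgz : 0 ≤ g z)
    (h1 : ∀ x ∈ Ioo (1/2:ℝ) 1, x ≤ z → 0 ≤ h x) (h2 : ∀ x ∈ Ioo (1/2:ℝ) 1, z ≤ x → h x ≤ 0)
    (hgh : IntegrableOn (fun x => g x * h x) (Ioo (1/2:ℝ) 1)) (hh : IntegrableOn h (Ioo (1/2:ℝ) 1))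
    (hI : ∫ x in Ioo (1/2:ℝ) 1, h x ≤ 0) :
    ∫ x in Ioo (1/2:ℝ) 1, g x * h x ≤ 0 := by
  have h3 : ∫ x in Ioo (1/2:ℝ) 1, g x * h x ≤ ∫ x in Ioo (1/2:ℝ) 1, g z * h x := by
    apply setIntegral_mono_on hgh (hh.const_mul _) measurableSet_Ioo
    intro x hx
    rcases le_total x z with hxz | hxz
    · exact mul_le_mul_of_nonneg_right (hg hx hz hxz) (h1 x hx hxz)
    · exact mul_le_mul_of_nonpos_right (hg hz hx hxz) (h2 x hx hxz)
  rw [integral_const_mul] at h3
  exact h3.trans (mul_nonpos_of_nonneg_of_nonpos hgz hI)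

theorem integrableOn_s {k : ℕ} (n : ℕ) (hk : 2 ≤ k) : IntegrableOn (s k n) (Icc (1/2:ℝ) 1) :=
  ((continuousOn_s n hk).mono (Icc_subset_Icc (by norm_num) le_rfl)).integrableOn_Icc

theorem intervalIntegrable_s {k : ℕ} (n : ℕ) (hk : 2 ≤ k) {a b : ℝ} (ha : 0 ≤ a) (hab : a ≤ b)
    (hb : b ≤ 1) : IntervalIntegrable (s k n) volume a b := by
  apply ContinuousOn.intervalIntegrable_of_Icc hab
  exact (continuousOn_s n hk).mono (Icc_subset_Icc ha hb)

theorem integral_s {k : ℕ} (n : ℕ) (hk : 1 ≤ k) {a : ℝ} (ha : 0 ≤ a) (ha1 : a ≤ 1) :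
    ∫ x in a..1, s k n x = 1 - F k n a - F k n (1 - a) := by
  have i1 : IntervalIntegrable (f k n) volume 0 1 :=
    (intervalIntegrable_iff_integrableOn_Ioc_of_le zero_le_one).2 (integrableOn_f n hk)
  have i2 : IntervalIntegrable (f k n) volume a 1 :=
    i1.mono_set (by rw [uIcc_of_le ha1, uIcc_of_le zero_le_one]; exact Icc_subset_Icc ha le_rfl)
  have i3 : IntervalIntegrable (f k n) volume 0 a :=
    i1.mono_set (by rw [uIcc_of_le ha, uIcc_of_le zero_le_one]; exact Icc_subset_Icc le_rfl ha1)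
  have i4 : IntervalIntegrable (f k n) volume 0 (1 - a) :=
    i1.mono_set (by
      rw [uIcc_of_le (by linarith), uIcc_of_le zero_le_one]; exact Icc_subset_Icc le_rfl (by linarith))
  have i5 : IntervalIntegrable (fun x => f k n (1 - x)) volume a 1 := by
    have h6 : IntervalIntegrable (fun x => f k n (1 - x)) volume (1 - 0) (1 - (1 - a)) :=
      i4.comp_sub_left 1
    have h7 := h6.symm
    simpa using h7
  have e1 : ∫ x in a..1, s k n x = (∫ x in a..1, f k n x) - ∫ x in a..1, f k n (1 - x) := by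
    unfold s
    exact intervalIntegral.integral_sub i2 i5
  have e2 : ∫ x in a..1, f k n (1 - x) = ∫ x in (1 - 1)..(1 - a), f k n x :=
    intervalIntegral.integral_comp_sub_left (f k n) 1
  have e3 := intervalIntegral.integral_add_adjacent_intervals i3 i2
  rw [integral_f_one n hk] at e3
  rw [e1, e2]
  unfold F
  rw [sub_self]
  linarith

theorem integral_s_half {k : ℕ} (n : ℕ) (hk : 1 ≤ k) :
    ∫ x in (1/2:ℝ)..1, s k n x = 1 - 2 * F k n (1 / 2) := by
  rw [integral_s n hk (by norm_num) (by norm_num)]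
  have : (1:ℝ) - 1 / 2 = 1 / 2 := by norm_num
  rw [this]; ring

theorem quantile_sub_mono {ν : Measure ℝ} (h : SymParent ν) :
    MonotoneOn (fun x => quantile ν x - mean ν) (Ioo (1/2:ℝ) 1) := by
  intro x hx y hy hxy
  have := quantile_monotoneOn h ⟨by linarith [hx.1], hx.2⟩ ⟨by linarith [hy.1], hy.2⟩ hxy
  simp only
  linarith

theorem memLp_quantile_sub {ν : Measure ℝ} (h : SymParent ν) :
    MemLp (fun x => quantile ν x - mean ν) 2 (volume.restrict (Ioo (1/2 : ℝ) 1)) := by
  have : IsFiniteMeasure (volume.restrict (Ioo (0 : ℝ) 1)) := by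
    constructor
    simp
  have hL0 : MemLp (fun x => quantile ν x - mean ν) 2 (volume.restrict (Ioo (0 : ℝ) 1)) :=
    (memLp_quantile h).sub (memLp_const _)
  exact hL0.mono_measure (Measure.restrict_mono (Ioo_subset_Ioo (by norm_num) le_rfl) le_rfl)

/-- Degenerate case, upper bound. -/
theorem ratio_nonpos {k n : ℕ} (hk : 2 ≤ k) (hn : 1 ≤ n) (hF : 1 / 2 ≤ F k n (1 / 2))
    {ν : Measure ℝ} (h : SymParent ν) : ratio k n ν ≤ 0 := by
  have hgs : Integrable (fun x => (quantile ν x - mean ν) * s k n x)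
      (volume.restrict (Ioo (1/2:ℝ) 1)) :=
    (memLp_quantile_sub h).integrable_mul (memLp_s n (by omega))
  have hsI : ∫ x in Ioo (1/2:ℝ) 1, s k n x ≤ 0 := by
    rw [← integral_Ioc_eq_integral_Ioo, ← intervalIntegral.integral_of_le (by norm_num),
      integral_s_half n (by omega)]
    linarith
  have hs0 : IntegrableOn (s k n) (Ioo (1/2:ℝ) 1) := (integrableOn_s n hk).mono_set Ioo_subset_Icc_self
  have key : ∫ x in Ioo (1/2:ℝ) 1, (quantile ν x - mean ν) * s k n x ≤ 0 := by
    by_cases hpos : ∃ x ∈ Ioo (1/2:ℝ) 1, 0 < s k n x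
    · obtain ⟨c, hc, hsc, -, -, -, -⟩ := exists_peak hk hn hpos
      -- a point where `s ≤ 0`
      obtain ⟨x1, hx1, hsx1⟩ : ∃ x ∈ Ioo (1/2:ℝ) 1, s k n x ≤ 0 := by
        by_contra hcon
        push Not at hcon
        have h1 : 0 < ∫ x in Ioo (1/2:ℝ) 1, s k n x := by
          rw [setIntegral_pos_iff_support_of_nonneg_ae]
          · have : Function.support (s k n) ∩ Ioo (1/2:ℝ) 1 = Ioo (1/2:ℝ) 1 := by
              apply inter_eq_right.2
              intro x hx
              exact (hcon x hx).ne'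
            rw [this, Real.volume_Ioo]; norm_num
          · filter_upwards [ae_restrict_mem measurableSet_Ioo] with x hx
            exact (hcon x hx).le
          · exact hs0
        linarith
      have hcx1 : c < x1 := by
        by_contra hcon
        push Not at hcon
        have := s_nonneg_of_exists hk hn hx1.1 hcon hc.2 hsc
        linarith
      obtain ⟨z, hz, hsz⟩ := intermediate_value_Icc' hcx1.le
        ((continuousOn_s n hk).mono (Icc_subset_Icc (by linarith [hc.1]) hx1.2.le))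
        (show (0:ℝ) ∈ Icc (s k n x1) (s k n c) from ⟨hsx1, hsc.le⟩)
      have hz' : z ∈ Ioo (1/2:ℝ) 1 := ⟨by linarith [hc.1, hz.1], by linarith [hz.2, hx1.2]⟩
      refine integral_mono_pattern (quantile_sub_mono h) hz' ?_ ?_ ?_ hgs hs0 hsI
      · have := mean_le_quantile h hz'; linarith
      · intro x hx hxz
        rcases hxz.eq_or_lt with rfl | hxz
        · exact hsz.ge
        · by_contra hcon
          push Not at hcon
          have := s_neg hk hn hx.1 hxz hz'.2 hcon.le
          linarith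
      · intro x hx hzx
        rcases hzx.eq_or_lt with rfl | hzx
        · exact hsz.le
        · exact (s_neg hk hn hz'.1 hzx hx.2 hsz.le).le
    · push Not at hpos
      apply setIntegral_nonpos measurableSet_Ioo
      intro x hx
      exact mul_nonpos_of_nonneg_of_nonpos (by have := mean_le_quantile h hx; linarith) (hpos x hx)
  have h2 := ratio_le n (by omega : 1 ≤ k) h (u := fun _ => 0) (MemLp.zero' ) (by simpa using key)
  simpa using h2

/-- the defining property of the break point in the symmetric class -/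
def BreakSym (k n : ℕ) (β : ℝ) : Prop :=
  β ∈ Ioo (1/2:ℝ) 1 ∧ 0 < s k n β ∧ (1 - β) * s k n β = 1 - F k n β - F k n (1 - β)

theorem breakSym_lt {k n : ℕ} (hk : 2 ≤ k) {c : ℝ}
    (hdec : ∀ x y, c ≤ x → x < y → y < 1 → s k n y < max (s k n x) 0) {β : ℝ}
    (hβ : BreakSym k n β) : β < c := by
  obtain ⟨h1, h2, h3⟩ := hβ
  by_contra hcon
  push Not at hcon
  rw [← integral_s n (by omega) (by linarith [h1.1]) h1.2.le] at h3
  have h4 : ∫ x in β..1, s k n x < ∫ x in β..1, (fun _ => s k n β) x := by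
    apply intervalIntegral.integral_lt_integral_of_continuousOn_of_le_of_exists_lt h1.2
      ((continuousOn_s n hk).mono (Icc_subset_Icc (by linarith [h1.1]) le_rfl))
      continuousOn_const
    · intro x hx
      rcases hx.2.eq_or_lt with rfl | hx1
      · -- limit at one
        have hle : ∀ y ∈ Ioo β 1, s k n y ≤ s k n β := by
          intro y hy
          have := hdec β y hcon hy.1 hy.2
          rw [max_eq_left h2.le] at this
          exact this.le
        have hcw : ContinuousWithinAt (s k n) (Ioo β 1) 1 :=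
          ((continuousOn_s n hk) 1 ⟨by norm_num, le_rfl⟩).mono
            (fun y hy => ⟨by linarith [hy.1, h1.1], hy.2.le⟩)
        have hne : (𝓝[Ioo β 1] (1:ℝ)).NeBot := by
          rw [nhdsWithin_Ioo_eq_nhdsLT h1.2]; infer_instance
        exact le_of_tendsto hcw (by filter_upwards [self_mem_nhdsWithin] with y hy; exact hle y hy)
      · have := hdec β x hcon hx.1 hx1
        rw [max_eq_left h2.le] at this
        exact this.le
    · refine ⟨(β + 1) / 2, ⟨by linarith [h1.2], by linarith [h1.2]⟩, ?_⟩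
      have := hdec β ((β + 1) / 2) hcon (by linarith [h1.2]) (by linarith [h1.2])
      rwa [max_eq_left h2.le] at this
  rw [intervalIntegral.integral_const, smul_eq_mul] at h4
  linarith

/-- monotonicity of `J` -/
theorem J_lt {k n : ℕ} (hk : 2 ≤ k) {c : ℝ} (hc : c ∈ Ioo (1/2:ℝ) 1)
    (hinc : StrictMonoOn (s k n) (Icc (1/2) c)) {x y : ℝ} (hx : 1/2 ≤ x) (hxy : x < y) (hy : y ≤ c) :
    (1 - x) * s k n x - (∫ t in x..1, s k n t) < (1 - y) * s k n y - ∫ t in y..1, s k n t := by
  have hy1 : y < 1 := by linarith [hc.2]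
  have e := intervalIntegral.integral_add_adjacent_intervals
    (intervalIntegrable_s n hk (a := x) (b := y) (by linarith) hxy.le hy1.le)
    (intervalIntegrable_s n hk (a := y) (b := 1) (by linarith) hy1.le le_rfl)
  have h1 : s k n x < s k n y := hinc ⟨hx, by linarith⟩ ⟨by linarith, hy⟩ hxy
  have h2 : (y - x) * s k n x ≤ ∫ t in x..y, s k n t := by
    have h3 : ∫ t in x..y, (fun _ => s k n x) t ≤ ∫ t in x..y, s k n t := by
      apply intervalIntegral.integral_mono_on hxy.le (by simp)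
        (intervalIntegrable_s n hk (by linarith) hxy.le hy1.le)
      intro t ht
      exact hinc.monotoneOn ⟨hx, by linarith⟩ ⟨by linarith [ht.1], by linarith [ht.2]⟩ ht.1
    rw [intervalIntegral.integral_const, smul_eq_mul] at h3
    exact h3
  have h4 : (1 - y) * s k n x < (1 - y) * s k n y := mul_lt_mul_of_pos_left h1 (by linarith)
  nlinarith

theorem continuousOn_tail {k : ℕ} (n : ℕ) (hk : 2 ≤ k) :
    ContinuousOn (fun x => ∫ t in x..1, s k n t) (Icc (1/2:ℝ) 1) := by
  have h1 : ContinuousOn (fun x => ∫ t in (1/2:ℝ)..x, s k n t) (Icc (1/2:ℝ) 1) := by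
    have := intervalIntegral.continuousOn_primitive_interval (μ := volume) (f := s k n) (a := 1/2) (b := 1)
      (by rw [uIcc_of_le (by norm_num)]; exact integrableOn_s n hk)
    rwa [uIcc_of_le (by norm_num)] at this
  have h2 : ContinuousOn (fun x => (∫ t in (1/2:ℝ)..1, s k n t) - ∫ t in (1/2:ℝ)..x, s k n t)
      (Icc (1/2:ℝ) 1) := continuousOn_const.sub h1
  refine h2.congr (fun x hx => ?_)
  have e := intervalIntegral.integral_add_adjacent_intervals
    (intervalIntegrable_s n hk (a := 1/2) (b := x) (by norm_num) hx.1 hx.2)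
    (intervalIntegrable_s n hk (a := x) (b := 1) (by linarith [hx.1]) hx.2 le_rfl)
  simp only
  linarith

theorem exists_pos_of_F {k n : ℕ} (hk : 2 ≤ k) (hF : F k n (1 / 2) < 1 / 2) :
    ∃ x ∈ Ioo (1/2:ℝ) 1, 0 < s k n x := by
  by_contra hcon
  push Not at hcon
  have h1 : ∫ x in Ioo (1/2:ℝ) 1, s k n x ≤ 0 := setIntegral_nonpos measurableSet_Ioo hcon
  rw [← integral_Ioc_eq_integral_Ioo, ← intervalIntegral.integral_of_le (by norm_num),
    integral_s_half n (by omega)] at h1
  linarith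

/-- existence of the break point -/
theorem exists_breakSym {k n : ℕ} (hk : 2 ≤ k) (hn : 1 ≤ n) (hF : F k n (1 / 2) < 1 / 2) :
    ∃ β, BreakSym k n β := by
  obtain ⟨c, hc, hsc, -, -, hdec, hinc⟩ := exists_peak hk hn (exists_pos_of_F hk hF)
  have hJc : ContinuousOn (fun x => (1 - x) * s k n x - ∫ t in x..1, s k n t) (Icc (1/2) c) := by
    apply ContinuousOn.sub
    · apply ContinuousOn.mul (by fun_prop)
      exact (continuousOn_s n hk).mono (Icc_subset_Icc (by norm_num) hc.2.le)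
    · exact (continuousOn_tail n hk).mono (Icc_subset_Icc le_rfl hc.2.le)
  have hJ0 : (1 - 1/2) * s k n (1/2) - (∫ t in (1/2:ℝ)..1, s k n t) < 0 := by
    rw [s_half, integral_s_half n (by omega)]; linarith
  have hJ1 : 0 < (1 - c) * s k n c - ∫ t in c..1, s k n t := by
    by_contra hcon
    push Not at hcon
    -- either `J(c) = 0`, contradiction with breakSym_lt, or find a zero after ... use strict comparison
    have h4 : ∫ x in c..1, s k n x < ∫ x in c..1, (fun _ => s k n c) x := by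
      apply intervalIntegral.integral_lt_integral_of_continuousOn_of_le_of_exists_lt hc.2
        ((continuousOn_s n hk).mono (Icc_subset_Icc (by linarith [hc.1]) le_rfl))
        continuousOn_const
      · intro x hx
        rcases hx.2.eq_or_lt with rfl | hx1
        · rw [s_one hk hn]; exact hsc.le
        · have := hdec c x le_rfl hx.1 hx1
          rw [max_eq_left hsc.le] at this
          exact this.le
      · refine ⟨(c + 1) / 2, ⟨by linarith [hc.2], by linarith [hc.2]⟩, ?_⟩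
        have := hdec c ((c + 1) / 2) le_rfl (by linarith [hc.2]) (by linarith [hc.2])
        rwa [max_eq_left hsc.le] at this
    rw [intervalIntegral.integral_const, smul_eq_mul] at h4
    linarith
  obtain ⟨β, hβ, hβ0⟩ := intermediate_value_Icc hc.1.le hJc
    (show (0:ℝ) ∈ Icc _ _ from ⟨hJ0.le, hJ1.le⟩)
  simp only at hβ0
  have hβ1 : 1/2 < β := by
    rcases hβ.1.eq_or_lt with h | h
    · rw [← h] at hβ0; linarith
    · exact h
  refine ⟨β, ⟨hβ1, by linarith [hβ.2, hc.2]⟩, ?_, ?_⟩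
  · exact s_nonneg_of_exists hk hn hβ1 hβ.2 hc.2 hsc
  · rw [← integral_s n (by omega) (by linarith) (by linarith [hβ.2, hc.2])]; linarith

theorem breakSym_unique {k n : ℕ} (hk : 2 ≤ k) (hn : 1 ≤ n) {β β' : ℝ}
    (hβ : BreakSym k n β) (hβ' : BreakSym k n β') : β = β' := by
  obtain ⟨c, hc, hsc, -, -, hdec, hinc⟩ := exists_peak hk hn ⟨β, hβ.1, hβ.2.1⟩
  have h1 := breakSym_lt hk hdec hβ
  have h2 := breakSym_lt hk hdec hβ'
  have e1 := hβ.2.2
  have e2 := hβ'.2.2
  rw [← integral_s n (by omega) (by linarith [hβ.1.1]) hβ.1.2.le] at e1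
  rw [← integral_s n (by omega) (by linarith [hβ'.1.1]) hβ'.1.2.le] at e2
  rcases lt_trichotomy β β' with h | h | h
  · have := J_lt hk hc hinc hβ.1.1.le h h2.le
    linarith
  · exact h
  · have := J_lt hk hc hinc hβ'.1.1.le h h1.le
    linarith

/-- the truncated function -/
noncomputable def gh (k n : ℕ) (β x : ℝ) : ℝ := s k n (min x β)

theorem continuousOn_gh {k : ℕ} (n : ℕ) (hk : 2 ≤ k) {β : ℝ} (hβ : β ∈ Ioo (1/2:ℝ) 1) :
    ContinuousOn (gh k n β) (Icc (1/2) 1) := by
  unfold gh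
  refine (continuousOn_s n hk).comp (by fun_prop) (fun x hx => ?_)
  refine ⟨le_min (by linarith [hx.1]) (by linarith [hβ.1]), (min_le_left _ _).trans hx.2⟩

theorem memLp_gh {k : ℕ} (n : ℕ) (hk : 2 ≤ k) {β : ℝ} (hβ : β ∈ Ioo (1/2:ℝ) 1) :
    MemLp (gh k n β) 2 (volume.restrict (Ioo (1/2:ℝ) 1)) := by
  have hm : AEStronglyMeasurable (gh k n β) (volume.restrict (Ioo (1/2:ℝ) 1)) :=
    ((continuousOn_gh n hk hβ).mono Ioo_subset_Icc_self).aestronglyMeasurable measurableSet_Ioo
  rw [memLp_two_iff_integrable_sq hm]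
  exact (((continuousOn_gh n hk hβ).pow 2).integrableOn_Icc).mono_set Ioo_subset_Icc_self

theorem gh_of_le {k n : ℕ} {β x : ℝ} (h : x ≤ β) : gh k n β x = s k n x := by
  unfold gh; rw [min_eq_left h]

theorem gh_of_ge {k n : ℕ} {β x : ℝ} (h : β ≤ x) : gh k n β x = s k n β := by
  unfold gh; rw [min_eq_right h]

theorem integral_split {φ : ℝ → ℝ} (hc : ContinuousOn φ (Icc (1/2:ℝ) 1)) {β : ℝ}
    (hβ : β ∈ Ioo (1/2:ℝ) 1) :
    ∫ x in Ioo (1/2:ℝ) 1, φ x = (∫ x in (1/2:ℝ)..β, φ x) + ∫ x in β..1, φ x := by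
  rw [← integral_Ioc_eq_integral_Ioo, ← intervalIntegral.integral_of_le (by norm_num)]
  exact (intervalIntegral.integral_add_adjacent_intervals
    (ContinuousOn.intervalIntegrable_of_Icc hβ.1.le (hc.mono (Icc_subset_Icc le_rfl hβ.2.le)))
    (ContinuousOn.intervalIntegrable_of_Icc hβ.2.le (hc.mono (Icc_subset_Icc hβ.1.le le_rfl)))).symm

theorem continuousOn_s' {k : ℕ} (n : ℕ) (hk : 2 ≤ k) : ContinuousOn (s k n) (Icc (1/2:ℝ) 1) :=
  (continuousOn_s n hk).mono (Icc_subset_Icc (by norm_num) le_rfl)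

theorem integral_gh_sub {k n : ℕ} (hk : 2 ≤ k) {β : ℝ} (hβ : BreakSym k n β) :
    ∫ x in Ioo (1/2:ℝ) 1, (s k n x - gh k n β x) = 0 := by
  have h1 := hβ.1
  have hcc : ContinuousOn (fun x => s k n x - gh k n β x) (Icc (1/2:ℝ) 1) :=
    (continuousOn_s' n hk).sub (continuousOn_gh n hk h1)
  rw [integral_split hcc h1]
  have e1 : ∫ x in (1/2:ℝ)..β, (s k n x - gh k n β x) = ∫ x in (1/2:ℝ)..β, (0:ℝ) := by
    apply intervalIntegral.integral_congr
    intro x hx
    rw [uIcc_of_le h1.1.le] at hx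
    simp only
    rw [gh_of_le hx.2, sub_self]
  have e2 : ∫ x in β..1, (s k n x - gh k n β x) = ∫ x in β..1, (s k n x - s k n β) := by
    apply intervalIntegral.integral_congr
    intro x hx
    rw [uIcc_of_le h1.2.le] at hx
    simp only
    rw [gh_of_ge hx.1]
  rw [e1, e2, intervalIntegral.integral_sub (intervalIntegrable_s n hk (by linarith [h1.1]) h1.2.le le_rfl)
    (by simp), intervalIntegral.integral_const, integral_s n (by omega) (by linarith [h1.1]) h1.2.le,
    ← hβ.2.2]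
  simp

theorem integral_gh_mul {k n : ℕ} (hk : 2 ≤ k) {β : ℝ} (hβ : BreakSym k n β) :
    ∫ x in Ioo (1/2:ℝ) 1, gh k n β x * s k n x = ∫ x in Ioo (1/2:ℝ) 1, gh k n β x ^ 2 := by
  have h1 := hβ.1
  have e : ∫ x in Ioo (1/2:ℝ) 1, (gh k n β x * s k n x - gh k n β x ^ 2) =
      ∫ x in Ioo (1/2:ℝ) 1, s k n β * (s k n x - gh k n β x) := by
    apply setIntegral_congr_fun measurableSet_Ioo
    intro x hx
    simp only
    rcases le_total x β with h | h
    · rw [gh_of_le h]; ring
    · rw [gh_of_ge h]; ring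
  rw [integral_const_mul, integral_gh_sub hk hβ, mul_zero, integral_sub] at e
  · linarith
  · exact (memLp_gh n hk h1).integrable_mul (memLp_s n (by omega))
  · exact (memLp_gh n hk h1).integrable_sq

theorem integral_gh_sq {k n : ℕ} (hk : 2 ≤ k) {β : ℝ} (hβ : β ∈ Ioo (1/2:ℝ) 1) :
    ∫ x in Ioo (1/2:ℝ) 1, gh k n β x ^ 2 =
      (∫ x in (1/2:ℝ)..β, s k n x ^ 2) + (1 - β) * s k n β ^ 2 := by
  have hcc : ContinuousOn (fun x => gh k n β x ^ 2) (Icc (1/2:ℝ) 1) := (continuousOn_gh n hk hβ).pow 2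
  rw [integral_split hcc hβ]
  have e1 : ∫ x in (1/2:ℝ)..β, gh k n β x ^ 2 = ∫ x in (1/2:ℝ)..β, s k n x ^ 2 := by
    apply intervalIntegral.integral_congr
    intro x hx
    rw [uIcc_of_le hβ.1.le] at hx
    simp only
    rw [gh_of_le hx.2]
  have e2 : ∫ x in β..1, gh k n β x ^ 2 = ∫ x in β..1, s k n β ^ 2 := by
    apply intervalIntegral.integral_congr
    intro x hx
    rw [uIcc_of_le hβ.2.le] at hx
    simp only
    rw [gh_of_ge hx.1]
  rw [e1, e2, intervalIntegral.integral_const, smul_eq_mul]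

/-- closed form of the integral of `s²` -/
theorem integral_s_sq {k n : ℕ} (hk : 2 ≤ k) {β : ℝ} (hβ : β ∈ Ioo (1/2:ℝ) 1) :
    ∫ x in (1/2:ℝ)..β, s k n x ^ 2 =
      (k:ℝ) * ((2 * n).choose n) * ((k:ℝ) / (2 * k - 1)) ^ (2 * n + 1) *
        (F (2 * k - 1) (2 * n) β - F (2 * k - 1) (2 * n) (1 - β)) -
      2 * ∫ x in (1/2:ℝ)..β, f k n x * f k n (1 - x) := by
  set K := (k:ℝ) * ((2 * n).choose n) * ((k:ℝ) / (2 * k - 1)) ^ (2 * n + 1) with hK
  have cf : ContinuousOn (f k n) (Icc 0 1) := continuousOn_f n hk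
  have hsub : Icc (1/2) β ⊆ Icc (0:ℝ) 1 := Icc_subset_Icc (by norm_num) hβ.2.le
  have cr : ContinuousOn (fun x => f k n (1 - x)) (Icc (1/2) β) :=
    cf.comp (by fun_prop) (fun x hx => ⟨by linarith [hx.2, hβ.2], by linarith [hx.1]⟩)
  have i1 : IntervalIntegrable (fun x => f k n x ^ 2) volume (1/2) β :=
    ContinuousOn.intervalIntegrable_of_Icc hβ.1.le ((cf.mono hsub).pow 2)
  have i2 : IntervalIntegrable (fun x => f k n (1 - x) ^ 2) volume (1/2) β :=
    ContinuousOn.intervalIntegrable_of_Icc hβ.1.le (cr.pow 2)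
  have i3 : IntervalIntegrable (fun x => 2 * (f k n x * f k n (1 - x))) volume (1/2) β :=
    ContinuousOn.intervalIntegrable_of_Icc hβ.1.le (((cf.mono hsub).mul cr).const_smul (2:ℝ))
  have j1 : IntervalIntegrable (f (2 * k - 1) (2 * n)) volume 0 1 :=
    (intervalIntegrable_iff_integrableOn_Ioc_of_le zero_le_one).2 (integrableOn_f (2 * n) (by omega))
  have jab : ∀ a b : ℝ, 0 ≤ a → a ≤ b → b ≤ 1 → IntervalIntegrable (f (2 * k - 1) (2 * n)) volume a b := by
    intro a b ha hab hb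
    exact j1.mono_set (by rw [uIcc_of_le hab, uIcc_of_le zero_le_one]; exact Icc_subset_Icc ha hb)
  have e0 : ∫ x in (1/2:ℝ)..β, s k n x ^ 2 = ∫ x in (1/2:ℝ)..β,
      ((f k n x ^ 2 + f k n (1 - x) ^ 2) - 2 * (f k n x * f k n (1 - x))) := by
    apply intervalIntegral.integral_congr
    intro x _
    simp only [s]; ring
  rw [e0, intervalIntegral.integral_sub (i1.add i2) i3, intervalIntegral.integral_add i1 i2,
    intervalIntegral.integral_const_mul]
  have e1 : ∫ x in (1/2:ℝ)..β, f k n x ^ 2 = K * (F (2 * k - 1) (2 * n) β - F (2 * k - 1) (2 * n) (1/2)) := by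
    have : (fun x => f k n x ^ 2) = fun x => K * f (2 * k - 1) (2 * n) x :=
      funext (f_sq n (by omega))
    rw [this, intervalIntegral.integral_const_mul]
    congr 1
    have := intervalIntegral.integral_add_adjacent_intervals
      (jab 0 (1/2) le_rfl (by norm_num) (by norm_num)) (jab (1/2) β (by norm_num) hβ.1.le hβ.2.le)
    unfold F; linarith
  have e2 : ∫ x in (1/2:ℝ)..β, f k n (1 - x) ^ 2 =
      K * (F (2 * k - 1) (2 * n) (1/2) - F (2 * k - 1) (2 * n) (1 - β)) := by
    have h1 : ∫ x in (1/2:ℝ)..β, f k n (1 - x) ^ 2 = ∫ x in (1 - β)..(1 - 1/2), f k n x ^ 2 :=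
      intervalIntegral.integral_comp_sub_left (fun x => f k n x ^ 2) 1
    have h2 : (1:ℝ) - 1/2 = 1/2 := by norm_num
    have : (fun x => f k n x ^ 2) = fun x => K * f (2 * k - 1) (2 * n) x :=
      funext (f_sq n (by omega))
    rw [h1, h2, this, intervalIntegral.integral_const_mul]
    congr 1
    have := intervalIntegral.integral_add_adjacent_intervals
      (jab 0 (1 - β) le_rfl (by linarith [hβ.2]) (by linarith [hβ.1]))
      (jab (1 - β) (1/2) (by linarith [hβ.2]) (by linarith [hβ.1]) (by norm_num))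
    unfold F; linarith
  rw [e1, e2]; ring

/-- Upper bound in the main case. -/
theorem ratio_le_sym {k n : ℕ} (hk : 2 ≤ k) (hn : 1 ≤ n) {β : ℝ} (hβ : BreakSym k n β)
    {ν : Measure ℝ} (h : SymParent ν) :
    ratio k n ν ≤ Real.sqrt ((∫ x in Ioo (1/2:ℝ) 1, gh k n β x ^ 2) / 2) := by
  have h1 := hβ.1
  apply ratio_le n (by omega) h (memLp_gh n hk h1)
  have hgs : Integrable (fun x => (quantile ν x - mean ν) * s k n x)
      (volume.restrict (Ioo (1/2:ℝ) 1)) :=
    (memLp_quantile_sub h).integrable_mul (memLp_s n (by omega))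
  have hgg : Integrable (fun x => (quantile ν x - mean ν) * gh k n β x)
      (volume.restrict (Ioo (1/2:ℝ) 1)) :=
    (memLp_quantile_sub h).integrable_mul (memLp_gh n hk h1)
  have hI := integral_gh_sub hk hβ
  suffices hs : ∫ x in Ioo (1/2:ℝ) 1, (quantile ν x - mean ν) * (s k n x - gh k n β x) ≤ 0 by
    have e : ∫ x in Ioo (1/2:ℝ) 1, (quantile ν x - mean ν) * (s k n x - gh k n β x) =
        (∫ x in Ioo (1/2:ℝ) 1, (quantile ν x - mean ν) * s k n x) -
        ∫ x in Ioo (1/2:ℝ) 1, (quantile ν x - mean ν) * gh k n β x := by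
      rw [← integral_sub hgs hgg]
      apply setIntegral_congr_fun measurableSet_Ioo
      intro x _
      simp only; ring
    linarith
  obtain ⟨c, hc, hsc, -, -, hdec, hinc⟩ := exists_peak hk hn ⟨β, hβ.1, hβ.2.1⟩
  have hβc := breakSym_lt hk hdec hβ
  have hsβc : s k n β < s k n c := hinc ⟨h1.1.le, hβc.le⟩ ⟨hc.1.le, le_rfl⟩ hβc
  obtain ⟨z, hz, hsz⟩ := intermediate_value_Icc' hc.2.le
    ((continuousOn_s' n hk).mono (Icc_subset_Icc hc.1.le le_rfl))
    (show s k n β ∈ Icc (s k n 1) (s k n c) from ⟨by rw [s_one hk hn]; exact hβ.2.1.le, hsβc.le⟩)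
  have hz1 : z < 1 := by
    rcases hz.2.eq_or_lt with h | h
    · rw [h, s_one hk hn] at hsz; linarith [hβ.2.1]
    · exact h
  have hz' : z ∈ Ioo (1/2:ℝ) 1 := ⟨by linarith [hc.1, hz.1], hz1⟩
  have hgh : IntegrableOn (fun x => (quantile ν x - mean ν) * (s k n x - gh k n β x))
      (Ioo (1/2:ℝ) 1) := by
    refine (hgs.sub hgg).congr ?_
    filter_upwards with x
    simp only [Pi.sub_apply]; ring
  have hh : IntegrableOn (fun x => s k n x - gh k n β x) (Ioo (1/2:ℝ) 1) :=
    ((continuousOn_s' n hk).sub (continuousOn_gh n hk h1)).integrableOn_Icc.mono_set Ioo_subset_Icc_self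
  refine integral_mono_pattern (g := fun x => quantile ν x - mean ν) (quantile_sub_mono h) hz' ?_ ?_ ?_ hgh hh hI.le
  · have := mean_le_quantile h hz'
    linarith
  · intro x hx hxz
    rcases le_total x β with hxβ | hxβ
    · rw [gh_of_le hxβ, sub_self]
    · rw [gh_of_ge hxβ]
      rcases le_total x c with hxc | hxc
      · have := hinc.monotoneOn ⟨h1.1.le, hβc.le⟩ ⟨hx.1.le, hxc⟩ hxβ
        linarith
      · rcases hxz.eq_or_lt with rfl | hxz
        · linarith
        · have h5 := hdec x z hxc hxz hz1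
          rw [hsz] at h5
          rcases lt_max_iff.1 h5 with h6 | h6
          · linarith
          · linarith [hβ.2.1]
  · intro x hx hzx
    have hβx : β ≤ x := by linarith [hz.1]
    rw [gh_of_ge hβx]
    rcases hzx.eq_or_lt with rfl | hzx
    · linarith
    · have h5 := hdec z x hz.1 hzx hx.2
      rw [hsz, max_eq_left hβ.2.1.le] at h5
      linarith

/-- Lower bound in the main case. -/
theorem sym_lower {k n : ℕ} (hk : 2 ≤ k) (hn : 1 ≤ n) {β : ℝ} (hβ : BreakSym k n β) {B : ℝ}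
    (hB : ∀ ν, SymParent ν → ratio k n ν ≤ B) :
    Real.sqrt ((∫ x in Ioo (1/2:ℝ) 1, gh k n β x ^ 2) / 2) ≤ B := by
  have h1 := hβ.1
  obtain ⟨c, hc, hsc, -, -, hdec, hinc⟩ := exists_peak hk hn ⟨β, hβ.1, hβ.2.1⟩
  have hβc := breakSym_lt hk hdec hβ
  -- names
  have cg := continuousOn_gh n hk h1
  have mg := memLp_gh n hk h1
  have ml : MemLp (fun x : ℝ => x - 1/2) 2 (volume.restrict (Ioo (1/2:ℝ) 1)) := by
    rw [memLp_two_iff_integrable_sq (by fun_prop)]
    exact (Continuous.integrableOn_Icc (by fun_prop)).mono_set Ioo_subset_Icc_self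
  have ms := memLp_s n (k := k) (by omega)
  set Gh := ∫ x in Ioo (1/2:ℝ) 1, gh k n β x ^ 2 with hGh
  set c1 := ∫ x in Ioo (1/2:ℝ) 1, (x - 1/2) * s k n x with hc1
  set c2 := ∫ x in Ioo (1/2:ℝ) 1, gh k n β x * (x - 1/2) with hc2
  set c3 := ∫ x in Ioo (1/2:ℝ) 1, (x - 1/2 : ℝ) ^ 2 with hc3
  have hGpos : 0 < Gh := by
    rw [hGh, integral_gh_sq hk h1]
    have a1 : 0 ≤ ∫ x in (1/2:ℝ)..β, s k n x ^ 2 :=
      intervalIntegral.integral_nonneg h1.1.le (fun x _ => sq_nonneg _)
    have a2 : 0 < (1 - β) * s k n β ^ 2 := by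
      have := hβ.2.1
      have : 0 < 1 - β := by linarith [h1.2]
      positivity
    linarith
  have key : ∀ ε : ℝ, 0 < ε → (Gh + ε * c1) / Real.sqrt (2 * (Gh + ε * (2 * c2) + ε ^ 2 * c3)) ≤ B := by
    intro ε hε
    let g : ℝ → ℝ := fun x => gh k n β x + ε * (x - 1/2)
    have hgc : ContinuousOn g (Icc (1/2) 1) := cg.add (by fun_prop)
    have hgm : StrictMonoOn g (Ico (1/2:ℝ) 1) := by
      intro x hx y hy hxy
      have h2 : gh k n β x ≤ gh k n β y := by
        unfold gh
        apply hinc.monotoneOn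
        · exact ⟨le_min hx.1 h1.1.le, (min_le_right _ _).trans hβc.le⟩
        · exact ⟨le_min hy.1 h1.1.le, (min_le_right _ _).trans hβc.le⟩
        · exact min_le_min_right _ hxy.le
      simp only [g]
      nlinarith
    have hg0 : g (1/2) = 0 := by
      simp only [g]; rw [gh_of_le h1.1.le, s_half]; ring
    have hgL : IntegrableOn (fun x => g x ^ 2) (Ioo (1/2:ℝ) 1) :=
      (hgc.pow 2).integrableOn_Icc.mono_set Ioo_subset_Icc_self
    obtain ⟨ν, hν, hm, hv, hq, -⟩ := exists_symParent g (hgc.mono Ico_subset_Icc_self) hgm hg0 hgL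
    have h3 := hB ν hν
    rw [ratio_eq n (by omega) hν hm hv hq] at h3
    have i1 : Integrable (fun x => gh k n β x * s k n x) (volume.restrict (Ioo (1/2:ℝ) 1)) :=
      mg.integrable_mul ms
    have i2 : Integrable (fun x => ε * ((x - 1/2) * s k n x)) (volume.restrict (Ioo (1/2:ℝ) 1)) :=
      (ml.integrable_mul ms).const_mul _
    have e1 : ∫ x in Ioo (1/2:ℝ) 1, g x * s k n x = Gh + ε * c1 := by
      rw [hGh, ← integral_gh_mul hk hβ, hc1, ← integral_const_mul, ← integral_add i1 i2]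
      apply setIntegral_congr_fun measurableSet_Ioo
      intro x _
      simp only [g]; ring
    have i3 : Integrable (fun x => gh k n β x ^ 2) (volume.restrict (Ioo (1/2:ℝ) 1)) :=
      mg.integrable_sq
    have i4 : Integrable (fun x => (ε * 2) * (gh k n β x * (x - 1/2))) (volume.restrict (Ioo (1/2:ℝ) 1)) :=
      (mg.integrable_mul ml).const_mul _
    have i5 : Integrable (fun x : ℝ => ε ^ 2 * (x - 1/2) ^ 2) (volume.restrict (Ioo (1/2:ℝ) 1)) :=
      ml.integrable_sq.const_mul _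
    have i34 : Integrable (fun x => gh k n β x ^ 2 + (ε * 2) * (gh k n β x * (x - 1/2)))
        (volume.restrict (Ioo (1/2:ℝ) 1)) := i3.add i4
    have e2 : ∫ x in Ioo (1/2:ℝ) 1, g x ^ 2 = Gh + ε * (2 * c2) + ε ^ 2 * c3 := by
      have : ε * (2 * c2) = (ε * 2) * c2 := by ring
      rw [this, hGh, hc2, hc3, ← integral_const_mul, ← integral_const_mul, ← integral_add i3 i4,
        ← integral_add i34 i5]
      apply setIntegral_congr_fun measurableSet_Ioo
      intro x _
      simp only [g]; ring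
    rw [e1, e2] at h3
    exact h3
  -- let `ε → 0`
  have hcont : ContinuousAt (fun ε : ℝ => (Gh + ε * c1) /
      Real.sqrt (2 * (Gh + ε * (2 * c2) + ε ^ 2 * c3))) 0 := by
    apply ContinuousAt.div
    · fun_prop
    · fun_prop
    · simp only [zero_mul, add_zero]
      have : (0:ℝ) ^ 2 = 0 := by norm_num
      rw [this, zero_mul, add_zero]
      exact (Real.sqrt_pos.2 (by positivity)).ne'
  have hlim := hcont.tendsto.mono_left (nhdsWithin_le_nhds (s := Ioi (0:ℝ)))
  have h5 := le_of_tendsto hlim (by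
    filter_upwards [self_mem_nhdsWithin] with ε hε
    exact key ε hε)
  have h6 : (Gh + 0 * c1) / Real.sqrt (2 * (Gh + 0 * (2 * c2) + 0 ^ 2 * c3)) = Real.sqrt (Gh / 2) := by
    have e : (Gh + 0 * c1) / Real.sqrt (2 * (Gh + 0 * (2 * c2) + 0 ^ 2 * c3)) =
      Gh / Real.sqrt (2 * Gh) := by norm_num
    rw [e, div_eq_iff (Real.sqrt_pos.2 (by positivity)).ne', ← Real.sqrt_mul (by positivity)]
    have : Gh / 2 * (2 * Gh) = Gh ^ 2 := by ring
    rw [this, Real.sqrt_sq hGpos.le]
  rw [← h6]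
  exact h5

/-- The set of normalized deviations over the symmetric class. -/
def symSet (k n : ℕ) : Set ℝ := {r | ∃ ν : Measure ℝ, SymParent ν ∧ r = ratio k n ν}

theorem symSet_isLUB_zero {k n : ℕ} (hk : 2 ≤ k) (hn : 1 ≤ n) (hF : 1 / 2 ≤ F k n (1 / 2)) :
    IsLUB (symSet k n) 0 := by
  constructor
  · rintro r ⟨ν, hν, rfl⟩
    exact ratio_nonpos hk hn hF hν
  · intro B hB
    by_contra hcon
    push Not at hcon
    obtain ⟨ν, hν, h⟩ := exists_uni_ratio_ge hk hn (neg_pos.2 hcon)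
    rw [neg_neg] at h
    have := hB ⟨ν, hν.toSymParent, rfl⟩
    linarith

theorem symSet_isLUB {k n : ℕ} (hk : 2 ≤ k) (hn : 1 ≤ n) {β : ℝ} (hβ : BreakSym k n β) :
    IsLUB (symSet k n) (Real.sqrt (((∫ x in (1/2:ℝ)..β, s k n x ^ 2) + (1 - β) * s k n β ^ 2) / 2)) := by
  rw [← integral_gh_sq hk hβ.1]
  constructor
  · rintro r ⟨ν, hν, rfl⟩
    exact ratio_le_sym hk hn hβ hν
  · intro B hB
    exact sym_lower hk hn hβ (fun ν hν => hB ⟨ν, hν, rfl⟩)

end Pool.Agent.Lib.MP_d11fee_pr
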