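import Pool.Agent.Lib.MP_d11fee_pr.Sym

/-!
# Moments and the inflection point
-/

open Set Real MeasureTheory Filter Topology

namespace Pool.Agent.Lib.MP_d11fee_pr

theorem intervalIntegrable_f {k : ℕ} (n : ℕ) (hk : 1 ≤ k) {a b : ℝ} (ha : 0 ≤ a) (hab : a ≤ b)
    (hb : b ≤ 1) : IntervalIntegrable (f k n) volume a b := by
  have i1 : IntervalIntegrable (f k n) volume 0 1 :=
    (intervalIntegrable_iff_integrableOn_Ioc_of_le zero_le_one).2 (integrableOn_f n hk)
  exact i1.mono_set (by rw [uIcc_of_le hab, uIcc_of_le zero_le_one]; exact Icc_subset_Icc ha hb)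

theorem F_add {k : ℕ} (n : ℕ) (hk : 1 ≤ k) {a : ℝ} (ha : 0 ≤ a) (ha1 : a ≤ 1) :
    ∫ x in a..1, f k n x = 1 - F k n a := by
  have e3 := intervalIntegral.integral_add_adjacent_intervals
    (intervalIntegrable_f n hk le_rfl ha ha1) (intervalIntegrable_f n hk ha ha1 le_rfl)
  rw [integral_f_one n hk] at e3
  unfold F; linarith

/-- first moment of the tail -/
theorem integral_s_mul {k : ℕ} (n : ℕ) (hk : 2 ≤ k) {a : ℝ} (ha : 0 ≤ a) (ha1 : a ≤ 1) :
    ∫ x in a..1, s k n x * (1 - x) =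
      ((k:ℝ) / (k + 1)) ^ (n + 1) * (1 - F (k + 1) n a + F (k + 1) n (1 - a)) - F k n (1 - a) := by
  set A := ((k:ℝ) / (k + 1)) ^ (n + 1)
  have cf : ContinuousOn (f k n) (Icc 0 1) := continuousOn_f n hk
  have i1 : IntervalIntegrable (fun x => (1 - x) * f k n x) volume a 1 :=
    ContinuousOn.intervalIntegrable_of_Icc ha1
      ((by fun_prop : ContinuousOn (fun x : ℝ => 1 - x) (Icc a 1)).mul
        (cf.mono (Icc_subset_Icc ha le_rfl)))
  have i2 : IntervalIntegrable (fun x => (1 - x) * f k n (1 - x)) volume a 1 :=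
    ContinuousOn.intervalIntegrable_of_Icc ha1
      ((by fun_prop : ContinuousOn (fun x : ℝ => 1 - x) (Icc a 1)).mul
        (cf.comp (by fun_prop) (fun x hx => ⟨by linarith [hx.2], by linarith [hx.1]⟩)))
  have e0 : ∫ x in a..1, s k n x * (1 - x) = ∫ x in a..1, ((1 - x) * f k n x - (1 - x) * f k n (1 - x)) := by
    apply intervalIntegral.integral_congr
    intro x _
    simp only [s]; ring
  rw [e0, intervalIntegral.integral_sub i1 i2]
  have e1 : ∫ x in a..1, (1 - x) * f k n x = A * (1 - F (k + 1) n a) := by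
    have : (fun x : ℝ => (1 - x) * f k n x) = fun x => A * f (k + 1) n x :=
      funext (one_sub_mul_f n (by omega))
    rw [this, intervalIntegral.integral_const_mul, F_add n (by omega) ha ha1]
  have e2 : ∫ x in a..1, (1 - x) * f k n (1 - x) = F k n (1 - a) - A * F (k + 1) n (1 - a) := by
    have h1 : ∫ x in a..1, (1 - x) * f k n (1 - x) = ∫ x in (1 - 1)..(1 - a), x * f k n x :=
      intervalIntegral.integral_comp_sub_left (fun x => x * f k n x) 1
    rw [h1, sub_self]
    have h2 : ∫ x in (0:ℝ)..(1 - a), x * f k n x = ∫ x in (0:ℝ)..(1 - a), (f k n x - A * f (k + 1) n x) := by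
      apply intervalIntegral.integral_congr
      intro x _
      simp only
      rw [← one_sub_mul_f n (by omega)]; ring
    rw [h2, intervalIntegral.integral_sub (intervalIntegrable_f n (by omega) le_rfl (by linarith) (by linarith))
      ((intervalIntegrable_f n (by omega) le_rfl (by linarith) (by linarith)).const_mul _),
      intervalIntegral.integral_const_mul]
    rfl
  rw [e1, e2]; ring

/-- The function whose smallest root is the break point in the unimodal class. -/
noncomputable def KK (k n : ℕ) (x : ℝ) : ℝ :=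
  6 * (((k:ℝ) / (k + 1)) ^ (n + 1) * (1 - F (k + 1) n x + F (k + 1) n (1 - x)) - F k n (1 - x)) -
    2 * (1 - x) * (1 - F k n x - F k n (1 - x)) - (1 - x) ^ 2 * s k n x

theorem tail1_eq {k : ℕ} (n : ℕ) (hk : 2 ≤ k) {x : ℝ} (hx : 0 ≤ x) (hx1 : x ≤ 1) :
    ∫ t in x..1, s k n t * (t - x) =
      (1 - x) * (∫ t in x..1, s k n t) - ∫ t in x..1, s k n t * (1 - t) := by
  have i1 := intervalIntegrable_s n hk hx hx1 le_rfl
  have i2 : IntervalIntegrable (fun t => s k n t * (1 - t)) volume x 1 :=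
    ContinuousOn.intervalIntegrable_of_Icc hx1
      (((continuousOn_s n hk).mono (Icc_subset_Icc hx le_rfl)).mul (by fun_prop))
  rw [← intervalIntegral.integral_const_mul, ← intervalIntegral.integral_sub (i1.const_mul _) i2]
  apply intervalIntegral.integral_congr
  intro t _
  simp only; ring

theorem KK_eq {k : ℕ} (n : ℕ) (hk : 2 ≤ k) {x : ℝ} (hx : 0 ≤ x) (hx1 : x ≤ 1) :
    KK k n x = 4 * (1 - x) * (∫ t in x..1, s k n t) - (1 - x) ^ 2 * s k n x -
      6 * ∫ t in x..1, s k n t * (t - x) := by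
  rw [tail1_eq n hk hx hx1, integral_s_mul n hk hx hx1, integral_s n (by omega) hx hx1]
  unfold KK; ring

theorem KK_half (k n : ℕ) : KK k n (1/2) = 6 * ((k:ℝ) / (k + 1)) ^ (n + 1) - 1 - 4 * F k n (1/2) := by
  unfold KK
  rw [s_half]
  have : (1:ℝ) - 1/2 = 1/2 := by norm_num
  rw [this]; ring

theorem tail1_half {k : ℕ} (n : ℕ) (hk : 2 ≤ k) :
    ∫ t in (1/2:ℝ)..1, s k n t * (t - 1/2) = 1/2 - ((k:ℝ) / (k + 1)) ^ (n + 1) := by
  have h1 := KK_eq n hk (x := 1/2) (by norm_num) (by norm_num)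
  rw [KK_half, integral_s_half n (by omega), s_half] at h1
  linarith

theorem continuousOn_KK {k : ℕ} (n : ℕ) (hk : 2 ≤ k) : ContinuousOn (KK k n) (Icc (1/2) 1) := by
  have h0 := continuousOn_tail n hk
  have h1 : ContinuousOn (fun x => ∫ t in x..1, s k n t * (1 - t)) (Icc (1/2:ℝ) 1) := by
    have hc : ContinuousOn (fun t => s k n t * (1 - t)) (Icc (1/2:ℝ) 1) :=
      (continuousOn_s' n hk).mul (by fun_prop)
    have h1 : ContinuousOn (fun x => ∫ t in (1/2:ℝ)..x, s k n t * (1 - t)) (Icc (1/2:ℝ) 1) := by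
      have := intervalIntegral.continuousOn_primitive_interval (μ := volume)
        (f := fun t => s k n t * (1 - t)) (a := 1/2) (b := 1)
        (by rw [uIcc_of_le (by norm_num)]; exact hc.integrableOn_Icc)
      rwa [uIcc_of_le (by norm_num)] at this
    have h2 : ContinuousOn (fun x => (∫ t in (1/2:ℝ)..1, s k n t * (1 - t)) -
        ∫ t in (1/2:ℝ)..x, s k n t * (1 - t)) (Icc (1/2:ℝ) 1) := continuousOn_const.sub h1
    refine h2.congr (fun x hx => ?_)
    have e := intervalIntegral.integral_add_adjacent_intervals (μ := volume)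
      (f := fun t => s k n t * (1 - t)) (a := 1/2) (b := x) (c := 1)
      (ContinuousOn.intervalIntegrable_of_Icc hx.1 (hc.mono (Icc_subset_Icc le_rfl hx.2)))
      (ContinuousOn.intervalIntegrable_of_Icc hx.2 (hc.mono (Icc_subset_Icc hx.1 le_rfl)))
    simp only
    linarith
  have h3 : ContinuousOn (fun x => 4 * (1 - x) * (∫ t in x..1, s k n t) - (1 - x) ^ 2 * s k n x -
      6 * ((1 - x) * (∫ t in x..1, s k n t) - ∫ t in x..1, s k n t * (1 - t))) (Icc (1/2:ℝ) 1) := by
    have := continuousOn_s' n hk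
    fun_prop
  refine h3.congr (fun x hx => ?_)
  rw [KK_eq n hk (by linarith [hx.1]) hx.2, tail1_eq n hk (by linarith [hx.1]) hx.2]

/-- the least squares slope through `(x, s x)` -/
noncomputable def lam (k n : ℕ) (x : ℝ) : ℝ :=
  3 * ((∫ t in x..1, s k n t * (t - x)) - s k n x * (1 - x) ^ 2 / 2) / (1 - x) ^ 3

theorem continuousOn_lam {k : ℕ} (n : ℕ) (hk : 2 ≤ k) : ContinuousOn (lam k n) (Ico (1/2) 1) := by
  have h0 : ContinuousOn (fun x => ∫ t in x..1, s k n t * (t - x)) (Ico (1/2:ℝ) 1) := by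
    have h1 : ContinuousOn (fun x => (4 * (1 - x) * (∫ t in x..1, s k n t) - (1 - x) ^ 2 * s k n x -
        KK k n x) / 6) (Ico (1/2:ℝ) 1) := by
      have a := (continuousOn_s' n hk).mono (Ico_subset_Icc_self : Ico (1/2:ℝ) 1 ⊆ Icc (1/2) 1)
      have b := (continuousOn_KK n hk).mono (Ico_subset_Icc_self : Ico (1/2:ℝ) 1 ⊆ Icc (1/2) 1)
      have c := (continuousOn_tail n hk).mono (Ico_subset_Icc_self : Ico (1/2:ℝ) 1 ⊆ Icc (1/2) 1)
      fun_prop
    refine h1.congr (fun x hx => ?_)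
    simp only
    rw [KK_eq n hk (by linarith [hx.1]) hx.2.le]; ring
  have a := (continuousOn_s' n hk).mono (Ico_subset_Icc_self : Ico (1/2:ℝ) 1 ⊆ Icc (1/2) 1)
  unfold lam
  apply ContinuousOn.div
  · fun_prop
  · fun_prop
  · intro x hx
    have : 0 < 1 - x := by linarith [hx.2]
    positivity

/-- deviation from a line through `(x, s x)` -/
theorem line_moments {k : ℕ} (n : ℕ) (hk : 2 ≤ k) {x : ℝ} (hx : 0 ≤ x) (hx1 : x ≤ 1) (l : ℝ) :
    (∫ t in x..1, (s k n t - (s k n x + l * (t - x)))) =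
      (∫ t in x..1, s k n t) - s k n x * (1 - x) - l * (1 - x) ^ 2 / 2 ∧
    (∫ t in x..1, (s k n t - (s k n x + l * (t - x))) * (t - x)) =
      (∫ t in x..1, s k n t * (t - x)) - s k n x * (1 - x) ^ 2 / 2 - l * (1 - x) ^ 3 / 3 := by
  have i1 := intervalIntegrable_s n hk hx hx1 le_rfl
  have i2 : IntervalIntegrable (fun t => s k n t * (t - x)) volume x 1 :=
    ContinuousOn.intervalIntegrable_of_Icc hx1
      (((continuousOn_s n hk).mono (Icc_subset_Icc hx le_rfl)).mul (by fun_prop))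
  have p1 : ∫ t in x..1, (s k n x + l * (t - x)) = s k n x * (1 - x) + l * (1 - x) ^ 2 / 2 := by
    have hd : ∀ t ∈ uIcc x 1, HasDerivAt (fun t => s k n x * (t - x) + l * (t - x) ^ 2 / 2)
        (s k n x + l * (t - x)) t := by
      intro t _
      have h0 : HasDerivAt (fun t : ℝ => t - x) 1 t := (hasDerivAt_id t).sub_const x
      have h1 := (h0.const_mul (s k n x)).add (((h0.pow 2).const_mul l).div_const 2)
      refine HasDerivAt.congr_deriv h1 ?_
      simp only [Nat.cast_ofNat]; ring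
    rw [intervalIntegral.integral_eq_sub_of_hasDerivAt hd (Continuous.intervalIntegrable (by fun_prop) _ _)]
    ring
  have p2 : ∫ t in x..1, (s k n x + l * (t - x)) * (t - x) =
      s k n x * (1 - x) ^ 2 / 2 + l * (1 - x) ^ 3 / 3 := by
    have hd : ∀ t ∈ uIcc x 1, HasDerivAt (fun t => s k n x * (t - x) ^ 2 / 2 + l * (t - x) ^ 3 / 3)
        ((s k n x + l * (t - x)) * (t - x)) t := by
      intro t _
      have h0 : HasDerivAt (fun t : ℝ => t - x) 1 t := (hasDerivAt_id t).sub_const x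
      have h1 := (((h0.pow 2).const_mul (s k n x)).div_const 2).add (((h0.pow 3).const_mul l).div_const 3)
      refine HasDerivAt.congr_deriv h1 ?_
      simp only [Nat.cast_ofNat]; ring
    rw [intervalIntegral.integral_eq_sub_of_hasDerivAt hd (Continuous.intervalIntegrable (by fun_prop) _ _)]
    ring
  constructor
  · rw [intervalIntegral.integral_sub i1 (Continuous.intervalIntegrable (by fun_prop) _ _), p1]; ring
  · have e : ∫ t in x..1, (s k n t - (s k n x + l * (t - x))) * (t - x) =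
        ∫ t in x..1, (s k n t * (t - x) - (s k n x + l * (t - x)) * (t - x)) := by
      apply intervalIntegral.integral_congr
      intro t _
      simp only; ring
    rw [e, intervalIntegral.integral_sub i2 (Continuous.intervalIntegrable (by fun_prop) _ _), p2]; ring

theorem KK_line {k : ℕ} (n : ℕ) (hk : 2 ≤ k) {x : ℝ} (hx : 0 ≤ x) (hx1 : x ≤ 1) (l : ℝ) :
    KK k n x = 4 * (1 - x) * (∫ t in x..1, (s k n t - (s k n x + l * (t - x)))) -
      6 * ∫ t in x..1, (s k n t - (s k n x + l * (t - x))) * (t - x) := by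
  obtain ⟨h1, h2⟩ := line_moments n hk hx hx1 l
  rw [h1, h2, KK_eq n hk hx hx1]; ring

theorem lam_moment {k : ℕ} (n : ℕ) (hk : 2 ≤ k) {x : ℝ} (hx : 0 ≤ x) (hx1 : x < 1) :
    (∫ t in x..1, (s k n t - (s k n x + lam k n x * (t - x))) * (t - x)) = 0 := by
  obtain ⟨_, h2⟩ := line_moments n hk hx hx1.le (lam k n x)
  rw [h2]
  unfold lam
  have : 0 < 1 - x := by linarith
  field_simp
  ring

/-- All shape information on `s`. -/
structure Shape (k n : ℕ) (c d : ℝ) : Prop where
  hc : c ∈ Ioo (1/2:ℝ) 1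
  sc : 0 < s k n c
  s1c : s1 k n c = 0
  s1pos : ∀ x ∈ Ioo (1/2) c, 0 < s1 k n x
  dec : ∀ x y, c ≤ x → x < y → y < 1 → s k n y < max (s k n x) 0
  inc : StrictMonoOn (s k n) (Icc (1/2) c)
  hd : d ∈ Ico (1/2:ℝ) c
  mono1 : StrictMonoOn (s1 k n) (Icc (1/2) d)
  anti1 : StrictAntiOn (s1 k n) (Icc d c)

theorem continuousOn_s1 (k n : ℕ) : ContinuousOn (s1 k n) (Ioo 0 1) := fun x hx =>
  (hasDerivAt_s1 k n hx.1 hx.2).continuousAt.continuousWithinAt

theorem exists_shape {k n : ℕ} (hk : 2 ≤ k) (hn : 1 ≤ n) (hpos : ∃ x ∈ Ioo (1/2:ℝ) 1, 0 < s k n x) :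
    ∃ c d, Shape k n c d := by
  obtain ⟨c, hc, hsc, hs1c, hs1pos, hdec, hinc⟩ := exists_peak hk hn hpos
  let D : Set ℝ := {x ∈ Icc (1/2:ℝ) c | ∀ y ∈ Ioo (1/2:ℝ) x, 0 < s2 k n y}
  have hD0 : (1/2:ℝ) ∈ D := ⟨⟨le_rfl, hc.1.le⟩, fun y hy => absurd hy.1 (not_lt.2 hy.2.le)⟩
  have hDb : BddAbove D := ⟨c, fun x hx => hx.1.2⟩
  set d := sSup D with hd
  have hd1 : 1/2 ≤ d := le_csSup hDb hD0
  have hd2 : d ≤ c := csSup_le ⟨_, hD0⟩ (fun x hx => hx.1.2)
  have hpos2 : ∀ y ∈ Ioo (1/2) d, 0 < s2 k n y := by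
    intro y hy
    obtain ⟨x, hx, hyx⟩ := exists_lt_of_lt_csSup ⟨_, hD0⟩ hy.2
    exact hx.2 y ⟨hy.1, hyx⟩
  have hF3 : ∀ x y, 1/2 < x → x < y → y < c → s2 k n x ≤ 0 → s2 k n y < 0 := by
    intro x y hx hxy hy h
    exact s2_neg hk hn hx hxy (by linarith [hc.2])
      (s_nonneg_of_exists hk hn (by linarith) hy.le hc.2 hsc) (hs1pos y ⟨by linarith, hy⟩) h
  have hneg2 : ∀ y ∈ Ioo d c, s2 k n y < 0 := by
    have hle : ∀ y ∈ Ioo d c, s2 k n y ≤ 0 := by
      intro y hy
      by_contra hcon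
      push Not at hcon
      have : y ∈ D := by
        refine ⟨⟨by linarith [hy.1], hy.2.le⟩, fun z hz => ?_⟩
        by_contra hz'
        push Not at hz'
        have := hF3 z y hz.1 hz.2 hy.2 hz'
        linarith
      have := le_csSup hDb this
      linarith [hy.1]
    intro y hy
    exact hF3 ((d + y) / 2) y (by linarith [hy.1]) (by linarith [hy.1]) hy.2
      (hle _ ⟨by linarith [hy.1], by linarith [hy.1, hy.2]⟩)
  have hmono1 : StrictMonoOn (s1 k n) (Icc (1/2) d) := by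
    apply strictMonoOn_of_deriv_pos (convex_Icc _ _)
    · exact (continuousOn_s1 k n).mono (fun x hx => ⟨by linarith [hx.1], by linarith [hx.2, hc.2]⟩)
    · intro z hz
      rw [interior_Icc] at hz
      rw [(hasDerivAt_s1 k n (by linarith [hz.1]) (by linarith [hz.2, hc.2])).deriv]
      exact hpos2 z hz
  have hanti1 : StrictAntiOn (s1 k n) (Icc d c) := by
    apply strictAntiOn_of_deriv_neg (convex_Icc _ _)
    · exact (continuousOn_s1 k n).mono (fun x hx => ⟨by linarith [hx.1], by linarith [hx.2, hc.2]⟩)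
    · intro z hz
      rw [interior_Icc] at hz
      rw [(hasDerivAt_s1 k n (by linarith [hz.1]) (by linarith [hz.2, hc.2])).deriv]
      exact hneg2 z hz
  have hdc : d < c := by
    rcases hd2.eq_or_lt with h | h
    · exfalso
      have h1 := hmono1 (a := (1/2 + c) / 2) (b := c)
        ⟨by linarith [hc.1], by rw [h]; linarith [hc.1]⟩ ⟨hc.1.le, by rw [h]⟩ (by linarith [hc.1])
      have h2 := hs1pos ((1/2 + c) / 2) ⟨by linarith [hc.1], by linarith [hc.1]⟩
      linarith
    · exact h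
  exact ⟨c, d, hc, hsc, hs1c, hs1pos, hdec, hinc, ⟨hd1, hdc⟩, hmono1, hanti1⟩

end Pool.Agent.Lib.MP_d11fee_pr
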