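import Pool.Agent.Lib.MP_d11fee_pr.Uni1

/-!
# Sign patterns of `s` minus a line and the existence of the break point
-/

open Set Real MeasureTheory Filter Topology

namespace Pool.Agent.Lib.MP_d11fee_pr

variable {k n : ℕ} {c d : ℝ}

theorem Shape.c0 (hS : Shape k n c d) : 0 < c := by linarith [hS.hc.1]

theorem Shape.conv (hS : Shape k n c d) (hk : 2 ≤ k) : ConvexOn ℝ (Icc (1/2) d) (s k n) := by
  have hd1 : d < 1 := by linarith [hS.hd.2, hS.hc.2]
  have hder : ∀ x ∈ interior (Icc (1/2:ℝ) d), deriv (s k n) x = s1 k n x := by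
    intro x hx
    rw [interior_Icc] at hx
    exact (hasDerivAt_s k n (by linarith [hx.1]) (by linarith [hx.2])).deriv
  apply MonotoneOn.convexOn_of_deriv (convex_Icc _ _)
  · exact (continuousOn_s' n hk).mono (Icc_subset_Icc le_rfl hd1.le)
  · intro x hx
    rw [interior_Icc] at hx
    exact (hasDerivAt_s k n (by linarith [hx.1]) (by linarith [hx.2])).differentiableAt.differentiableWithinAt
  · intro x hx y hy hxy
    rw [hder x hx, hder y hy]
    exact hS.mono1.monotoneOn (interior_subset hx) (interior_subset hy) hxy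

theorem Shape.conc (hS : Shape k n c d) (hk : 2 ≤ k) : ConcaveOn ℝ (Icc d c) (s k n) := by
  have hc1 := hS.hc.2
  have hd0 := hS.hd.1
  have hder : ∀ x ∈ interior (Icc d c), deriv (s k n) x = s1 k n x := by
    intro x hx
    rw [interior_Icc] at hx
    exact (hasDerivAt_s k n (by linarith [hx.1]) (by linarith [hx.2])).deriv
  apply AntitoneOn.concaveOn_of_deriv (convex_Icc _ _)
  · exact (continuousOn_s' n hk).mono (Icc_subset_Icc hd0 hc1.le)
  · intro x hx
    rw [interior_Icc] at hx
    exact (hasDerivAt_s k n (by linarith [hx.1]) (by linarith [hx.2])).differentiableAt.differentiableWithinAt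
  · intro x hx y hy hxy
    rw [hder x hx, hder y hy]
    exact hS.anti1.antitoneOn (interior_subset hx) (interior_subset hy) hxy

theorem Shape.tangent_le (hS : Shape k n c d) (hk : 2 ≤ k) {x y : ℝ} (hx : 1/2 ≤ x) (hxy : x ≤ y)
    (hyd : y ≤ d) : s k n x + s1 k n x * (y - x) ≤ s k n y := by
  rcases hxy.eq_or_lt with rfl | hxy
  · simp
  · have hd1 : d < 1 := by linarith [hS.hd.2, hS.hc.2]
    obtain ⟨ξ, hξ, hξ'⟩ := exists_hasDerivAt_eq_slope (s k n) (s1 k n) hxy
      ((continuousOn_s' n hk).mono (Icc_subset_Icc hx (by linarith)))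
      (fun z hz => hasDerivAt_s k n (by linarith [hz.1]) (by linarith [hz.2]))
    have h1 : s1 k n x ≤ s1 k n ξ :=
      hS.mono1.monotoneOn ⟨hx, by linarith⟩ ⟨by linarith [hξ.1], by linarith [hξ.2]⟩ hξ.1.le
    rw [hξ'] at h1
    rw [le_div_iff₀ (by linarith)] at h1
    linarith

theorem Shape.le_tangent (hS : Shape k n c d) (hk : 2 ≤ k) {y : ℝ} (hdy : d ≤ y) (hyc : y ≤ c) :
    s k n y ≤ s k n d + s1 k n d * (y - d) := by
  rcases hdy.eq_or_lt with rfl | hdy
  · simp
  · have hc1 := hS.hc.2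
    have hd0 := hS.hd.1
    obtain ⟨ξ, hξ, hξ'⟩ := exists_hasDerivAt_eq_slope (s k n) (s1 k n) hdy
      ((continuousOn_s' n hk).mono (Icc_subset_Icc hd0 (by linarith)))
      (fun z hz => hasDerivAt_s k n (by linarith [hz.1]) (by linarith [hz.2]))
    have h1 : s1 k n ξ ≤ s1 k n d :=
      hS.anti1.antitoneOn ⟨le_rfl, hS.hd.2.le⟩ ⟨by linarith [hξ.1], by linarith [hξ.2]⟩ hξ.1.le
    rw [hξ'] at h1
    rw [div_le_iff₀ (by linarith)] at h1
    linarith

theorem Shape.s1d_pos (hS : Shape k n c d) : 0 < s1 k n d := by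
  have := hS.anti1 ⟨le_rfl, hS.hd.2.le⟩ ⟨hS.hd.2.le, le_rfl⟩ hS.hd.2
  rw [hS.s1c] at this
  exact this

/-- deviation from the line through `(x, s x)` with slope `l` -/
noncomputable def dev (k n : ℕ) (x l t : ℝ) : ℝ := s k n t - (s k n x + l * (t - x))

theorem continuousOn_dev (hk : 2 ≤ k) (x l : ℝ) : ContinuousOn (dev k n x l) (Icc (1/2) 1) := by
  have := continuousOn_s' n hk
  unfold dev
  fun_prop

/-- (p3) -/
theorem Shape.p3 (hS : Shape k n c d) {x l : ℝ} (hx : 1/2 ≤ x) (hxc : x < c) (hl : 0 < l)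
    {y z : ℝ} (hcy : c ≤ y) (hyz : y < z) (hz : z < 1) (h : dev k n x l y ≤ 0) :
    dev k n x l z < 0 := by
  unfold dev at h ⊢
  have h1 := hS.dec y z hcy hyz hz
  have hsx : 0 ≤ s k n x := by
    have h3 := hS.inc.monotoneOn ⟨le_rfl, hS.hc.1.le⟩ ⟨hx, hxc.le⟩ hx
    rwa [s_half] at h3
  have h2 : l * (y - x) < l * (z - x) := mul_lt_mul_of_pos_left (by linarith) hl
  have h3 : 0 < l * (z - x) := mul_pos hl (by linarith)
  rcases lt_max_iff.1 h1 with h4 | h4
  · linarith
  · linarith

theorem dev_one_neg (hk : 2 ≤ k) (hn : 1 ≤ n) (hS : Shape k n c d) {x l : ℝ} (hx : 1/2 ≤ x) (hxc : x < c)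
    (hl : 0 < l) : dev k n x l 1 < 0 := by
  unfold dev
  rw [s_one hk hn]
  have hsx : 0 ≤ s k n x := by
    have h3 := hS.inc.monotoneOn ⟨le_rfl, hS.hc.1.le⟩ ⟨hx, hxc.le⟩ hx
    rwa [s_half] at h3
  have : 0 < l * (1 - x) := mul_pos hl (by linarith [hS.hc.2])
  linarith

/-- (p1): convexity part -/
theorem Shape.p1 (hS : Shape k n c d) (hk : 2 ≤ k) {x l : ℝ} (hx : 1/2 ≤ x) (hxd : x ≤ d)
    {a b : ℝ} (hxa : x < a) (hab : a < b) (hb : b ≤ d) (h : 0 < dev k n x l a) :
    0 < dev k n x l b := by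
  unfold dev at h ⊢
  have hcv := (hS.conv hk).slope_mono_adjacent (x := x) (y := a) (z := b) ⟨hx, hxd⟩
    ⟨by linarith, hb⟩ hxa hab
  rw [div_le_div_iff₀ (by linarith) (by linarith)] at hcv
  -- (s a - s x)(b - a) ≤ (s b - s a)(a - x)
  have h1 : l * (a - x) < s k n a - s k n x := by linarith
  have h2 : l * (a - x) * (b - a) < (s k n a - s k n x) * (b - a) :=
    mul_lt_mul_of_pos_right h1 (by linarith)
  have h3 : (l * (b - a)) * (a - x) < (s k n b - s k n a) * (a - x) := by linarith
  have h4 : l * (b - a) < s k n b - s k n a := lt_of_mul_lt_mul_right h3 (by linarith)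
  linarith

/-- (p2): concavity part -/
theorem Shape.p2 (hS : Shape k n c d) (hk : 2 ≤ k) {x l : ℝ}
    {a b e : ℝ} (hda : d ≤ a) (hab : a < b) (hbe : b < e) (hec : e ≤ c)
    (h1 : 0 < dev k n x l a) (h2 : 0 < dev k n x l e) : 0 < dev k n x l b := by
  unfold dev at h1 h2 ⊢
  have hcv := (hS.conc hk).slope_anti_adjacent (x := a) (y := b) (z := e) ⟨hda, by linarith⟩
    ⟨by linarith, hec⟩ hab hbe
  rw [div_le_div_iff₀ (by linarith) (by linarith)] at hcv
  -- (s e - s b)(b - a) ≤ (s b - s a)(e - b)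
  by_contra hcon
  push Not at hcon
  have h3 : l * (e - b) * (b - a) < (s k n e - s k n b) * (b - a) :=
    mul_lt_mul_of_pos_right (by linarith) (by linarith)
  have h4 : (s k n b - s k n a) * (e - b) < l * (b - a) * (e - b) :=
    mul_lt_mul_of_pos_right (by linarith) (by linarith)
  linarith

/-- positivity set of the deviation is an interval -/
theorem Shape.ordConn (hS : Shape k n c d) (hk : 2 ≤ k) {x l : ℝ} (hx : 1/2 ≤ x) (hxd : x ≤ d)
    (hl : 0 < l) {a b e : ℝ} (hxa : x < a) (hab : a < b) (hbe : b < e) (he : e < 1)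
    (h1 : 0 < dev k n x l a) (h2 : 0 < dev k n x l e) : 0 < dev k n x l b := by
  have hxc : x < c := by linarith [hS.hd.2]
  by_contra hcon
  push Not at hcon
  rcases le_or_gt c b with hcb | hcb
  · have := hS.p3 hx hxc hl hcb hbe he hcon
    linarith
  · -- `e' = min e c`
    obtain ⟨e', he'1, he'2, he'3⟩ : ∃ e', b < e' ∧ e' ≤ c ∧ 0 < dev k n x l e' := by
      rcases le_or_gt e c with hec | hec
      · exact ⟨e, hbe, hec, h2⟩
      · refine ⟨c, hcb, le_rfl, ?_⟩
        by_contra hcc
        push Not at hcc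
        have := hS.p3 hx hxc hl le_rfl hec he hcc
        linarith
    rcases le_or_gt b d with hbd | hbd
    · have := hS.p1 hk hx hxd hxa hab hbd h1
      linarith
    · obtain ⟨a', ha'1, ha'2, ha'3⟩ : ∃ a', d ≤ a' ∧ a' < b ∧ 0 < dev k n x l a' := by
        rcases le_or_gt d a with hda | hda
        · exact ⟨a, hda, hab, h1⟩
        · exact ⟨d, le_rfl, hbd, hS.p1 hk hx hxd hxa hda le_rfl h1⟩
      have := hS.p2 hk ha'1 ha'2 he'1 he'2 ha'3 he'3
      linarith

/-- a strictly negative deviation stays negative, for slopes below the tangent -/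
theorem Shape.neg_up (hS : Shape k n c d) (hk : 2 ≤ k) {x l : ℝ} (hx : 1/2 ≤ x) (hxd : x ≤ d)
    (hl : 0 < l) (hl1 : l ≤ s1 k n x) {a b : ℝ} (hxa : x ≤ a) (hab : a < b) (hb : b < 1)
    (h : dev k n x l a < 0) : dev k n x l b < 0 := by
  have hxc : x < c := by linarith [hS.hd.2]
  have q1 : ∀ y, x ≤ y → y ≤ d → 0 ≤ dev k n x l y := by
    intro y hy hyd
    have := hS.tangent_le hk hx hy hyd
    unfold dev
    nlinarith
  have hda : d < a := by
    by_contra hcon
    push Not at hcon
    have := q1 a hxa hcon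
    linarith
  rcases le_or_gt c a with hca | hca
  · exact hS.p3 hx hxc hl hca hab hb h.le
  · have q2 : ∀ y, a < y → y ≤ c → dev k n x l y < 0 := by
      intro y hy hyc
      by_contra hcon
      push Not at hcon
      have hq := q1 d hxd le_rfl
      unfold dev at hq hcon h
      have hcv := (hS.conc hk).slope_anti_adjacent (x := d) (y := a) (z := y) ⟨le_rfl, by linarith⟩
        ⟨by linarith, hyc⟩ hda hy
      rw [div_le_div_iff₀ (by linarith) (by linarith)] at hcv
      have h3 : l * (y - a) * (a - d) < (s k n y - s k n a) * (a - d) :=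
        mul_lt_mul_of_pos_right (by linarith) (by linarith)
      have h4 : (s k n a - s k n d) * (y - a) < l * (a - d) * (y - a) :=
        mul_lt_mul_of_pos_right (by linarith) (by linarith)
      linarith
    rcases le_or_gt b c with hbc | hbc
    · exact q2 b hab hbc
    · exact hS.p3 hx hxc hl le_rfl hbc hb (q2 c hca le_rfl).le

/-- Claim A: `K > 0` if the least squares slope is positive and below the tangent. -/
theorem KK_pos_of_lam (hk : 2 ≤ k) (hn : 1 ≤ n) (hS : Shape k n c d) {x : ℝ} (hx : 1/2 ≤ x)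
    (hxd : x ≤ d) (hl : 0 < lam k n x) (hl1 : lam k n x ≤ s1 k n x) : 0 < KK k n x := by
  have hxc : x < c := by linarith [hS.hd.2]
  have hx1 : x < 1 := by linarith [hS.hc.2]
  set l := lam k n x with hl'
  have hcont := continuousOn_dev (n := n) hk x l
  have hcx : ContinuousOn (dev k n x l) (Icc x 1) := hcont.mono (Icc_subset_Icc hx le_rfl)
  have hd1 := dev_one_neg hk hn hS hx hxc hl
  -- the set where the deviation is negative
  let B : Set ℝ := {y ∈ Ioo x 1 | dev k n x l y < 0}
  have hBne : B.Nonempty := by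
    have hcw : ContinuousWithinAt (dev k n x l) (Ioo x 1) 1 :=
      (hcx 1 ⟨hx1.le, le_rfl⟩).mono Ioo_subset_Icc_self
    have hev : ∀ᶠ y in 𝓝[Ioo x 1] (1:ℝ), dev k n x l y < 0 := hcw.eventually_lt_const hd1
    have hne : (𝓝[Ioo x 1] (1:ℝ)).NeBot := by
      rw [nhdsWithin_Ioo_eq_nhdsLT hx1]; infer_instance
    obtain ⟨y, hy⟩ := (hev.and self_mem_nhdsWithin).exists
    exact ⟨y, hy.2, hy.1⟩
  have hBb : BddBelow B := ⟨x, fun y hy => hy.1.1.le⟩
  set z0 := sInf B with hz0
  have hz0x : x ≤ z0 := le_csInf hBne (fun y hy => hy.1.1.le)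
  have hz01 : z0 < 1 := by
    obtain ⟨y, hy⟩ := hBne
    exact lt_of_le_of_lt (csInf_le hBb hy) hy.1.2
  have hlow : ∀ t, x < t → t < z0 → 0 ≤ dev k n x l t := by
    intro t ht htz
    by_contra hcon
    push Not at hcon
    have : t ∈ B := ⟨⟨ht, by linarith⟩, hcon⟩
    have := csInf_le hBb this
    linarith
  have hhigh : ∀ t, z0 < t → t < 1 → dev k n x l t < 0 := by
    intro t ht ht1
    obtain ⟨y, hy, hyt⟩ := exists_lt_of_csInf_lt hBne ht
    exact hS.neg_up hk hx hxd hl hl1 hy.1.1.le hyt ht1 hy.2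
  -- the weighted integral is positive
  have hpos : 0 < ∫ t in x..1, dev k n x l t * (z0 - t) := by
    have hcc : ContinuousOn (fun t => dev k n x l t * (z0 - t)) (Icc x 1) :=
      hcx.mul (by fun_prop)
    have hlt : ∫ t in x..1, (fun _ => (0:ℝ)) t < ∫ t in x..1, dev k n x l t * (z0 - t) := by
      apply intervalIntegral.integral_lt_integral_of_continuousOn_of_le_of_exists_lt hx1
        continuousOn_const hcc
      · intro t ht
        rcases ht.2.eq_or_lt with rfl | ht1
        · exact (mul_pos_of_neg_of_neg hd1 (by linarith)).le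
        · rcases lt_or_ge t z0 with h | h
          · exact mul_nonneg (hlow t ht.1 h) (by linarith)
          · rcases h.eq_or_lt with h | h
            · rw [← h, sub_self, mul_zero]
            · exact (mul_pos_of_neg_of_neg (hhigh t h ht1) (by linarith)).le
      · refine ⟨1, ⟨hx1.le, le_rfl⟩, ?_⟩
        exact mul_pos_of_neg_of_neg hd1 (by linarith)
    simpa using hlt
  have hm := lam_moment n hk (x := x) (by linarith) hx1
  have hm' : ∫ t in x..1, dev k n x l t * (t - x) = 0 := hm
  have i1 : IntervalIntegrable (fun t => dev k n x l t) volume x 1 :=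
    ContinuousOn.intervalIntegrable_of_Icc hx1.le hcx
  have i2 : IntervalIntegrable (fun t => dev k n x l t * (t - x)) volume x 1 :=
    ContinuousOn.intervalIntegrable_of_Icc hx1.le (hcx.mul (by fun_prop))
  have e : ∫ t in x..1, dev k n x l t * (z0 - t) = (z0 - x) * ∫ t in x..1, dev k n x l t := by
    have e1 : ∫ t in x..1, dev k n x l t * (z0 - t) =
        ∫ t in x..1, ((z0 - x) * dev k n x l t - dev k n x l t * (t - x)) := by
      apply intervalIntegral.integral_congr
      intro t _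
      simp only; ring
    rw [e1, intervalIntegral.integral_sub (i1.const_mul _) i2, hm',
      intervalIntegral.integral_const_mul, sub_zero]
  rw [e] at hpos
  have h5 : 0 < ∫ t in x..1, dev k n x l t := by
    by_contra hcon
    push Not at hcon
    have := mul_nonpos_of_nonneg_of_nonpos (by linarith : 0 ≤ z0 - x) hcon
    linarith
  have h6 := KK_line n hk (x := x) (by linarith) hx1.le l
  rw [h6]
  have h7 : (∫ t in x..1, (s k n t - (s k n x + l * (t - x))) * (t - x)) = 0 := hm
  have h8 : 0 < ∫ t in x..1, (s k n t - (s k n x + l * (t - x))) := h5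
  rw [h7, mul_zero, sub_zero]
  have : 0 < 1 - x := by linarith
  positivity

/-- the least squares slope at the inflection point is below the tangent -/
theorem lam_d_lt (hk : 2 ≤ k) (hn : 1 ≤ n) (hS : Shape k n c d) : lam k n d < s1 k n d := by
  have hd0 : 1/2 ≤ d := hS.hd.1
  have hdc := hS.hd.2
  have hd1 : d < 1 := by linarith [hS.hc.2]
  obtain ⟨-, h2⟩ := line_moments (k := k) n hk (x := d) (by linarith) hd1.le (s1 k n d)
  have hle : ∀ t, d ≤ t → t < 1 → s k n t ≤ s k n d + s1 k n d * (t - d) := by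
    intro t ht ht1
    rcases le_or_gt t c with htc | htc
    · exact hS.le_tangent hk ht htc
    · have h3 := hS.dec c t le_rfl htc ht1
      rw [max_eq_left hS.sc.le] at h3
      have h4 := hS.le_tangent hk hdc.le le_rfl
      have h5 : s1 k n d * (c - d) ≤ s1 k n d * (t - d) :=
        mul_le_mul_of_nonneg_left (by linarith) hS.s1d_pos.le
      linarith
  have hd1' := dev_one_neg hk hn hS hd0 hdc hS.s1d_pos
  have hneg : ∫ t in d..1, dev k n d (s1 k n d) t * (t - d) < 0 := by
    have hlt : ∫ t in d..1, dev k n d (s1 k n d) t * (t - d) < ∫ t in d..1, (fun _ => (0:ℝ)) t := by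
      apply intervalIntegral.integral_lt_integral_of_continuousOn_of_le_of_exists_lt hd1
        (((continuousOn_dev (n := n) hk _ _).mono (Icc_subset_Icc hd0 le_rfl)).mul (by fun_prop))
        continuousOn_const
      · intro t ht
        have h6 : dev k n d (s1 k n d) t ≤ 0 := by
          rcases ht.2.eq_or_lt with rfl | ht1
          · exact hd1'.le
          · have := hle t ht.1.le ht1
            unfold dev; linarith
        exact mul_nonpos_of_nonpos_of_nonneg h6 (by linarith [ht.1])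
      · refine ⟨1, ⟨hd1.le, le_rfl⟩, ?_⟩
        exact mul_neg_of_neg_of_pos hd1' (by linarith)
    simpa using hlt
  have h3 : (∫ t in d..1, (s k n t - (s k n d + s1 k n d * (t - d))) * (t - d)) < 0 := hneg
  rw [h2] at h3
  unfold lam
  rw [div_lt_iff₀ (by have : 0 < 1 - d := by linarith
                      positivity)]
  linarith

/-- Existence of the break point in the third case. -/
theorem exists_break (hk : 2 ≤ k) (hn : 1 ≤ n) (hS : Shape k n c d)
    (hA : ((k:ℝ) / (k + 1)) ^ (n + 1) < 1/2) (hK : KK k n (1/2) < 0) :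
    ∃ β, 1/2 < β ∧ β < d ∧ KK k n β = 0 ∧ (∀ x, 1/2 < x → x < β → KK k n x < 0) ∧
      s1 k n β < lam k n β := by
  have hd0 : 1/2 ≤ d := hS.hd.1
  have hdc := hS.hd.2
  have hd1 : d < 1 := by linarith [hS.hc.2]
  have hlam0 : 0 < lam k n (1/2) := by
    unfold lam
    rw [tail1_half n hk, s_half]
    norm_num
    linarith
  have h0 : s1 k n (1/2) < lam k n (1/2) := by
    by_contra hcon
    push Not at hcon
    have := KK_pos_of_lam hk hn hS le_rfl hd0 hlam0 hcon
    linarith
  -- first point where `lam ≤ s1`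
  let E : Set ℝ := {x ∈ Icc (1/2:ℝ) d | lam k n x ≤ s1 k n x}
  have hEd : d ∈ E := ⟨⟨hd0, le_rfl⟩, (lam_d_lt hk hn hS).le⟩
  have hcl : ContinuousOn (fun x => s1 k n x - lam k n x) (Icc (1/2) d) := by
    apply ContinuousOn.sub
    · exact (continuousOn_s1 k n).mono (fun x hx => ⟨by linarith [hx.1], by linarith [hx.2]⟩)
    · exact (continuousOn_lam n hk).mono (fun x hx => ⟨hx.1, by linarith [hx.2]⟩)
  have hEclosed : IsClosed E := by
    have := hcl.preimage_isClosed_of_isClosed isClosed_Icc (isClosed_Ici (a := (0:ℝ)))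
    convert this using 1
    ext x
    simp only [E, mem_ofPred_eq, mem_inter_iff, mem_preimage, mem_Ici, sub_nonneg]
  have hEb : BddBelow E := ⟨1/2, fun x hx => hx.1.1⟩
  have hmem : sInf E ∈ E := hEclosed.csInf_mem ⟨d, hEd⟩ hEb
  set x1 := sInf E with hx1
  have hbefore : ∀ x, 1/2 ≤ x → x < x1 → s1 k n x < lam k n x := by
    intro x hx hxx
    by_contra hcon
    push Not at hcon
    have := csInf_le hEb (show x ∈ E from ⟨⟨hx, by linarith [hmem.1.2]⟩, hcon⟩)
    linarith
  have hx1h : 1/2 < x1 := by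
    rcases hmem.1.1.eq_or_lt with h | h
    · rw [← h] at hmem; linarith [hmem.2]
    · exact h
  -- `lam x1 = s1 x1 > 0`
  have hs1x1 : 0 < s1 k n x1 := hS.s1pos x1 ⟨hx1h, by linarith [hmem.1.2]⟩
  have hlamx1 : 0 < lam k n x1 := by
    have hge : s1 k n x1 ≤ lam k n x1 := by
      have hcw : ContinuousWithinAt (fun x => s1 k n x - lam k n x) (Ioo (1/2) x1) x1 :=
        (hcl x1 ⟨hx1h.le, hmem.1.2⟩).mono (fun y hy => ⟨hy.1.le, by linarith [hy.2, hmem.1.2]⟩)
      have hne : (𝓝[Ioo (1/2) x1] x1).NeBot := by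
        rw [nhdsWithin_Ioo_eq_nhdsLT hx1h]; infer_instance
      have := le_of_tendsto hcw (b := 0) (by
        filter_upwards [self_mem_nhdsWithin] with y hy
        linarith [hbefore y hy.1.le hy.2])
      linarith
    linarith
  have hKx1 : 0 < KK k n x1 := KK_pos_of_lam hk hn hS hx1h.le hmem.1.2 hlamx1 hmem.2
  -- first zero of `K`
  let Z : Set ℝ := {x ∈ Icc (1/2:ℝ) x1 | 0 ≤ KK k n x}
  have hZne : x1 ∈ Z := ⟨⟨hx1h.le, le_rfl⟩, hKx1.le⟩
  have hx1d : x1 ≤ d := hmem.1.2
  have hcK : ContinuousOn (KK k n) (Icc (1/2) x1) :=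
    (continuousOn_KK n hk).mono (Icc_subset_Icc le_rfl (by linarith))
  have hZclosed : IsClosed Z := by
    have := hcK.preimage_isClosed_of_isClosed isClosed_Icc (isClosed_Ici (a := (0:ℝ)))
    convert this using 1
    ext x
    simp only [Z, mem_ofPred_eq, mem_inter_iff, mem_preimage, mem_Ici]
  have hZb : BddBelow Z := ⟨1/2, fun x hx => hx.1.1⟩
  have hZmem : sInf Z ∈ Z := hZclosed.csInf_mem ⟨x1, hZne⟩ hZb
  set β := sInf Z with hβ
  have hβbefore : ∀ x, 1/2 ≤ x → x < β → KK k n x < 0 := by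
    intro x hx hxx
    by_contra hcon
    push Not at hcon
    have := csInf_le hZb (show x ∈ Z from ⟨⟨hx, by linarith [hZmem.1.2]⟩, hcon⟩)
    linarith
  have hβh : 1/2 < β := by
    rcases hZmem.1.1.eq_or_lt with h | h
    · rw [← h] at hZmem; linarith [hZmem.2]
    · exact h
  have hKβ : KK k n β = 0 := by
    have hle : KK k n β ≤ 0 := by
      have hcw : ContinuousWithinAt (KK k n) (Ioo (1/2) β) β :=
        (hcK β hZmem.1).mono (fun y hy => ⟨hy.1.le, by linarith [hy.2, hZmem.1.2]⟩)
      have hne : (𝓝[Ioo (1/2) β] β).NeBot := by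
        rw [nhdsWithin_Ioo_eq_nhdsLT hβh]; infer_instance
      exact le_of_tendsto hcw (by
        filter_upwards [self_mem_nhdsWithin] with y hy
        exact (hβbefore y hy.1.le hy.2).le)
    exact le_antisymm hle hZmem.2
  have hβx1 : β < x1 := by
    rcases hZmem.1.2.eq_or_lt with h | h
    · rw [h] at hKβ; linarith
    · exact h
  exact ⟨β, hβh, by linarith, hKβ, fun x hx hxβ => hβbefore x hx.le hxβ, hbefore β hβh.le hβx1⟩

end Pool.Agent.Lib.MP_d11fee_pr
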