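import Pool.Agent.Lib.MP_d11fee_pr.Uni2

/-!
# The unimodal class, `k ≥ 2`
-/

open Set Real MeasureTheory Filter Topology

namespace Pool.Agent.Lib.MP_d11fee_pr

variable {k n : ℕ} {c d : ℝ}

/-- `s` up to `β`, then a line with slope `l` -/
noncomputable def gu (k n : ℕ) (β l x : ℝ) : ℝ := s k n (min x β) + l * (max x β - β)

theorem gu_of_le {β l x : ℝ} (h : x ≤ β) : gu k n β l x = s k n x := by
  unfold gu; rw [min_eq_left h, max_eq_right h]; ring

theorem gu_of_ge {β l x : ℝ} (h : β ≤ x) : gu k n β l x = s k n β + l * (x - β) := by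
  unfold gu; rw [min_eq_right h, max_eq_left h]

theorem continuousOn_gu (hk : 2 ≤ k) {β l : ℝ} (hβ : 1/2 ≤ β) :
    ContinuousOn (gu k n β l) (Icc (1/2) 1) := by
  unfold gu
  apply ContinuousOn.add
  · refine (continuousOn_s n hk).comp (by fun_prop) (fun x hx => ?_)
    exact ⟨le_min (by linarith [hx.1]) (by linarith), (min_le_left _ _).trans hx.2⟩
  · fun_prop

theorem memLp_gu (hk : 2 ≤ k) {β l : ℝ} (hβ : 1/2 ≤ β) :
    MemLp (gu k n β l) 2 (volume.restrict (Ioo (1/2:ℝ) 1)) := by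
  have hm : AEStronglyMeasurable (gu k n β l) (volume.restrict (Ioo (1/2:ℝ) 1)) :=
    ((continuousOn_gu hk hβ).mono Ioo_subset_Icc_self).aestronglyMeasurable measurableSet_Ioo
  rw [memLp_two_iff_integrable_sq hm]
  exact (((continuousOn_gu hk hβ).pow 2).integrableOn_Icc).mono_set Ioo_subset_Icc_self

theorem integral_split' {φ : ℝ → ℝ} (hc : ContinuousOn φ (Icc (1/2:ℝ) 1)) {β : ℝ}
    (hβ : 1/2 ≤ β) (hβ1 : β ≤ 1) :
    ∫ x in Ioo (1/2:ℝ) 1, φ x = (∫ x in (1/2:ℝ)..β, φ x) + ∫ x in β..1, φ x := by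
  rw [← integral_Ioc_eq_integral_Ioo, ← intervalIntegral.integral_of_le (by norm_num)]
  exact (intervalIntegral.integral_add_adjacent_intervals
    (ContinuousOn.intervalIntegrable_of_Icc hβ (hc.mono (Icc_subset_Icc le_rfl hβ1)))
    (ContinuousOn.intervalIntegrable_of_Icc hβ1 (hc.mono (Icc_subset_Icc hβ le_rfl)))).symm

/-- integral of an affine function against `s - gu` -/
theorem integral_affine_sub (hk : 2 ≤ k) {β l : ℝ} (hβ : 1/2 ≤ β) (hβ1 : β < 1)
    (hmom : ∫ t in β..1, dev k n β l t * (t - β) = 0) (p q : ℝ) :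
    ∫ x in Ioo (1/2:ℝ) 1, (p + q * (x - β)) * (s k n x - gu k n β l x) =
      p * ∫ t in β..1, dev k n β l t := by
  have hc1 : ContinuousOn (fun x => (p + q * (x - β)) * (s k n x - gu k n β l x)) (Icc (1/2:ℝ) 1) := by
    apply ContinuousOn.mul (by fun_prop)
    exact (continuousOn_s' n hk).sub (continuousOn_gu hk hβ)
  rw [integral_split' hc1 hβ hβ1.le]
  have e1 : ∫ x in (1/2:ℝ)..β, (p + q * (x - β)) * (s k n x - gu k n β l x) = ∫ x in (1/2:ℝ)..β, (0:ℝ) := by
    apply intervalIntegral.integral_congr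
    intro x hx
    rw [uIcc_of_le hβ] at hx
    simp only
    rw [gu_of_le hx.2]; ring
  have e2 : ∫ x in β..1, (p + q * (x - β)) * (s k n x - gu k n β l x) =
      ∫ x in β..1, (p * dev k n β l x + q * (dev k n β l x * (x - β))) := by
    apply intervalIntegral.integral_congr
    intro x hx
    rw [uIcc_of_le hβ1.le] at hx
    simp only
    rw [gu_of_ge hx.1]; unfold dev; ring
  have hcd := continuousOn_dev (n := n) hk β l
  have i1 : IntervalIntegrable (fun t => dev k n β l t) volume β 1 :=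
    ContinuousOn.intervalIntegrable_of_Icc hβ1.le (hcd.mono (Icc_subset_Icc hβ le_rfl))
  have i2 : IntervalIntegrable (fun t => dev k n β l t * (t - β)) volume β 1 :=
    ContinuousOn.intervalIntegrable_of_Icc hβ1.le ((hcd.mono (Icc_subset_Icc hβ le_rfl)).mul (by fun_prop))
  rw [e1, e2, intervalIntegral.integral_add (i1.const_mul _) (i2.const_mul _),
    intervalIntegral.integral_const_mul, intervalIntegral.integral_const_mul, hmom]
  simp

/-- Chord facts for convex functions. -/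
theorem chord_le {g : ℝ → ℝ} (hg : ConvexOn ℝ (Ico (1/2:ℝ) 1) g) {z1 z2 x : ℝ}
    (h1 : z1 ∈ Ico (1/2:ℝ) 1) (h2 : z2 ∈ Ico (1/2:ℝ) 1) (h12 : z1 < z2) (hx : x ∈ Ico (1/2:ℝ) 1)
    (ho : x ≤ z1 ∨ z2 ≤ x) : g z1 + (g z2 - g z1) / (z2 - z1) * (x - z1) ≤ g x := by
  have hd : 0 < z2 - z1 := by linarith
  rcases ho with h | h
  · rcases h.eq_or_lt with rfl | h
    · simp
    · have := hg.slope_mono_adjacent hx h2 h h12
      rw [div_le_iff₀ (by linarith)] at this
      nlinarith
  · rcases h.eq_or_lt with h | h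
    · rw [← h]; field_simp; linarith
    · have := hg.slope_mono_adjacent h1 hx h12 h
      rw [le_div_iff₀ (by linarith)] at this
      have e : g z1 + (g z2 - g z1) / (z2 - z1) * (x - z1) =
        g z2 + (g z2 - g z1) / (z2 - z1) * (x - z2) := by field_simp; ring
      rw [e]; linarith

theorem le_chord {g : ℝ → ℝ} (hg : ConvexOn ℝ (Ico (1/2:ℝ) 1) g) {z1 z2 x : ℝ}
    (h1 : z1 ∈ Ico (1/2:ℝ) 1) (h2 : z2 ∈ Ico (1/2:ℝ) 1) (h12 : z1 < z2)
    (hx1 : z1 ≤ x) (hx2 : x ≤ z2) : g x ≤ g z1 + (g z2 - g z1) / (z2 - z1) * (x - z1) := by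
  have hd : 0 < z2 - z1 := by linarith
  rcases hx1.eq_or_lt with rfl | hx1
  · simp
  · rcases hx2.eq_or_lt with rfl | hx2
    · field_simp; linarith
    · have := hg.slope_mono_adjacent h1 h2 hx1 hx2
      rw [div_le_div_iff₀ (by linarith) (by linarith)] at this
      have e : g z1 + (g z2 - g z1) / (z2 - z1) * (x - z1) =
        (g z1 * (z2 - x) + g z2 * (x - z1)) / (z2 - z1) := by field_simp; ring
      rw [e, le_div_iff₀ hd]
      nlinarith

/-- Optimality against convex weights. -/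
theorem convex_pattern (hk : 2 ≤ k) (hn : 1 ≤ n) (hS : Shape k n c d) {β l : ℝ} (hβ : 1/2 ≤ β)
    (hβd : β ≤ d) (hl : 0 < l) (hmom : ∫ t in β..1, dev k n β l t * (t - β) = 0)
    (hI : (∫ t in β..1, dev k n β l t = 0) ∨ (β = 1/2 ∧ 0 ≤ ∫ t in β..1, dev k n β l t))
    {g : ℝ → ℝ} (hg : ConvexOn ℝ (Ico (1/2:ℝ) 1) g) (hg0 : g (1/2) = 0)
    (hgn : ∀ x ∈ Ioo (1/2:ℝ) 1, 0 ≤ g x)
    (hint : IntegrableOn (fun x => g x * (s k n x - gu k n β l x)) (Ioo (1/2:ℝ) 1)) :
    ∫ x in Ioo (1/2:ℝ) 1, g x * (s k n x - gu k n β l x) ≤ 0 := by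
  have hβc : β < c := by linarith [hS.hd.2]
  have hβ1 : β < 1 := by linarith [hS.hc.2]
  have hcd := (continuousOn_dev (n := n) hk β l).mono (Icc_subset_Icc hβ le_rfl)
  have hdev1 := dev_one_neg hk hn hS hβ hβc hl
  have hH : ∀ x, β ≤ x → s k n x - gu k n β l x = dev k n β l x := by
    intro x hx; rw [gu_of_ge hx]; rfl
  by_cases hpos : ∃ t ∈ Ioo β 1, 0 < dev k n β l t
  · obtain ⟨t0, ht0, htp⟩ := hpos
    let B : Set ℝ := {t ∈ Ioo β 1 | 0 < dev k n β l t}
    have hB0 : t0 ∈ B := ⟨ht0, htp⟩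
    have hBb : BddBelow B := ⟨β, fun y hy => hy.1.1.le⟩
    have hBa : BddAbove B := ⟨1, fun y hy => hy.1.2.le⟩
    set z1 := sInf B with hz1
    set z2 := sSup B with hz2
    have hz1β : β ≤ z1 := le_csInf ⟨_, hB0⟩ (fun y hy => hy.1.1.le)
    have hz2t : t0 ≤ z2 := le_csSup hBa hB0
    -- `z1 < t0`
    have hz1t : z1 < t0 := by
      have hev : ∀ᶠ y in 𝓝 t0, 0 < dev k n β l y ∧ y ∈ Ioo β 1 := by
        have hca : ContinuousAt (dev k n β l) t0 := hcd.continuousAt (Icc_mem_nhds ht0.1 ht0.2)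
        exact (hca.eventually_const_lt htp).and (Ioo_mem_nhds ht0.1 ht0.2)
      have hev2 := hev.filter_mono (nhdsWithin_le_nhds (s := Iio t0))
      obtain ⟨y, hy, hyt⟩ := (hev2.and self_mem_nhdsWithin).exists
      exact lt_of_le_of_lt (csInf_le hBb (show y ∈ B from ⟨hy.2, hy.1⟩)) hyt
    have hz12 : z1 < z2 := lt_of_lt_of_le hz1t hz2t
    -- `z2 < 1`
    have hz21 : z2 < 1 := by
      let B' : Set ℝ := {t ∈ Icc β 1 | 0 ≤ dev k n β l t}
      have hB'c : IsClosed B' := by
        have := hcd.preimage_isClosed_of_isClosed isClosed_Icc (isClosed_Ici (a := (0:ℝ)))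
        convert this using 1
        ext x
        simp only [B', mem_ofPred_eq, mem_inter_iff, mem_preimage, mem_Ici]
      have hB'a : BddAbove B' := ⟨1, fun y hy => hy.1.2⟩
      have hB'0 : t0 ∈ B' := ⟨Ioo_subset_Icc_self ht0, htp.le⟩
      have hmem := hB'c.csSup_mem ⟨_, hB'0⟩ hB'a
      have h3 : sSup B' ≠ 1 := by
        intro h
        rw [h] at hmem
        linarith [hmem.2]
      have h4 : z2 ≤ sSup B' := by
        apply csSup_le ⟨_, hB0⟩
        intro y hy
        exact le_csSup hB'a ⟨Ioo_subset_Icc_self hy.1, hy.2.le⟩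
      exact lt_of_le_of_lt h4 (lt_of_le_of_ne hmem.1.2 h3)
    have hz1m : z1 ∈ Ico (1/2:ℝ) 1 := ⟨by linarith, by linarith⟩
    have hz2m : z2 ∈ Ico (1/2:ℝ) 1 := ⟨by linarith, hz21⟩
    set m := (g z2 - g z1) / (z2 - z1) with hm
    -- pointwise comparison
    have hpt : ∀ x ∈ Ioo (1/2:ℝ) 1, g x * (s k n x - gu k n β l x) ≤
        ((g z1 + m * (β - z1)) + m * (x - β)) * (s k n x - gu k n β l x) := by
      intro x hx
      have eA : (g z1 + m * (β - z1)) + m * (x - β) = g z1 + m * (x - z1) := by ring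
      rw [eA]
      rcases le_or_gt x β with hxβ | hxβ
      · rw [gu_of_le hxβ, sub_self, mul_zero, mul_zero]
      · rw [hH x hxβ.le]
        rcases le_or_gt x z1 with h1 | h1
        · have hA := chord_le hg hz1m hz2m hz12 ⟨hx.1.le, hx.2⟩ (Or.inl h1)
          rcases h1.eq_or_lt with h1 | h1
          · have : g x = g z1 + m * (x - z1) := by rw [h1]; ring
            rw [this]
          · have hneg : dev k n β l x ≤ 0 := by
              by_contra hcon
              push Not at hcon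
              have := csInf_le hBb (show x ∈ B from ⟨⟨hxβ, hx.2⟩, hcon⟩)
              linarith
            exact mul_le_mul_of_nonpos_right hA hneg
        · rcases lt_or_ge x z2 with h2 | h2
          · have hA := le_chord hg hz1m hz2m hz12 h1.le h2.le
            obtain ⟨a, ha, hax⟩ := exists_lt_of_csInf_lt ⟨_, hB0⟩ h1
            obtain ⟨b, hb, hxb⟩ := exists_lt_of_lt_csSup ⟨_, hB0⟩ h2
            have hp := hS.ordConn hk hβ hβd hl ha.1.1 hax hxb hb.1.2 ha.2 hb.2
            exact mul_le_mul_of_nonneg_right hA hp.le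
          · have hA := chord_le hg hz1m hz2m hz12 ⟨hx.1.le, hx.2⟩ (Or.inr h2)
            rcases h2.eq_or_lt with h2 | h2
            · have : g x = g z1 + m * (x - z1) := by
                rw [← h2, hm]
                have : z2 - z1 ≠ 0 := by linarith
                field_simp; ring
              rw [this]
            · have hneg : dev k n β l x ≤ 0 := by
                by_contra hcon
                push Not at hcon
                have := le_csSup hBa (show x ∈ B from ⟨⟨hxβ, hx.2⟩, hcon⟩)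
                linarith
              exact mul_le_mul_of_nonpos_right hA hneg
    have hcA : ContinuousOn (fun x => ((g z1 + m * (β - z1)) + m * (x - β)) *
        (s k n x - gu k n β l x)) (Icc (1/2:ℝ) 1) := by
      apply ContinuousOn.mul (by fun_prop)
      exact (continuousOn_s' n hk).sub (continuousOn_gu hk hβ)
    have h5 := setIntegral_mono_on hint (hcA.integrableOn_Icc.mono_set Ioo_subset_Icc_self)
      measurableSet_Ioo hpt
    rw [integral_affine_sub hk hβ hβ1 hmom] at h5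
    refine h5.trans ?_
    rcases hI with hI | ⟨hI1, hI2⟩
    · rw [hI, mul_zero]
    · apply mul_nonpos_of_nonpos_of_nonneg _ hI2
      have := chord_le hg hz1m hz2m hz12 (x := 1/2) ⟨le_rfl, by norm_num⟩ (Or.inl hz1m.1)
      rw [hg0] at this
      rw [hI1]
      exact this
  · push Not at hpos
    apply setIntegral_nonpos measurableSet_Ioo
    intro x hx
    rcases le_or_gt x β with hxβ | hxβ
    · rw [gu_of_le hxβ, sub_self, mul_zero]
    · rw [hH x hxβ.le]
      exact mul_nonpos_of_nonneg_of_nonpos (hgn x hx) (hpos x ⟨hxβ, hx.2⟩)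

theorem uni_quantile_sub {ν : Measure ℝ} (h : UniParent ν) :
    ConvexOn ℝ (Ico (1/2:ℝ) 1) (fun x => quantile ν x - mean ν) ∧
      quantile ν (1/2) - mean ν = 0 := by
  obtain ⟨h1, h2⟩ := uni_quantile h
  refine ⟨?_, by rw [h1, sub_self]⟩
  have := h2.sub (concaveOn_const (mean ν) h2.1)
  exact this

/-- Upper bound for the unimodal class. -/
theorem ratio_le_uni (hk : 2 ≤ k) (hn : 1 ≤ n) (hS : Shape k n c d) {β l : ℝ} (hβ : 1/2 ≤ β)
    (hβd : β ≤ d) (hl : 0 < l) (hmom : ∫ t in β..1, dev k n β l t * (t - β) = 0)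
    (hI : (∫ t in β..1, dev k n β l t = 0) ∨ (β = 1/2 ∧ 0 ≤ ∫ t in β..1, dev k n β l t))
    {ν : Measure ℝ} (h : UniParent ν) :
    ratio k n ν ≤ Real.sqrt ((∫ x in Ioo (1/2:ℝ) 1, gu k n β l x ^ 2) / 2) := by
  have hs := h.toSymParent
  obtain ⟨hq1, hq2⟩ := uni_quantile_sub h
  apply ratio_le n (by omega) hs (memLp_gu hk hβ)
  have hgs : Integrable (fun x => (quantile ν x - mean ν) * s k n x)
      (volume.restrict (Ioo (1/2:ℝ) 1)) :=
    (memLp_quantile_sub hs).integrable_mul (memLp_s n (by omega))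
  have hgg : Integrable (fun x => (quantile ν x - mean ν) * gu k n β l x)
      (volume.restrict (Ioo (1/2:ℝ) 1)) :=
    (memLp_quantile_sub hs).integrable_mul (memLp_gu hk hβ)
  have hgh : IntegrableOn (fun x => (quantile ν x - mean ν) * (s k n x - gu k n β l x))
      (Ioo (1/2:ℝ) 1) := by
    refine (hgs.sub hgg).congr ?_
    filter_upwards with x
    simp only [Pi.sub_apply]; ring
  have key := convex_pattern hk hn hS hβ hβd hl hmom hI (g := fun x => quantile ν x - mean ν) hq1 hq2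
    (fun x hx => by have := mean_le_quantile hs hx; linarith) hgh
  have e : ∫ x in Ioo (1/2:ℝ) 1, (quantile ν x - mean ν) * (s k n x - gu k n β l x) =
      (∫ x in Ioo (1/2:ℝ) 1, (quantile ν x - mean ν) * s k n x) -
      ∫ x in Ioo (1/2:ℝ) 1, (quantile ν x - mean ν) * gu k n β l x := by
    rw [← integral_sub hgs hgg]
    apply setIntegral_congr_fun measurableSet_Ioo
    intro x _
    simp only; ring
  linarith

theorem integral_gu_mul (hk : 2 ≤ k) {β l : ℝ} (hβ : 1/2 ≤ β) (hβ1 : β < 1)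
    (hmom : ∫ t in β..1, dev k n β l t * (t - β) = 0)
    (hI : (∫ t in β..1, dev k n β l t = 0) ∨ (β = 1/2 ∧ 0 ≤ ∫ t in β..1, dev k n β l t)) :
    ∫ x in Ioo (1/2:ℝ) 1, gu k n β l x * s k n x = ∫ x in Ioo (1/2:ℝ) 1, gu k n β l x ^ 2 := by
  have e : ∫ x in Ioo (1/2:ℝ) 1, (gu k n β l x * s k n x - gu k n β l x ^ 2) =
      ∫ x in Ioo (1/2:ℝ) 1, (s k n β + l * (x - β)) * (s k n x - gu k n β l x) := by
    apply setIntegral_congr_fun measurableSet_Ioo
    intro x hx
    simp only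
    rcases le_total x β with h | h
    · rw [gu_of_le h]; ring
    · rw [gu_of_ge h]; ring
  rw [integral_affine_sub hk hβ hβ1 hmom] at e
  have e0 : s k n β * ∫ t in β..1, dev k n β l t = 0 := by
    rcases hI with hI | ⟨hI1, hI2⟩
    · rw [hI, mul_zero]
    · rw [hI1, s_half, zero_mul]
  rw [e0, integral_sub] at e
  · linarith
  · exact (memLp_gu hk hβ).integrable_mul (memLp_s n (by omega))
  · exact (memLp_gu hk hβ).integrable_sq

theorem integral_gu_sq (hk : 2 ≤ k) {β l : ℝ} (hβ : 1/2 ≤ β) (hβ1 : β < 1) :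
    ∫ x in Ioo (1/2:ℝ) 1, gu k n β l x ^ 2 = (∫ x in (1/2:ℝ)..β, s k n x ^ 2) +
      ((1 - β) * s k n β ^ 2 + l * s k n β * (1 - β) ^ 2 + l ^ 2 * (1 - β) ^ 3 / 3) := by
  have hcc : ContinuousOn (fun x => gu k n β l x ^ 2) (Icc (1/2:ℝ) 1) := (continuousOn_gu hk hβ).pow 2
  rw [integral_split' hcc hβ hβ1.le]
  have e1 : ∫ x in (1/2:ℝ)..β, gu k n β l x ^ 2 = ∫ x in (1/2:ℝ)..β, s k n x ^ 2 := by
    apply intervalIntegral.integral_congr
    intro x hx
    rw [uIcc_of_le hβ] at hx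
    simp only
    rw [gu_of_le hx.2]
  have e2 : ∫ x in β..1, gu k n β l x ^ 2 = ∫ x in β..1, (s k n β + l * (x - β)) ^ 2 := by
    apply intervalIntegral.integral_congr
    intro x hx
    rw [uIcc_of_le hβ1.le] at hx
    simp only
    rw [gu_of_ge hx.1]
  have hd : ∀ t ∈ uIcc β 1, HasDerivAt (fun t => s k n β ^ 2 * (t - β) + s k n β * l * (t - β) ^ 2 +
      l ^ 2 * (t - β) ^ 3 / 3) ((s k n β + l * (t - β)) ^ 2) t := by
    intro t _
    have h0 : HasDerivAt (fun t : ℝ => t - β) 1 t := (hasDerivAt_id t).sub_const β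
    have h1 := ((h0.const_mul (s k n β ^ 2)).add ((h0.pow 2).const_mul (s k n β * l))).add
      (((h0.pow 3).const_mul (l ^ 2)).div_const 3)
    refine HasDerivAt.congr_deriv h1 ?_
    simp only [Nat.cast_ofNat]; ring
  rw [e1, e2, intervalIntegral.integral_eq_sub_of_hasDerivAt hd
    (Continuous.intervalIntegrable (by fun_prop) _ _)]
  ring

/-- The extremal law exists. -/
theorem exists_uni_attained (hk : 2 ≤ k) (hS : Shape k n c d) {β l : ℝ} (hβ : 1/2 ≤ β)
    (hβd : β ≤ d) (hl : 0 < l) (hsl : β = 1/2 ∨ s1 k n β ≤ l)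
    (hmom : ∫ t in β..1, dev k n β l t * (t - β) = 0)
    (hI : (∫ t in β..1, dev k n β l t = 0) ∨ (β = 1/2 ∧ 0 ≤ ∫ t in β..1, dev k n β l t)) :
    ∃ ν : Measure ℝ, UniParent ν ∧
      ratio k n ν = Real.sqrt ((∫ x in Ioo (1/2:ℝ) 1, gu k n β l x ^ 2) / 2) := by
  have hdc := hS.hd.2
  have hβ1 : β < 1 := by linarith [hS.hc.2]
  obtain ⟨ν, hν, hm, hv, hq, -⟩ := exists_uniParent (gu k n β l)
    (fun x => if x < β then s1 k n x else l) {β} (finite_singleton β)
    ((continuousOn_gu hk hβ).mono Ico_subset_Icc_self)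
    (by rw [gu_of_le hβ, s_half])
    ((memLp_gu hk hβ).integrable_sq)
    (fun x hx hxE => by
      have hne : x ≠ β := hxE
      rcases lt_or_gt_of_ne hne with h | h
      · simp only [h, if_true]
        refine (hasDerivAt_s k n (by linarith [hx.1]) hx.2).congr_of_eventuallyEq ?_
        filter_upwards [Iio_mem_nhds h] with y hy
        exact gu_of_le (le_of_lt hy)
      · simp only [not_lt.2 h.le, if_false]
        have h0 : HasDerivAt (fun y => s k n β + l * (y - β)) l x := by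
          have := (((hasDerivAt_id x).sub_const β).const_mul l).const_add (s k n β)
          simpa using this
        refine h0.congr_of_eventuallyEq ?_
        filter_upwards [Ioi_mem_nhds h] with y hy
        exact gu_of_ge (le_of_lt hy))
    (fun x hx => by
      split_ifs with h
      · exact hS.s1pos x ⟨hx.1, by linarith⟩
      · exact hl)
    (fun x hx y hy hxy => by
      simp only
      split_ifs with h1 h2 h2
      · exact hS.mono1.monotoneOn ⟨hx.1.le, by linarith⟩ ⟨hy.1.le, by linarith⟩ hxy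
      · rcases hsl with h3 | h3
        · linarith [hx.1]
        · exact (hS.mono1.monotoneOn ⟨hx.1.le, by linarith⟩ ⟨hβ, hβd⟩ h1.le).trans h3
      · linarith
      · exact le_rfl)
  refine ⟨ν, hν, ?_⟩
  rw [ratio_eq n (by omega) hν.toSymParent hm hv hq, integral_gu_mul hk hβ hβ1 hmom hI]
  set G := ∫ x in Ioo (1/2:ℝ) 1, gu k n β l x ^ 2 with hG
  have hGpos : 0 < G := by
    have := hν.var_pos
    rw [hv] at this
    linarith
  rw [div_eq_iff (Real.sqrt_pos.2 (by positivity)).ne', ← Real.sqrt_mul (by positivity)]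
  have : G / 2 * (2 * G) = G ^ 2 := by ring
  rw [this, Real.sqrt_sq hGpos.le]

/-- The set of normalized deviations over the unimodal class. -/
def uniSet (k n : ℕ) : Set ℝ := {r | ∃ ν : Measure ℝ, UniParent ν ∧ r = ratio k n ν}

theorem uniSet_isLUB_of (hk : 2 ≤ k) (hn : 1 ≤ n) (hS : Shape k n c d) {β l : ℝ} (hβ : 1/2 ≤ β)
    (hβd : β ≤ d) (hl : 0 < l) (hsl : β = 1/2 ∨ s1 k n β ≤ l)
    (hmom : ∫ t in β..1, dev k n β l t * (t - β) = 0)
    (hI : (∫ t in β..1, dev k n β l t = 0) ∨ (β = 1/2 ∧ 0 ≤ ∫ t in β..1, dev k n β l t)) :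
    IsGreatest (uniSet k n) (Real.sqrt ((∫ x in Ioo (1/2:ℝ) 1, gu k n β l x ^ 2) / 2)) := by
  constructor
  · obtain ⟨ν, hν, h⟩ := exists_uni_attained hk hS hβ hβd hl hsl hmom hI
    exact ⟨ν, hν, h.symm⟩
  · rintro r ⟨ν, hν, rfl⟩
    exact ratio_le_uni hk hn hS hβ hβd hl hmom hI hν

theorem exists_pos_of_A (hk : 2 ≤ k) (hA : ((k:ℝ) / (k + 1)) ^ (n + 1) < 1/2) :
    ∃ x ∈ Ioo (1/2:ℝ) 1, 0 < s k n x := by
  by_contra hcon
  push Not at hcon
  have h1 : ∫ x in Ioo (1/2:ℝ) 1, s k n x * (x - 1/2) ≤ 0 := by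
    apply setIntegral_nonpos measurableSet_Ioo
    intro x hx
    exact mul_nonpos_of_nonpos_of_nonneg (hcon x hx) (by linarith [hx.1])
  rw [← integral_Ioc_eq_integral_Ioo, ← intervalIntegral.integral_of_le (by norm_num),
    tail1_half n hk] at h1
  linarith

theorem dev_integral (hk : 2 ≤ k) {x : ℝ} (hx : 0 ≤ x) (hx1 : x < 1) :
    4 * (1 - x) * (∫ t in x..1, dev k n x (lam k n x) t) = KK k n x := by
  have h6 := KK_line (k := k) n hk hx hx1.le (lam k n x)
  rw [lam_moment n hk hx hx1] at h6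
  rw [h6]
  unfold dev
  ring

/-- Case (b). -/
theorem uniSet_case_b (hk : 2 ≤ k) (hn : 1 ≤ n) (hA : ((k:ℝ) / (k + 1)) ^ (n + 1) < 1/2)
    (hK : 0 ≤ KK k n (1/2)) :
    IsGreatest (uniSet k n) (Real.sqrt 3 * (1 - 2 * ((k:ℝ) / (k + 1)) ^ (n + 1))) := by
  obtain ⟨c, d, hS⟩ := exists_shape hk hn (exists_pos_of_A hk hA)
  have hlam : lam k n (1/2) = 12 * (1 - 2 * ((k:ℝ) / (k + 1)) ^ (n + 1)) := by
    unfold lam
    rw [tail1_half n hk, s_half]
    ring
  have hl : 0 < lam k n (1/2) := by rw [hlam]; linarith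
  have hdi := dev_integral (k := k) (n := n) hk (x := 1/2) (by norm_num) (by norm_num)
  have h := uniSet_isLUB_of hk hn hS le_rfl hS.hd.1 hl (Or.inl rfl)
    (lam_moment n hk (by norm_num) (by norm_num))
    (Or.inr ⟨rfl, by
      have h1 : 0 ≤ 4 * (1 - 1/2 : ℝ) * (∫ t in (1/2:ℝ)..1, dev k n (1/2) (lam k n (1/2)) t) := by
        rw [hdi]; exact hK
      linarith⟩)
  rw [integral_gu_sq hk le_rfl (by norm_num), s_half, hlam] at h
  convert h using 1
  have h3 : 0 < 1 - 2 * ((k:ℝ) / (k + 1)) ^ (n + 1) := by linarith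
  rw [intervalIntegral.integral_same]
  have e : (0 + ((1 - 1/2 : ℝ) * 0 ^ 2 + 12 * (1 - 2 * ((k:ℝ) / (k + 1)) ^ (n + 1)) * 0 * (1 - 1/2) ^ 2 +
      (12 * (1 - 2 * ((k:ℝ) / (k + 1)) ^ (n + 1))) ^ 2 * (1 - 1/2) ^ 3 / 3)) / 2 =
      3 * (1 - 2 * ((k:ℝ) / (k + 1)) ^ (n + 1)) ^ 2 := by ring
  rw [e, Real.sqrt_mul (by norm_num), Real.sqrt_sq h3.le]

/-- Case (a), upper bound. -/
theorem ratio_nonpos_uni (hk : 2 ≤ k) (hn : 1 ≤ n) (hA : 1/2 ≤ ((k:ℝ) / (k + 1)) ^ (n + 1))
    {ν : Measure ℝ} (h : UniParent ν) : ratio k n ν ≤ 0 := by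
  have hs := h.toSymParent
  obtain ⟨hq1, hq2⟩ := uni_quantile_sub h
  have hgs : Integrable (fun x => (quantile ν x - mean ν) * s k n x)
      (volume.restrict (Ioo (1/2:ℝ) 1)) :=
    (memLp_quantile_sub hs).integrable_mul (memLp_s n (by omega))
  have hsc : ContinuousOn (fun x => (x - 1/2) * s k n x) (Icc (1/2:ℝ) 1) :=
    ContinuousOn.mul (by fun_prop) (continuousOn_s' n hk)
  have hs0 : IntegrableOn (fun x => (x - 1/2) * s k n x) (Ioo (1/2:ℝ) 1) :=
    hsc.integrableOn_Icc.mono_set Ioo_subset_Icc_self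
  have hsI : ∫ x in Ioo (1/2:ℝ) 1, (x - 1/2) * s k n x ≤ 0 := by
    have e : ∫ x in Ioo (1/2:ℝ) 1, (x - 1/2) * s k n x = ∫ x in Ioo (1/2:ℝ) 1, s k n x * (x - 1/2) := by
      apply setIntegral_congr_fun measurableSet_Ioo
      intro x _
      simp only; ring
    rw [e, ← integral_Ioc_eq_integral_Ioo, ← intervalIntegral.integral_of_le (by norm_num),
      tail1_half n hk]
    linarith
  have key : ∫ x in Ioo (1/2:ℝ) 1, (quantile ν x - mean ν) * s k n x ≤ 0 := by
    by_cases hpos : ∃ x ∈ Ioo (1/2:ℝ) 1, 0 < s k n x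
    · obtain ⟨c, hc, hsc', -, -, -, -⟩ := exists_peak hk hn hpos
      obtain ⟨x1, hx1, hsx1⟩ : ∃ x ∈ Ioo (1/2:ℝ) 1, s k n x ≤ 0 := by
        by_contra hcon
        push Not at hcon
        have h1 : 0 < ∫ x in Ioo (1/2:ℝ) 1, (x - 1/2) * s k n x := by
          rw [setIntegral_pos_iff_support_of_nonneg_ae]
          · have : Function.support (fun x => (x - 1/2) * s k n x) ∩ Ioo (1/2:ℝ) 1 = Ioo (1/2:ℝ) 1 := by
              apply inter_eq_right.2
              intro x hx
              have h1 : 0 < x - 1/2 := by linarith [hx.1]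
              exact (mul_pos h1 (hcon x hx)).ne'
            rw [this, Real.volume_Ioo]; norm_num
          · filter_upwards [ae_restrict_mem measurableSet_Ioo] with x hx
            have h1 : 0 < x - 1/2 := by linarith [hx.1]
            exact (mul_pos h1 (hcon x hx)).le
          · exact hs0
        linarith
      have hcx1 : c < x1 := by
        by_contra hcon
        push Not at hcon
        have := s_nonneg_of_exists hk hn hx1.1 hcon hc.2 hsc'
        linarith
      obtain ⟨z, hz, hsz⟩ := intermediate_value_Icc' hcx1.le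
        ((continuousOn_s n hk).mono (Icc_subset_Icc (by linarith [hc.1]) hx1.2.le))
        (show (0:ℝ) ∈ Icc (s k n x1) (s k n c) from ⟨hsx1, hsc'.le⟩)
      have hz' : z ∈ Ioo (1/2:ℝ) 1 := ⟨by linarith [hc.1, hz.1], by linarith [hz.2, hx1.2]⟩
      set g : ℝ → ℝ := fun x => quantile ν x - mean ν with hg
      have hg0 : g (1/2) = 0 := hq2
      have hgz : 0 ≤ g z := by have := mean_le_quantile hs hz'; simp only [hg]; linarith
      set m := (g z - g (1/2)) / (z - 1/2) with hm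
      have hm0 : 0 ≤ m := by
        rw [hm, hg0, sub_zero]
        exact div_nonneg hgz (by linarith [hz'.1])
      have hz1m : (1/2:ℝ) ∈ Ico (1/2:ℝ) 1 := ⟨le_rfl, by norm_num⟩
      have hz2m : z ∈ Ico (1/2:ℝ) 1 := ⟨hz'.1.le, hz'.2⟩
      have hpt : ∀ x ∈ Ioo (1/2:ℝ) 1, g x * s k n x ≤ m * ((x - 1/2) * s k n x) := by
        intro x hx
        have e : m * ((x - 1/2) * s k n x) = (g (1/2) + m * (x - 1/2)) * s k n x := by
          rw [hg0]; ring
        rw [e]
        rcases le_total x z with hxz | hxz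
        · apply mul_le_mul_of_nonneg_right (le_chord hq1 hz1m hz2m hz'.1 hx.1.le hxz)
          rcases hxz.eq_or_lt with rfl | hxz
          · exact hsz.ge
          · by_contra hcon
            push Not at hcon
            have := s_neg hk hn hx.1 hxz hz'.2 hcon.le
            linarith
        · apply mul_le_mul_of_nonpos_right
            (chord_le hq1 hz1m hz2m hz'.1 ⟨hx.1.le, hx.2⟩ (Or.inr hxz))
          rcases hxz.eq_or_lt with rfl | hxz
          · exact hsz.le
          · exact (s_neg hk hn hz'.1 hxz hx.2 hsz.le).le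
      have h5 := setIntegral_mono_on hgs (hs0.const_mul m) measurableSet_Ioo hpt
      rw [integral_const_mul] at h5
      exact h5.trans (mul_nonpos_of_nonneg_of_nonpos hm0 hsI)
    · push Not at hpos
      apply setIntegral_nonpos measurableSet_Ioo
      intro x hx
      exact mul_nonpos_of_nonneg_of_nonpos (by have := mean_le_quantile hs hx; linarith) (hpos x hx)
  have h2 := ratio_le n (by omega : 1 ≤ k) hs (u := fun _ => 0) (MemLp.zero' ) (by simpa using key)
  simpa using h2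

theorem uniSet_case_a (hk : 2 ≤ k) (hn : 1 ≤ n) (hA : 1/2 ≤ ((k:ℝ) / (k + 1)) ^ (n + 1)) :
    IsLUB (uniSet k n) 0 := by
  constructor
  · rintro r ⟨ν, hν, rfl⟩
    exact ratio_nonpos_uni hk hn hA hν
  · intro B hB
    by_contra hcon
    push Not at hcon
    obtain ⟨ν, hν, h⟩ := exists_uni_ratio_ge hk hn (neg_pos.2 hcon)
    rw [neg_neg] at h
    have := hB ⟨ν, hν, rfl⟩
    linarith

/-- Case (c). -/
theorem uniSet_case_c (hk : 2 ≤ k) (hn : 1 ≤ n) (hA : ((k:ℝ) / (k + 1)) ^ (n + 1) < 1/2)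
    (hK : KK k n (1/2) < 0) :
    ∃ β, 1/2 < β ∧ β < 1 ∧ KK k n β = 0 ∧ (∀ x, 1/2 < x → x < β → KK k n x < 0) ∧
      0 < 1 - F k n β - F k n (1 - β) - (1 - β) * s k n β ∧
      ConvexOn ℝ (Icc (1/2) β) (s k n) ∧
      IsGreatest (uniSet k n) (Real.sqrt (((∫ x in (1/2:ℝ)..β, s k n x ^ 2) +
        (4 * (1 - F k n β - F k n (1 - β)) ^ 2 -
          2 * (1 - F k n β - F k n (1 - β)) * ((1 - β) * s k n β) +
          ((1 - β) * s k n β) ^ 2) / (3 * (1 - β))) / 2)) := by
  obtain ⟨c, d, hS⟩ := exists_shape hk hn (exists_pos_of_A hk hA)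
  obtain ⟨β, hβ, hβd, hKβ, hbef, hsl⟩ := exists_break hk hn hS hA hK
  have hdc := hS.hd.2
  have hβ1 : β < 1 := by linarith [hS.hc.2]
  have hs1 : 0 < s1 k n β := hS.s1pos β ⟨hβ, by linarith⟩
  have hl : 0 < lam k n β := by linarith
  have hdi := dev_integral (k := k) (n := n) hk (x := β) (by linarith) hβ1
  have h1β : 0 < 1 - β := by linarith
  have hI : ∫ t in β..1, dev k n β (lam k n β) t = 0 := by
    rw [hKβ] at hdi
    have : 4 * (1 - β) ≠ 0 := by positivity
    exact (mul_eq_zero.1 hdi).resolve_left this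
  have h := uniSet_isLUB_of hk hn hS hβ.le hβd.le hl (Or.inr hsl.le)
    (lam_moment n hk (by linarith) hβ1) (Or.inl hI)
  obtain ⟨hm1, -⟩ := line_moments (k := k) n hk (x := β) (by linarith) hβ1.le (lam k n β)
  have hm1' : (∫ t in β..1, s k n t) - s k n β * (1 - β) - lam k n β * (1 - β) ^ 2 / 2 = 0 := by
    rw [← hm1]; exact hI
  rw [integral_s n (by omega) (by linarith) hβ1.le] at hm1'
  set S0 := 1 - F k n β - F k n (1 - β) with hS0
  have hlval : lam k n β = 2 * (S0 - (1 - β) * s k n β) / (1 - β) ^ 2 := by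
    rw [eq_div_iff (by positivity)]; linarith
  refine ⟨β, hβ, hβ1, hKβ, hbef, ?_, ?_, ?_⟩
  · have : 0 < lam k n β * (1 - β) ^ 2 / 2 := by positivity
    linarith
  · exact (hS.conv hk).subset (Icc_subset_Icc le_rfl hβd.le) (convex_Icc _ _)
  · rw [integral_gu_sq hk hβ.le hβ1, hlval] at h
    convert h using 5
    field_simp
    ring

end Pool.Agent.Lib.MP_d11fee_pr
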