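import Pool.Agent.Lib.MP_d11fee_pr.Uni3

/-!
# The unimodal class, `k = 1`
-/

open Set Real MeasureTheory Filter Topology

namespace Pool.Agent.Lib.MP_d11fee_pr

theorem P2_zero_lt {n : ℕ} (hn : 1 ≤ n) {x : ℝ} (hx : 1/2 < x) (hx1 : x < 1) :
    P2 n 0 (1 - x) < P2 n 0 x := by
  have hv := vv_pos (by linarith : (0:ℝ) < x) hx1
  have hw := ww_pos (by linarith : (0:ℝ) < x) hx1
  have hwv := ww_lt_vv hx hx1
  have h1 : 0 < 1 - x := by linarith
  have h0 : 0 < x := by linarith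
  unfold P2 PP qq
  rw [vv_one_sub]
  have e : (1:ℝ) - (1 - x) = x := by ring
  rw [e]
  rcases Nat.lt_or_ge n 2 with h | h
  · have hn1 : n = 1 := by omega
    subst hn1
    have e1 : ∀ v y : ℝ, 0 < v → 0 < y → v ^ 1 * y ^ 0 * ((((1:ℕ):ℝ) - ((0:ℕ):ℝ) * v) ^ 2 + v * (((1:ℕ):ℝ) - ((0:ℕ):ℝ) * v) -
        ((1:ℕ):ℝ)) / (v ^ 2 * y ^ 2) = 1 / y ^ 2 := by
      intro v y hv hy
      push_cast
      field_simp
      ring
    have a1 := e1 (ww x) x hw h0
    have a2 := e1 (vv x) (1 - x) hv h1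
    rw [mul_div_assoc] at a1 a2
    rw [a1, a2]
    apply one_div_lt_one_div_of_lt (by positivity)
    nlinarith
  · obtain ⟨j, rfl⟩ : ∃ j, n = j + 2 := ⟨n - 2, by omega⟩
    have e1 : ∀ v y : ℝ, 0 < v → 0 < y → v ^ (j + 2) * y ^ 0 * ((((j + 2:ℕ):ℝ) - ((0:ℕ):ℝ) * v) ^ 2 + v * (((j + 2:ℕ):ℝ) - ((0:ℕ):ℝ) * v) -
        ((j + 2:ℕ):ℝ)) / (v ^ 2 * y ^ 2) = v ^ j * ((j + 2) * (j + 1 + v)) / y ^ 2 := by
      intro v y hv hy
      push_cast
      field_simp
      ring
    have a1 := e1 (ww x) x hw h0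
    have a2 := e1 (vv x) (1 - x) hv h1
    rw [mul_div_assoc] at a1 a2
    rw [a1, a2]
    have b1 : ww x ^ j * (((j:ℝ) + 2) * (j + 1 + ww x)) ≤ vv x ^ j * ((j + 2) * (j + 1 + vv x)) := by
      gcongr
    have b2 : 0 < ww x ^ j * (((j:ℝ) + 2) * (j + 1 + ww x)) := by positivity
    rw [div_lt_div_iff₀ (by positivity) (by positivity)]
    have b3 : (1 - x) ^ 2 < x ^ 2 := by nlinarith
    calc ww x ^ j * (((j:ℝ) + 2) * (j + 1 + ww x)) * (1 - x) ^ 2
        < ww x ^ j * (((j:ℝ) + 2) * (j + 1 + ww x)) * x ^ 2 := mul_lt_mul_of_pos_left b3 b2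
      _ ≤ vv x ^ j * ((j + 2) * (j + 1 + vv x)) * x ^ 2 := by
        apply mul_le_mul_of_nonneg_right b1 (by positivity)

theorem s2_one_pos {n : ℕ} (hn : 1 ≤ n) {x : ℝ} (hx : 1/2 < x) (hx1 : x < 1) : 0 < s2 1 n x := by
  have := P2_zero_lt hn hx hx1
  have hC := CC_pos (k := 1) (n := n) le_rfl
  unfold s2 S2
  simp only [Nat.sub_self]
  apply mul_pos hC
  linarith

theorem s1_one_pos {n : ℕ} (hn : 1 ≤ n) {x : ℝ} (hx : 0 < x) (hx1 : x < 1) : 0 < s1 1 n x := by
  have hC := CC_pos (k := 1) (n := n) le_rfl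
  have hn' : (0:ℝ) < n := by exact_mod_cast hn
  unfold s1 S1 P1
  simp only [Nat.sub_self]
  apply mul_pos hC
  have key : ∀ y : ℝ, 0 < y → y < 1 → 0 < PP n 0 y * ((n / vv y - ((0:ℕ):ℝ)) / (1 - y)) := by
    intro y hy hy1
    have hv := vv_pos hy hy1
    have hp := PP_pos n 0 hy hy1
    have : 0 < 1 - y := by linarith
    push_cast
    rw [sub_zero]
    positivity
  exact add_pos (key x hx hx1) (key (1 - x) (by linarith) (by linarith))

theorem integral_fold {φ : ℝ → ℝ} (hφ : Integrable φ (volume.restrict (Ioo (0:ℝ) 1))) :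
    ∫ x in Ioo (0:ℝ) 1, φ x = ∫ x in Ioo (1/2:ℝ) 1, (φ x + φ (1 - x)) := by
  have hl : Integrable φ (volume.restrict (Ioo (0:ℝ) (1/2))) :=
    hφ.mono_measure (Measure.restrict_mono (Ioo_subset_Ioo le_rfl (by norm_num)) le_rfl)
  have hr : Integrable φ (volume.restrict (Ioo (1/2:ℝ) 1)) :=
    hφ.mono_measure (Measure.restrict_mono (Ioo_subset_Ioo (by norm_num) le_rfl) le_rfl)
  have e2 : ∫ x in Ioo (0:ℝ) (1/2), φ x = ∫ x in Ioo (1/2:ℝ) 1, φ (1 - x) := by
    have h := Construct.measurePreserving_reflect_half.integral_comp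
      (MeasurableEquiv.subLeft (1 : ℝ)).measurableEmbedding (fun y => φ (1 - y))
    rw [← h]
    apply integral_congr_ae
    filter_upwards with x
    simp
  have hr2 : Integrable (fun x => φ (1 - x)) (volume.restrict (Ioo (1/2:ℝ) 1)) := by
    have h := (Construct.measurePreserving_reflect.integrable_comp_emb
      (MeasurableEquiv.subLeft (1 : ℝ)).measurableEmbedding).2 hφ
    exact h.mono_measure (Measure.restrict_mono (Ioo_subset_Ioo (by norm_num) le_rfl) le_rfl)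
  rw [Construct.restrict_split, integral_add_measure hl hr, e2, integral_add hr hr2]
  ring

/-- closed form of `∫ s²` for `k = 1` -/
theorem integral_s_sq_one (n : ℕ) :
    ∫ x in Ioo (1/2:ℝ) 1, s 1 n x ^ 2 = ((2 * n).choose n : ℝ) -
      (1 / (n.factorial : ℝ) ^ 2) * ∫ x in (0:ℝ)..1, (Real.log x) ^ n * (Real.log (1 - x)) ^ n := by
  have h1 : Integrable (fun x => f 1 n x ^ 2) (volume.restrict (Ioo (0:ℝ) 1)) :=
    (memLp_f n le_rfl).integrable_sq
  have hr : MemLp (fun x => f 1 n (1 - x)) 2 (volume.restrict (Ioo (0:ℝ) 1)) :=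
    (memLp_f n le_rfl).comp_measurePreserving Construct.measurePreserving_reflect
  have h2 : Integrable (fun x => f 1 n x * f 1 n (1 - x)) (volume.restrict (Ioo (0:ℝ) 1)) :=
    (memLp_f n le_rfl).integrable_mul hr
  have e1 := integral_fold h1
  have e2 := integral_fold h2
  have i1 : Integrable (fun x => f 1 n x ^ 2 + f 1 n (1 - x) ^ 2) (volume.restrict (Ioo (1/2:ℝ) 1)) :=
    (memLp_f_half n le_rfl).integrable_sq.add (memLp_f_reflect n le_rfl).integrable_sq
  have i2 : Integrable (fun x => f 1 n x * f 1 n (1 - x) + f 1 n (1 - x) * f 1 n (1 - (1 - x)))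
      (volume.restrict (Ioo (1/2:ℝ) 1)) := by
    have := ((memLp_f_half n (k := 1) le_rfl).integrable_mul (memLp_f_reflect n le_rfl)).const_mul 2
    refine this.congr ?_
    filter_upwards with x
    have : (1:ℝ) - (1 - x) = x := by ring
    simp only [Pi.mul_apply]
    rw [this]; ring
  have e3 : ∫ x in Ioo (1/2:ℝ) 1, s 1 n x ^ 2 = (∫ x in Ioo (1/2:ℝ) 1, (f 1 n x ^ 2 + f 1 n (1 - x) ^ 2)) -
      ∫ x in Ioo (1/2:ℝ) 1, (f 1 n x * f 1 n (1 - x) + f 1 n (1 - x) * f 1 n (1 - (1 - x))) := by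
    rw [← integral_sub i1 i2]
    apply integral_congr_ae
    filter_upwards with x
    have : (1:ℝ) - (1 - x) = x := by ring
    rw [this]
    simp only [s]; ring
  rw [e3, ← e1, ← e2]
  have e4 : ∫ x in Ioo (0:ℝ) 1, f 1 n x ^ 2 = ((2 * n).choose n : ℝ) := by
    have h : (fun x => f 1 n x ^ 2) = fun x => ((2 * n).choose n : ℝ) * f 1 (2 * n) x := by
      funext x
      rw [f_sq n le_rfl]
      norm_num
    rw [h, integral_const_mul, ← integral_Ioc_eq_integral_Ioo,
      ← intervalIntegral.integral_of_le zero_le_one, integral_f_one (2 * n) le_rfl, mul_one]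
  have e5 : ∫ x in Ioo (0:ℝ) 1, f 1 n x * f 1 n (1 - x) =
      (1 / (n.factorial : ℝ) ^ 2) * ∫ x in (0:ℝ)..1, (Real.log x) ^ n * (Real.log (1 - x)) ^ n := by
    rw [intervalIntegral.integral_of_le zero_le_one, integral_Ioc_eq_integral_Ioo, ← integral_const_mul]
    apply integral_congr_ae
    filter_upwards with x
    unfold f
    have : (1:ℝ) - (1 - x) = x := by ring
    rw [this, neg_pow (Real.log (1 - x)), neg_pow (Real.log x)]
    have h2 : ((-1:ℝ) ^ n) * (-1) ^ n = 1 := by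
      rw [← mul_pow]; norm_num
    simp only [Nat.cast_one, one_pow, Nat.sub_self, pow_zero, mul_one]
    calc 1 / (n.factorial : ℝ) * ((-1) ^ n * Real.log (1 - x) ^ n) *
          (1 / (n.factorial : ℝ) * ((-1) ^ n * Real.log x ^ n))
        = ((-1:ℝ) ^ n * (-1) ^ n) * (1 / (n.factorial : ℝ) ^ 2 * (Real.log x ^ n * Real.log (1 - x) ^ n)) := by
          ring
      _ = _ := by rw [h2, one_mul]
  rw [e4, e5]

theorem uniSet_one {n : ℕ} (hn : 1 ≤ n) :
    IsGreatest (uniSet 1 n) (Real.sqrt ((∫ x in Ioo (1/2:ℝ) 1, s 1 n x ^ 2) / 2)) := by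
  constructor
  · obtain ⟨ν, hν, hm, hv, hq, -⟩ := exists_uniParent (s 1 n) (s1 1 n) ∅ finite_empty
      (fun x hx => (hasDerivAt_s 1 n (by linarith [hx.1]) hx.2).continuousAt.continuousWithinAt)
      (s_half 1 n) ((memLp_s n le_rfl).integrable_sq)
      (fun x hx _ => hasDerivAt_s 1 n (by linarith [hx.1]) hx.2)
      (fun x hx => s1_one_pos hn (by linarith [hx.1]) hx.2)
      (by
        have : StrictMonoOn (s1 1 n) (Ioo (1/2:ℝ) 1) := by
          apply strictMonoOn_of_deriv_pos (convex_Ioo _ _)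
          · intro x hx
            exact (hasDerivAt_s1 1 n (by linarith [hx.1]) hx.2).continuousAt.continuousWithinAt
          · intro x hx
            rw [interior_Ioo] at hx
            rw [(hasDerivAt_s1 1 n (by linarith [hx.1]) hx.2).deriv]
            exact s2_one_pos hn hx.1 hx.2
        exact this.monotoneOn)
    refine ⟨ν, hν, ?_⟩
    rw [ratio_eq n le_rfl hν.toSymParent hm hv hq]
    have e : ∫ x in Ioo (1/2:ℝ) 1, s 1 n x * s 1 n x = ∫ x in Ioo (1/2:ℝ) 1, s 1 n x ^ 2 := by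
      apply setIntegral_congr_fun measurableSet_Ioo
      intro x _
      simp only; ring
    rw [e]
    set G := ∫ x in Ioo (1/2:ℝ) 1, s 1 n x ^ 2 with hG
    have hGpos : 0 < G := by
      have := hν.var_pos
      rw [hv] at this
      linarith
    symm
    rw [div_eq_iff (Real.sqrt_pos.2 (by positivity)).ne', ← Real.sqrt_mul (by positivity)]
    have : G / 2 * (2 * G) = G ^ 2 := by ring
    rw [this, Real.sqrt_sq hGpos.le]
  · rintro r ⟨ν, hν, rfl⟩
    exact ratio_le n le_rfl hν.toSymParent (memLp_s n le_rfl) le_rfl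

end Pool.Agent.Lib.MP_d11fee_pr
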